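import Mathlib

/-!
# Groups acting faithfully by affine maps on a finitely generated abelian group are linear over `ℚ`
-/

namespace Pool.Agent.H45R3.MB

section

theorem exists_sep (M : Type) [AddCommGroup M] [Module.Finite ℤ M] :
    ∃ k : ℤ, k ≠ 0 ∧ ∀ d : M, (∀ l : M →ₗ[ℤ] ℚ, l d = 0) → (∃ y, k • y = d) → d = 0 := by
  classical
  have : AddGroup.FG M := Module.Finite.iff_addGroup_fg.1 inferInstance
  obtain ⟨n, ι, _, p, hp, e, ⟨f⟩⟩ := AddCommGroup.equiv_free_prod_directSum_zmod M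
  refine ⟨∏ i, (p i : ℤ) ^ e i, ?_, fun d hd hy => ?_⟩
  · exact Finset.prod_ne_zero_iff.2 fun i _ => pow_ne_zero _ (by exact_mod_cast (hp i).ne_zero)
  · have h1 : (f d).1 = 0 := by
      ext i
      let l : M →ₗ[ℤ] ℚ := ((Int.castAddHom ℚ).toIntLinearMap).comp ((Finsupp.lapply i).comp
        ((LinearMap.fst ℤ _ _).comp f.toAddMonoidHom.toIntLinearMap))
      have := hd l
      have h : (((f d).1 i : ℤ) : ℚ) = 0 := this
      exact_mod_cast h
    have h2 : (f d).2 = 0 := by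
      obtain ⟨y, rfl⟩ := hy
      rw [map_zsmul, Prod.smul_snd]
      apply DFinsupp.ext
      intro i
      have e1 : ((∏ i, (p i : ℤ) ^ e i) • (f y).2) i = (∏ i, (p i : ℤ) ^ e i) • ((f y).2 i) :=
        DFinsupp.smul_apply _ _ _
      rw [e1, zsmul_eq_mul]
      have h3 : ((∏ i, (p i : ℤ) ^ e i : ℤ) : ZMod (p i ^ e i)) = 0 := by
        rw [ZMod.intCast_zmod_eq_zero_iff_dvd]
        push_cast
        exact Finset.dvd_prod_of_mem (fun i => (p i : ℤ) ^ e i) (Finset.mem_univ i)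
      rw [h3, zero_mul]
      rfl
    apply f.injective
    rw [map_zero]
    exact Prod.ext h1 h2

variable {M : Type} [AddCommGroup M]

/-- Multiples of `k`. -/
def kM (M : Type) [AddCommGroup M] (k : ℤ) : Submodule ℤ M :=
  LinearMap.range (LinearMap.lsmul ℤ M k)

theorem mem_kM {k : ℤ} {x : M} : x ∈ kM M k ↔ ∃ y, k • y = x := Iff.rfl

theorem finite_quot [Module.Finite ℤ M] {k : ℤ} (hk : k ≠ 0) : Finite (M ⧸ kM M k) := by
  apply Module.finite_of_fg_torsion
  intro x
  refine ⟨⟨k, mem_nonZeroDivisors_of_ne_zero hk⟩, ?_⟩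
  induction x using Submodule.Quotient.induction_on with
  | _ y =>
    change k • (Submodule.Quotient.mk y : M ⧸ kM M k) = 0
    rw [← Submodule.Quotient.mk_smul, Submodule.Quotient.mk_eq_zero]
    exact ⟨y, rfl⟩

/-- Additive functions as functions. -/
def Psi1 (M : Type) [AddCommGroup M] : (M →ₗ[ℤ] ℚ) →ₗ[ℚ] (M → ℚ) where
  toFun l := fun x => l x
  map_add' _ _ := rfl
  map_smul' _ _ := rfl

/-- Periodic functions. -/
def Psi2 (M : Type) [AddCommGroup M] (k : ℤ) : ((M ⧸ kM M k) → ℚ) →ₗ[ℚ] (M → ℚ) :=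
  LinearMap.funLeft ℚ ℚ (Submodule.Quotient.mk)

theorem finite_dual [Module.Finite ℤ M] : Module.Finite ℚ (M →ₗ[ℤ] ℚ) := by
  obtain ⟨S, hS⟩ := Module.Finite.fg_top (R := ℤ) (M := M)
  let r : (M →ₗ[ℤ] ℚ) →ₗ[ℚ] (S → ℚ) :=
    { toFun := fun l x => l x
      map_add' := fun _ _ => rfl
      map_smul' := fun _ _ => rfl }
  refine Module.Finite.of_injective r fun a b h => ?_
  apply LinearMap.ext_on hS
  intro x hx
  exact congrFun h ⟨x, hx⟩

/-- The function space. -/
def FunSp (M : Type) [AddCommGroup M] (k : ℤ) : Submodule ℚ (M → ℚ) :=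
  LinearMap.range (Psi1 M) ⊔ LinearMap.range (Psi2 M k)

theorem finite_FunSp [Module.Finite ℤ M] {k : ℤ} (hk : k ≠ 0) : Module.Finite ℚ (FunSp M k) := by
  have := finite_dual (M := M)
  have := finite_quot (M := M) hk
  unfold FunSp
  infer_instance

theorem FunSp_stable (k : ℤ) (L : M →ₗ[ℤ] M) (t : M) :
    ∀ φ ∈ FunSp M k, LinearMap.funLeft ℚ ℚ (fun x => L x + t) φ ∈ FunSp M k := by
  have h : FunSp M k ≤ (FunSp M k).comap (LinearMap.funLeft ℚ ℚ (fun x => L x + t)) := by
    refine sup_le ?_ ?_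
    · rintro _ ⟨l, rfl⟩
      have e : LinearMap.funLeft ℚ ℚ (fun x => L x + t) (Psi1 M l) =
          Psi1 M (l.comp L) + Psi2 M k (fun _ => l t) := by
        funext x
        exact map_add l _ _
      change _ ∈ _
      rw [Submodule.mem_comap, e]
      exact Submodule.add_mem_sup ⟨_, rfl⟩ ⟨_, rfl⟩
    · rintro _ ⟨π, rfl⟩
      have hL : kM M k ≤ (kM M k).comap L := by
        rintro _ ⟨y, rfl⟩
        exact ⟨L y, (map_zsmul L k y).symm⟩
      have e : LinearMap.funLeft ℚ ℚ (fun x => L x + t) (Psi2 M k π) =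
          Psi2 M k (fun y => π ((kM M k).mapQ (kM M k) L hL y + Submodule.Quotient.mk t)) := by
        funext x
        rfl
      rw [Submodule.mem_comap, e]
      exact Submodule.mem_sup_right ⟨_, rfl⟩
  exact h

theorem FunSp_sep [Module.Finite ℤ M] {k : ℤ}
    (hk : ∀ d : M, (∀ l : M →ₗ[ℤ] ℚ, l d = 0) → (∃ y, k • y = d) → d = 0) (x y : M)
    (h : ∀ φ ∈ FunSp M k, φ x = φ y) : x = y := by
  classical
  rw [← sub_eq_zero]
  apply hk
  · intro l
    have := h (Psi1 M l) (Submodule.mem_sup_left ⟨l, rfl⟩)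
    rw [map_sub]
    exact sub_eq_zero.2 this
  · have := h (Psi2 M k (fun z => if z = Submodule.Quotient.mk x then 1 else 0))
      (Submodule.mem_sup_right ⟨_, rfl⟩)
    have h1 : (if (Submodule.Quotient.mk x : M ⧸ kM M k) = Submodule.Quotient.mk x then (1 : ℚ)
      else 0) = (if (Submodule.Quotient.mk y : M ⧸ kM M k) = Submodule.Quotient.mk x then (1 : ℚ)
      else 0) := this
    rw [if_pos rfl] at h1
    have h2 : (Submodule.Quotient.mk y : M ⧸ kM M k) = Submodule.Quotient.mk x := by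
      by_contra hne
      rw [if_neg hne] at h1
      norm_num at h1
    exact (Submodule.Quotient.eq (kM M k)).1 h2.symm

end

theorem exists_GL {G : Type} [Group G] {M : Type} [AddCommGroup M] [Module.Finite ℤ M]
    (L : G → M →ₗ[ℤ] M) (t : G → M) (h1 : ∀ x, L 1 x + t 1 = x)
    (hmul : ∀ g h x, L (g * h) x + t (g * h) = L g (L h x + t h) + t g)
    (hf : ∀ g, (∀ x, L g x + t g = x) → g = 1) :
    ∃ N : ℕ, ∃ ρ : G →* GL (Fin N) ℚ, Function.Injective ρ := by
  obtain ⟨k, hk0, hk⟩ := exists_sep M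
  have := finite_FunSp (M := M) hk0
  let R : G →* Module.End ℚ (FunSp M k) :=
    { toFun := fun g => (LinearMap.funLeft ℚ ℚ (fun x => L g⁻¹ x + t g⁻¹)).restrict
        (FunSp_stable k (L g⁻¹) (t g⁻¹))
      map_one' := by
        apply LinearMap.ext
        rintro ⟨φ, hφ⟩
        apply Subtype.ext
        funext x
        change φ (L 1⁻¹ x + t 1⁻¹) = φ x
        rw [inv_one, h1]
      map_mul' := fun g h => by
        apply LinearMap.ext
        rintro ⟨φ, hφ⟩
        apply Subtype.ext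
        funext x
        change φ (L (g * h)⁻¹ x + t (g * h)⁻¹) = φ (L h⁻¹ (L g⁻¹ x + t g⁻¹) + t h⁻¹)
        rw [mul_inv_rev, hmul] }
  have hR : Function.Injective R := by
    rw [injective_iff_map_eq_one]
    intro g hg
    rw [← inv_eq_one]
    apply hf
    intro x
    apply FunSp_sep hk
    intro φ hφ
    exact congrFun (congrArg Subtype.val (LinearMap.congr_fun hg ⟨φ, hφ⟩)) x
  let b := Module.finBasis ℚ (FunSp M k)
  let ρ : G →* Matrix (Fin (Module.finrank ℚ (FunSp M k))) (Fin (Module.finrank ℚ (FunSp M k))) ℚ :=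
    ((LinearMap.toMatrixAlgEquiv b : _ →* _)).comp R
  refine ⟨_, ρ.toHomUnits, fun g h hgh => hR ?_⟩
  have h2 : ρ g = ρ h := congrArg Units.val hgh
  exact (LinearMap.toMatrixAlgEquiv b).injective h2

end Pool.Agent.H45R3.MB
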