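import Pool.Agent.H45R3.MB.Coc
import Pool.Agent.H45R3.MB.LinRep

/-!
# Metabelian groups whose derived subgroup is finitely generated are linear over `ℚ`
-/

namespace Pool.Agent.H45R3.MB

open Pool.Agent.H45R3.AC
open scoped IsMulCommutative
open MvPolynomial

section

variable {G : Type} [Group G] [IsMulCommutative (commutator G)] {I : Type}
  (γ : I → G) (inv : I → I)

theorem shL_mul (x y : Abelianization G) (v : Fn γ) : shL γ (x * y) v = shL γ x (shL γ y v) := by
  rw [shL_apply, map_mul]
  rfl

theorem shL_one (v : Fn γ) : shL γ 1 v = v := by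
  rw [shL_apply, map_one]
  rfl

variable (hinv : ∀ i, γ (inv i) = (γ i)⁻¹) (hgen : Subgroup.closure (Set.range γ) = ⊤)
include hinv hgen

theorem ps_mem (g : G) : ps γ g ∈ M0 γ := by
  obtain ⟨w, rfl⟩ := exists_list_ev γ inv hinv g (by rw [hgen]; trivial)
  induction w with
  | nil =>
    have h1 : ev γ ([] : List I) = 1 := rfl
    rw [h1, ps_one]
    exact Submodule.zero_mem _
  | cons a w ih =>
    have e : ev γ (a :: w) = γ a * ev γ w := by simp [ev]
    rw [e, ps_mul, ← X_smul]
    exact Submodule.add_mem _ (ps_mem_letter γ a) (Submodule.smul_mem _ _ ih)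

theorem shL_mem (x : Abelianization G) : ∀ v ∈ M0 γ, shL γ x v ∈ M0 γ := by
  rw [← of_sec x]
  obtain ⟨w, hw⟩ := exists_list_ev γ inv hinv (sec x) (by rw [hgen]; trivial)
  rw [← hw]
  clear hw
  induction w with
  | nil =>
    intro v hv
    have h1 : ev γ ([] : List I) = 1 := rfl
    rw [h1, map_one, shL_one]
    exact hv
  | cons a w ih =>
    intro v hv
    have e : ev γ (a :: w) = γ a * ev γ w := by simp [ev]
    rw [e, map_mul, shL_mul, ← X_smul]
    exact Submodule.smul_mem _ _ (ih v hv)

omit hinv hgen in
theorem ps_comm (c a : G) (ha : a ∈ commutator G) :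
    ps γ (c * a * c⁻¹) = shL γ (Abelianization.of c) (ps γ a) := by
  have ha' : Abelianization.of a = 1 := (of_eq_one a).2 ha
  have h1 : ps γ (c * c⁻¹) = ps γ c + shL γ (Abelianization.of c) (ps γ c⁻¹) := ps_mul γ _ _
  rw [mul_inv_cancel, ps_one] at h1
  rw [ps_mul, ps_mul, map_mul, ha', mul_one]
  calc ps γ c + shL γ (Abelianization.of c) (ps γ a) + shL γ (Abelianization.of c) (ps γ c⁻¹)
      = (ps γ c + shL γ (Abelianization.of c) (ps γ c⁻¹)) +
        shL γ (Abelianization.of c) (ps γ a) := by abel
    _ = _ := by rw [← h1, zero_add]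

/-- The values on the derived subgroup. -/
noncomputable def jA : Additive (commutator G) →+ M0 γ where
  toFun a := ⟨ps γ (a.toMul : commutator G), ps_mem γ inv hinv hgen _⟩
  map_zero' := Subtype.ext (ps_one γ)
  map_add' a b := by
    apply Subtype.ext
    change ps γ (((a.toMul : commutator G) : G) * ((b.toMul : commutator G) : G)) =
      ps γ ((a.toMul : commutator G) : G) + ps γ ((b.toMul : commutator G) : G)
    rw [ps_mul, (of_eq_one _).2 a.toMul.2, shL_one]

theorem jA_cj (c : I) (a : Additive (commutator G)) :
    jA γ inv hinv hgen (cj (γ c) a) = (X c : MvPolynomial I ℤ) • jA γ inv hinv hgen a := by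
  apply Subtype.ext
  change ps γ (γ c * ((a.toMul : commutator G) : G) * (γ c)⁻¹) =
    (X c : MvPolynomial I ℤ) • ps γ ((a.toMul : commutator G) : G)
  rw [X_smul, ps_comm γ _ _ a.toMul.2]

theorem jA_aeval (c : I) (f : Polynomial ℤ) (a : Additive (commutator G)) :
    jA γ inv hinv hgen (Polynomial.aeval (cj (γ c)) f a) =
      (Polynomial.aeval (X c : MvPolynomial I ℤ) f) • jA γ inv hinv hgen a := by
  induction f using Polynomial.induction_on' generalizing a with
  | add p q hp hq => rw [map_add, map_add, LinearMap.add_apply, map_add, hp, hq, add_smul]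
  | monomial n r =>
    rw [Polynomial.aeval_monomial, Polynomial.aeval_monomial]
    have h1 : ∀ n : ℕ, ∀ a : Additive (commutator G), jA γ inv hinv hgen ((cj (γ c) ^ n) a) =
        (X c ^ n : MvPolynomial I ℤ) • jA γ inv hinv hgen a := by
      intro n
      induction n with
      | zero => intro a; rw [pow_zero, pow_zero, one_smul]; rfl
      | succ n ih =>
        intro a
        rw [pow_succ, Module.End.mul_apply, ih, jA_cj, smul_smul, pow_succ]
    rw [Module.End.mul_apply, mul_smul, ← h1, eq_intCast (algebraMap ℤ (MvPolynomial I ℤ)),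
      Int.cast_smul_eq_zsmul, ← map_zsmul, Module.algebraMap_end_apply]

end

section

variable {I : Type} [Finite I] {W : Type} [AddCommGroup W] [Module (MvPolynomial I ℤ) W]

/-- A finite module over the polynomial ring on which every variable is annihilated by a monic
integer polynomial is finitely generated as an abelian group. -/
theorem finite_int_of_monic [Module.Finite (MvPolynomial I ℤ) W] (f : I → Polynomial ℤ)
    (hf : ∀ c, (f c).Monic)
    (h : ∀ c, ∀ v : W, (Polynomial.aeval (X c : MvPolynomial I ℤ) (f c)) • v = 0) :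
    Module.Finite ℤ W := by
  let T : I → Module.End ℤ W := fun c =>
    (DistribSMul.toAddMonoidHom W (X c : MvPolynomial I ℤ)).toIntLinearMap
  have hT : ∀ c v, T c v = (X c : MvPolynomial I ℤ) • v := fun c v => rfl
  have hTp : ∀ c (n : ℕ) v, (T c ^ n) v = (X c ^ n : MvPolynomial I ℤ) • v := by
    intro c n
    induction n with
    | zero => intro v; rw [pow_zero, pow_zero, one_smul]; rfl
    | succ n ih => intro v; rw [pow_succ, Module.End.mul_apply, ih, hT, smul_smul, pow_succ]
  obtain ⟨S, hS⟩ := Module.Finite.fg_top (R := MvPolynomial I ℤ) (M := W)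
  obtain ⟨N, h1, h2, h3⟩ := close T
    (fun i j => by
      apply LinearMap.ext
      intro v
      change (X i : MvPolynomial I ℤ) • (X j : MvPolynomial I ℤ) • v =
        (X j : MvPolynomial I ℤ) • (X i : MvPolynomial I ℤ) • v
      rw [smul_comm])
    (fun c v => by
      apply span_orbit_fg (n := (f c).natDegree)
      have h4 := h c v
      rw [(hf c).as_sum, map_add, map_pow, Polynomial.aeval_X, map_sum, add_smul,
        Finset.sum_smul] at h4
      rw [hTp, eq_neg_of_add_eq_zero_left h4]
      refine Submodule.neg_mem _ (Submodule.sum_mem _ fun i hi => ?_)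
      rw [map_mul, map_pow, Polynomial.aeval_X, Polynomial.aeval_C, mul_smul, ← hTp,
        eq_intCast (algebraMap ℤ (MvPolynomial I ℤ)), Int.cast_smul_eq_zsmul]
      exact Submodule.smul_mem _ _ (Submodule.subset_span ⟨⟨i, Finset.mem_range.1 hi⟩, rfl⟩))
    (Submodule.span ℤ (S : Set W)) (Submodule.fg_span S.finite_toSet)
  have h4 : ∀ p : MvPolynomial I ℤ, ∀ v ∈ N, p • v ∈ N := by
    intro p
    induction p using MvPolynomial.induction_on with
    | C a =>
      intro v hv
      have : (C a : MvPolynomial I ℤ) • v = a • v := by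
        have e : (C a : MvPolynomial I ℤ) = (a : MvPolynomial I ℤ) := by simp
        rw [e, Int.cast_smul_eq_zsmul]
      rw [this]
      exact N.smul_mem _ hv
    | add p q hp hq =>
      intro v hv
      rw [add_smul]
      exact N.add_mem (hp v hv) (hq v hv)
    | mul_X p i hp =>
      intro v hv
      rw [mul_smul]
      exact hp _ (h3 i v hv)
  have h5 : N = ⊤ := by
    rw [eq_top_iff]
    intro v _
    have h6 : v ∈ Submodule.span (MvPolynomial I ℤ) (S : Set W) := by rw [hS]; trivial
    induction h6 using Submodule.span_induction with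
    | mem x hx => exact h1 (Submodule.subset_span hx)
    | zero => exact N.zero_mem
    | add x y _ _ hx hy => exact N.add_mem (hx trivial) (hy trivial)
    | smul r x _ hx => exact h4 r x (hx trivial)
  exact ⟨by rw [← h5]; exact h2⟩

end

end Pool.Agent.H45R3.MB
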