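import Pool.Agent.H45R3.MB.CaseOne

/-!
# Metabelian groups whose derived subgroup is finitely generated are linear over `ℚ`, continued
-/

namespace Pool.Agent.H45R3.MB

open Pool.Agent.H45R3.AC
open scoped IsMulCommutative
open MvPolynomial

section

variable {G : Type} [Group G] [IsMulCommutative (commutator G)] {I : Type}
  (γ : I → G) (inv : I → I)
  (hinv : ∀ i, γ (inv i) = (γ i)⁻¹) (hgen : Subgroup.closure (Set.range γ) = ⊤)

/-- There is a submodule of `M0` meeting the values on the derived subgroup trivially with a
quotient which is finitely generated as an abelian group. -/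
theorem exists_quot [Finite I] (hA : Module.Finite ℤ (Additive (commutator G))) :
    ∃ M' : Submodule (MvPolynomial I ℤ) (M0 γ), Module.Finite ℤ (M0 γ ⧸ M') ∧
      (∀ φ : M0 γ →ₗ[MvPolynomial I ℤ] M0 γ, M' ≤ M'.comap φ) ∧
      ∀ a : Additive (commutator G), jA γ inv hinv hgen a ∈ M' → jA γ inv hinv hgen a = 0 := by
  choose f hf hf0 using fun c => LinearMap.exists_monic_and_aeval_eq_zero ℤ (cj (γ c))
  let J : Ideal (MvPolynomial I ℤ) :=
    Ideal.span (Set.range fun c => Polynomial.aeval (X c : MvPolynomial I ℤ) (f c))
  let N : Submodule (MvPolynomial I ℤ) (M0 γ) :=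
    Submodule.span _ (Set.range (jA γ inv hinv hgen))
  have hJN : J • N = ⊥ := by
    rw [eq_bot_iff, Submodule.smul_le]
    intro r hr n hn
    have hr' : r ∈ (⊥ : Submodule (MvPolynomial I ℤ) (M0 γ)).colon (N : Set (M0 γ)) := by
      have hle : J ≤ (⊥ : Submodule (MvPolynomial I ℤ) (M0 γ)).colon (N : Set (M0 γ)) := by
        refine Ideal.span_le.2 ?_
        rintro _ ⟨c, rfl⟩
        rw [SetLike.mem_coe, Submodule.mem_colon]
        intro x hx
        have hx' : x ∈ N := hx
        clear hx
        rw [Submodule.mem_bot]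
        induction hx' using Submodule.span_induction with
        | mem x hx =>
          obtain ⟨a, rfl⟩ := hx
          rw [← jA_aeval, hf0, LinearMap.zero_apply, map_zero]
        | zero => rw [smul_zero]
        | add x y _ _ hx hy => rw [smul_add, hx, hy, add_zero]
        | smul r x h1 hx => rw [smul_comm, hx, smul_zero]
      exact hle hr
    exact Submodule.mem_colon.1 hr' n hn
  obtain ⟨k, hk⟩ := Ideal.exists_pow_inf_eq_pow_smul J N
  have hinf : J ^ (k + 1) • (⊤ : Submodule (MvPolynomial I ℤ) (M0 γ)) ⊓ N = ⊥ := by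
    rw [hk (k + 1) (by omega), show k + 1 - k = 1 by omega, pow_one, eq_bot_iff, ← hJN]
    exact Submodule.smul_mono le_rfl inf_le_right
  refine ⟨J ^ (k + 1) • ⊤, ?_, ?_, ?_⟩
  · refine finite_int_of_monic (fun c => f c ^ (k + 1)) (fun c => (hf c).pow _) ?_
    intro c v
    induction v using Submodule.Quotient.induction_on with
    | _ u =>
      rw [← Submodule.Quotient.mk_smul, Submodule.Quotient.mk_eq_zero, map_pow]
      have hJ : Polynomial.aeval (X c : MvPolynomial I ℤ) (f c) ∈ J := Ideal.subset_span ⟨c, rfl⟩
      exact Submodule.smul_mem_smul (Ideal.pow_mem_pow hJ _) Submodule.mem_top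
  · intro φ
    rw [← Submodule.map_le_iff_le_comap, Submodule.map_smul'']
    exact Submodule.smul_mono le_rfl le_top
  · intro a ha
    have h1 : jA γ inv hinv hgen a ∈ N := Submodule.subset_span ⟨a, rfl⟩
    have h2 : jA γ inv hinv hgen a ∈ (⊥ : Submodule (MvPolynomial I ℤ) (M0 γ)) := by
      rw [← hinf]
      exact ⟨ha, h1⟩
    exact h2

/-- Shifts on `M0`. -/
noncomputable def shM (x : Abelianization G) : M0 γ →ₗ[MvPolynomial I ℤ] M0 γ :=
  (shL γ x).restrict (shL_mem γ inv hinv hgen x)

theorem shM_coe (x : Abelianization G) (v : M0 γ) :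
    ((shM γ inv hinv hgen x v : M0 γ) : Fn γ) = shL γ x v := rfl

/-- The value of the cocycle in `M0`. -/
noncomputable def psM (g : G) : M0 γ := ⟨ps γ g, ps_mem γ inv hinv hgen g⟩

theorem psM_mul (g h : G) : psM γ inv hinv hgen (g * h) =
    psM γ inv hinv hgen g + shM γ inv hinv hgen (Abelianization.of g) (psM γ inv hinv hgen h) :=
  Subtype.ext (ps_mul γ g h)

theorem psM_one : psM γ inv hinv hgen 1 = 0 := Subtype.ext (ps_one γ)

theorem shM_mul (x y : Abelianization G) (v : M0 γ) : shM γ inv hinv hgen (x * y) v =
    shM γ inv hinv hgen x (shM γ inv hinv hgen y v) := Subtype.ext (shL_mul γ x y _)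

theorem shM_one (v : M0 γ) : shM γ inv hinv hgen 1 v = v := Subtype.ext (shL_one γ _)

end

theorem exists_GL_of_fg {G : Type} [Group G] [IsMulCommutative (commutator G)] {I : Type}
    [Finite I] (γ : I → G) (inv : I → I)
    (hinv : ∀ i, γ (inv i) = (γ i)⁻¹) (hgen : Subgroup.closure (Set.range γ) = ⊤)
    (hA : Module.Finite ℤ (Additive (commutator G))) :
    ∃ N : ℕ, ∃ ρ : G →* GL (Fin N) ℚ, Function.Injective ρ := by
  obtain ⟨M', h1, h2, h3⟩ := exists_quot γ inv hinv hgen hA
  have hfg : Group.FG G := Group.fg_iff.2 ⟨_, hgen, Set.finite_range _⟩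
  have hfg2 : Group.FG (Abelianization G) := QuotientGroup.fg _
  have hfin : Module.Finite ℤ (Additive (Abelianization G)) :=
    Module.Finite.iff_addGroup_fg.2 inferInstance
  let Lb : G → (M0 γ ⧸ M') →ₗ[ℤ] (M0 γ ⧸ M') := fun g =>
    (M'.mapQ M' (shM γ inv hinv hgen (Abelianization.of g)) (h2 _)).toAddMonoidHom.toIntLinearMap
  have hLb : ∀ g v, Lb g (Submodule.Quotient.mk v) =
      Submodule.Quotient.mk (shM γ inv hinv hgen (Abelianization.of g) v) := fun g v => rfl
  refine exists_GL (M := (M0 γ ⧸ M') × Additive (Abelianization G))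
    (fun g => (Lb g).prodMap LinearMap.id)
    (fun g => (Submodule.Quotient.mk (psM γ inv hinv hgen g),
      Additive.ofMul (Abelianization.of g))) ?_ ?_ ?_
  · rintro ⟨v, q⟩
    induction v using Submodule.Quotient.induction_on with
    | _ u =>
      refine Prod.ext ?_ ?_
      · change Lb 1 (Submodule.Quotient.mk u) + Submodule.Quotient.mk (psM γ inv hinv hgen 1) =
          Submodule.Quotient.mk u
        rw [hLb, map_one, shM_one, psM_one, Submodule.Quotient.mk_zero, add_zero]
      · change q + Additive.ofMul (Abelianization.of (1 : G)) = q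
        rw [map_one, ofMul_one, add_zero]
  · rintro g h ⟨v, q⟩
    induction v using Submodule.Quotient.induction_on with
    | _ u =>
      refine Prod.ext ?_ ?_
      · change Lb (g * h) (Submodule.Quotient.mk u) +
          Submodule.Quotient.mk (psM γ inv hinv hgen (g * h)) =
          Lb g (Lb h (Submodule.Quotient.mk u) +
            Submodule.Quotient.mk (psM γ inv hinv hgen h)) +
          Submodule.Quotient.mk (psM γ inv hinv hgen g)
        have e1 : Lb h (Submodule.Quotient.mk u) +
            Submodule.Quotient.mk (psM γ inv hinv hgen h) =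
            (Submodule.Quotient.mk (shM γ inv hinv hgen (Abelianization.of h) u +
              psM γ inv hinv hgen h) : M0 γ ⧸ M') := rfl
        rw [e1]
        change (Submodule.Quotient.mk (shM γ inv hinv hgen (Abelianization.of (g * h)) u +
          psM γ inv hinv hgen (g * h)) : M0 γ ⧸ M') = Submodule.Quotient.mk
          (shM γ inv hinv hgen (Abelianization.of g) (shM γ inv hinv hgen (Abelianization.of h) u +
              psM γ inv hinv hgen h) + psM γ inv hinv hgen g)
        rw [psM_mul, map_mul, shM_mul, map_add]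
        congr 1
        abel
      · change q + Additive.ofMul (Abelianization.of (g * h)) =
          (q + Additive.ofMul (Abelianization.of h)) + Additive.ofMul (Abelianization.of g)
        rw [map_mul, ofMul_mul]
        abel
  · intro g hg
    have h4 := hg (0, 0)
    have h5 : Submodule.Quotient.mk (psM γ inv hinv hgen g) = (0 : M0 γ ⧸ M') := by
      have := congrArg Prod.fst h4
      change Lb g 0 + Submodule.Quotient.mk (psM γ inv hinv hgen g) = 0 at this
      rwa [map_zero, zero_add] at this
    have h6 : Abelianization.of g = 1 := by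
      have := congrArg Prod.snd h4
      change (0 : Additive (Abelianization G)) + Additive.ofMul (Abelianization.of g) = 0 at this
      rw [zero_add] at this
      exact this
    have h7 : g ∈ commutator G := (of_eq_one g).1 h6
    have h8 := h3 (Additive.ofMul ⟨g, h7⟩) ((Submodule.Quotient.mk_eq_zero _).1 h5)
    exact eq_one_of_ps γ (congrArg Subtype.val h8)

end Pool.Agent.H45R3.MB
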