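import Pool.Agent.H45R3.AC.Main

/-!
# Stretched-exponential decay of return probabilities, and sums of polynomials against it
-/

namespace Pool.Agent.H45R3.MB

open Finset Pool.Agent.H45R3.AC

theorem exp_decay {H : Type*} [Group H] [Fintype H] [DecidableEq H] {I : Type*} [Fintype I]
    [Nonempty I] (γ : I → H) (κ L s : ℕ) (hL : 1 ≤ L)
    (hW : ∀ r : ℕ, κ * r ≤ s → ∃ S : Finset H, S.Nonempty ∧
      (∀ h ∈ S, ∃ w : List (I × I), w.length = r ∧ pev γ w = h) ∧ 2 ^ (r / L) ≤ S.card)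
    (C0 : ℕ) (hC0 : 4 * L ^ 2 * Fintype.card I ^ 2 + 1 ≤ C0) :
    ∀ j : ℕ, κ * (L * (j + 1)) ≤ s → ∀ n, C0 * (j + 1) ^ 3 ≤ n → nrm γ n ≤ (1 / 2) ^ j := by
  have hIpos : (0 : ℝ) < Fintype.card I := by exact_mod_cast Fintype.card_pos
  have hLpos : (0 : ℝ) < L := by exact_mod_cast hL
  have hanti : ∀ a b, a ≤ b → nrm γ b ≤ nrm γ a := by
    intro a b hab
    induction b, hab using Nat.le_induction with
    | base => exact le_rfl
    | succ b _ ih => exact (nrm_anti γ b).trans ih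
  intro j
  induction j with
  | zero => intro _ n _; simpa using nrm_le_one γ n
  | succ j ih =>
    intro hs n hn
    by_contra hcon
    push Not at hcon
    have hs' : κ * (L * (j + 1)) ≤ s := le_trans (by gcongr; omega) hs
    set N0 := C0 * (j + 1) ^ 3 with hN0
    have hNn : N0 ≤ n := le_trans (by rw [hN0]; gcongr; omega) hn
    have h0 := ih hs' N0 le_rfl
    obtain ⟨S, hS, hSw, hSc⟩ := hW (L * (j + 1 + 1)) hs
    have hr : L * (j + 1 + 1) / L = j + 2 := by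
      rw [Nat.mul_div_cancel_left _ (by omega)]
    rw [hr] at hSc
    have hScard : (1 : ℝ) / S.card ≤ (1 / 2) ^ (j + 2) := by
      have h1 : ((2 : ℝ) ^ (j + 2)) ≤ S.card := by exact_mod_cast hSc
      rw [one_div_pow]
      exact one_div_le_one_div_of_le (by positivity) h1
    set R : ℝ := ((L * (j + 1 + 1) : ℕ) : ℝ) ^ 2 * (Fintype.card I : ℝ) ^ 2 with hR
    have hRpos : 0 < R := by
      rw [hR]; positivity
    set δ : ℝ := (1 / 2) ^ (j + 2) / R with hδ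
    have hδpos : 0 < δ := by rw [hδ]; positivity
    have hdrop : ∀ n' ≤ n, nrm γ (n' + 1) + δ ≤ nrm γ n' := by
      intro n' hn'
      have h1 := nash γ n' (L * (j + 1 + 1)) S hS hSw
      have h2 : (1 / 2 : ℝ) ^ (j + 1) < nrm γ n' := lt_of_lt_of_le hcon (hanti _ _ hn')
      have h3 : (1 / 2 : ℝ) ^ (j + 1) = 2 * (1 / 2) ^ (j + 2) := by rw [pow_succ _ (j + 1)]; ring
      rw [← hR] at h1
      have h4 : (1 / 2 : ℝ) ^ (j + 2) ≤ R * (nrm γ n' - nrm γ (n' + 1)) := by linarith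
      have h5 : δ ≤ nrm γ n' - nrm γ (n' + 1) := by
        rw [hδ, div_le_iff₀ hRpos]
        linarith
      linarith
    have htel : ∀ k : ℕ, N0 + k ≤ n + 1 → nrm γ (N0 + k) + k * δ ≤ nrm γ N0 := by
      intro k
      induction k with
      | zero => intro _; simp
      | succ k ihk =>
        intro hk
        have h1 := ihk (by omega)
        have h2 := hdrop (N0 + k) (by omega)
        push_cast
        rw [← add_assoc N0 k 1]
        linarith
    obtain ⟨k, hk⟩ : ∃ k, n = N0 + k := ⟨n - N0, by omega⟩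
    have h6 := htel k (by omega)
    have h7 : (0 : ℝ) ≤ nrm γ (N0 + k) := nrm_nonneg γ _
    have h8 : (k : ℝ) * δ ≤ (1 / 2) ^ j := by linarith
    have h9 : (k : ℝ) ≤ 4 * R := by
      have h10 : (1 / 2 : ℝ) ^ j = 4 * (R * δ) := by
        rw [hδ, mul_div_cancel₀ _ hRpos.ne', pow_add]
        norm_num
        ring
      rw [h10] at h8
      have h11 : (k : ℝ) * δ ≤ (4 * R) * δ := by linarith
      exact le_of_mul_le_mul_right h11 hδpos
    have h10 : k ≤ 4 * ((L * (j + 1 + 1)) ^ 2 * Fintype.card I ^ 2) := by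
      have : (k : ℝ) ≤ ((4 * ((L * (j + 1 + 1)) ^ 2 * Fintype.card I ^ 2) : ℕ) : ℝ) := by
        push_cast
        rw [hR] at h9
        push_cast at h9
        exact h9
      exact_mod_cast this
    have h11 : C0 * (j + 1 + 1) ^ 2 ≤ k := by
      have h12 : C0 * (j + 1 + 1) ^ 3 ≤ C0 * (j + 1) ^ 3 + k := by rw [← hN0, ← hk]; exact hn
      have h13 : C0 * (j + 1 + 1) ^ 3 = C0 * (j + 1) ^ 3 + C0 * (3 * j ^ 2 + 9 * j + 7) := by ring
      have h14 : C0 * (j + 1 + 1) ^ 2 ≤ C0 * (3 * j ^ 2 + 9 * j + 7) := by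
        apply Nat.mul_le_mul_left
        nlinarith
      omega
    have h15 : (4 * L ^ 2 * Fintype.card I ^ 2 + 1) * (j + 1 + 1) ^ 2 ≤
        C0 * (j + 1 + 1) ^ 2 := Nat.mul_le_mul_right _ hC0
    have h16 : (4 * L ^ 2 * Fintype.card I ^ 2 + 1) * (j + 1 + 1) ^ 2 =
        4 * ((L * (j + 1 + 1)) ^ 2 * Fintype.card I ^ 2) + (j + 1 + 1) ^ 2 := by ring
    have h17 : 0 < (j + 1 + 1) ^ 2 := by positivity
    omega

theorem half_min (a t : ℕ) : (1 / 2 : ℝ) ^ (min a t) ≤ (1 / 2) ^ a + (1 / 2) ^ t := by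
  have h1 : (0 : ℝ) < (1 / 2) ^ a := by positivity
  have h2 : (0 : ℝ) < (1 / 2) ^ t := by positivity
  rcases min_choice a t with h | h <;> rw [h] <;> linarith

/-- The bound for return probabilities in a finite quotient of exponential growth up to
radius `s / κ`. -/
theorem ret_bound {I : Type*} [Fintype I] [Nonempty I] (κ L : ℕ) (hL : 1 ≤ L) :
    ∃ C1 : ℝ, 0 ≤ C1 ∧ ∀ (H : Type) [Group H] [Fintype H] [DecidableEq H] (γ : I → H) (s : ℕ),
      (∀ r : ℕ, κ * r ≤ s → ∃ S : Finset H, S.Nonempty ∧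
        (∀ h ∈ S, ∃ w : List (I × I), w.length = r ∧ pev γ w = h) ∧ 2 ^ (r / L) ≤ S.card) →
      ∀ n y, dist γ n y ≤ C1 * ((1 / 2) ^ (s / (κ * L)) + (1 / 2) ^ (Nat.sqrt (Nat.sqrt n))) := by
  set C0 := 4 * L ^ 2 * Fintype.card I ^ 2 + 1 with hC0
  refine ⟨2 ^ (2 * C0 + 1), by positivity, ?_⟩
  intro H _ _ _ γ s hW n y
  set a := s / (κ * L) with ha
  set t := Nat.sqrt (Nat.sqrt n) with ht
  have hone : dist γ n y ≤ 1 := (dist_le_nrm γ n y).trans (nrm_le_one γ _)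
  have hC1 : (1 : ℝ) ≤ 2 ^ (2 * C0 + 1) := one_le_pow₀ (by norm_num)
  have hC2 : (2 : ℝ) ≤ 2 ^ (2 * C0 + 1) := by
    calc (2 : ℝ) = 2 ^ 1 := by norm_num
      _ ≤ 2 ^ (2 * C0 + 1) := pow_le_pow_right₀ (by norm_num) (by omega)
  have h1 : (0 : ℝ) < (1 / 2) ^ a := by positivity
  have h2 : (0 : ℝ) < (1 / 2) ^ t := by positivity
  have hmin := half_min a t
  by_cases htC : t < 2 * C0
  · have h3 : (1 : ℝ) ≤ 2 ^ (2 * C0 + 1) * (1 / 2) ^ t := by
      rw [one_div_pow, mul_one_div, le_div_iff₀ (by positivity), one_mul]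
      exact pow_le_pow_right₀ (by norm_num) (by omega)
    have h4 : (0 : ℝ) ≤ 2 ^ (2 * C0 + 1) * (1 / 2) ^ a := by positivity
    rw [mul_add]
    linarith
  · push Not at htC
    rcases Nat.eq_zero_or_pos (min a t) with hm | hm
    · rw [hm, pow_zero] at hmin
      have h3 : (1 : ℝ) ≤ 2 ^ (2 * C0 + 1) * ((1 / 2) ^ a + (1 / 2) ^ t) := by nlinarith
      linarith
    · obtain ⟨j, hj⟩ : ∃ j, min a t = j + 1 := ⟨min a t - 1, by omega⟩
      have hja : j + 1 ≤ a := by rw [← hj]; exact min_le_left _ _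
      have hjt : j + 1 ≤ t := by rw [← hj]; exact min_le_right _ _
      have hs : κ * (L * (j + 1)) ≤ s := by
        rw [← mul_assoc]
        calc κ * L * (j + 1) ≤ κ * L * a := Nat.mul_le_mul_left _ hja
          _ ≤ s := Nat.mul_div_le s (κ * L)
      have hn : C0 * (j + 1) ^ 3 ≤ n / 2 := by
        rw [Nat.le_div_iff_mul_le (by norm_num)]
        have h5 : t * t ≤ Nat.sqrt n := Nat.sqrt_le (Nat.sqrt n)
        have h6 : Nat.sqrt n * Nat.sqrt n ≤ n := Nat.sqrt_le n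
        calc C0 * (j + 1) ^ 3 * 2 = 2 * C0 * (j + 1) ^ 3 := by ring
          _ ≤ t * t ^ 3 := Nat.mul_le_mul htC (Nat.pow_le_pow_left hjt 3)
          _ = (t * t) * (t * t) := by ring
          _ ≤ Nat.sqrt n * Nat.sqrt n := Nat.mul_le_mul h5 h5
          _ ≤ n := h6
      have h7 := exp_decay γ κ L s hL hW C0 le_rfl j hs (n / 2) hn
      have h8 := dist_le_nrm γ n y
      have h9 : (1 / 2 : ℝ) ^ j = 2 * (1 / 2) ^ (min a t) := by
        rw [hj, pow_succ]; ring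
      rw [h9] at h7
      have h10 : 2 * (1 / 2 : ℝ) ^ (min a t) ≤ 2 * ((1 / 2) ^ a + (1 / 2) ^ t) := by linarith
      have h11 : 2 * ((1 / 2 : ℝ) ^ a + (1 / 2) ^ t) ≤
          2 ^ (2 * C0 + 1) * ((1 / 2) ^ a + (1 / 2) ^ t) :=
        mul_le_mul_of_nonneg_right hC2 (by positivity)
      linarith

/-- Polynomials are dominated by powers of two. -/
theorem poly_le_two_pow (P : Polynomial ℕ) : ∃ C : ℕ, ∀ y : ℕ, P.eval y ≤ C * 2 ^ y := by
  induction P using Polynomial.induction_on' with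
  | add p q hp hq =>
    obtain ⟨C, hC⟩ := hp
    obtain ⟨C', hC'⟩ := hq
    refine ⟨C + C', fun y => ?_⟩
    rw [Polynomial.eval_add, add_mul]
    exact Nat.add_le_add (hC y) (hC' y)
  | monomial k c =>
    have h1 := (tendsto_pow_const_div_const_pow_of_one_lt k (r := 2) (by norm_num)).bddAbove_range
    obtain ⟨C, hC⟩ := h1
    obtain ⟨C', hC'⟩ := exists_nat_ge C
    refine ⟨c * C', fun y => ?_⟩
    rw [Polynomial.eval_monomial, mul_assoc]
    apply Nat.mul_le_mul_left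
    have h2 : (y : ℝ) ^ k / 2 ^ y ≤ C := hC ⟨y, rfl⟩
    rw [div_le_iff₀ (by positivity)] at h2
    have h3 : (y : ℝ) ^ k ≤ C' * 2 ^ y :=
      h2.trans (mul_le_mul_of_nonneg_right hC' (by positivity))
    exact_mod_cast h3

theorem sum_bound (Q : Polynomial ℕ) (M ℓ : ℕ) (hM : 1 ≤ M) : ∃ C2 : ℝ, 0 ≤ C2 ∧ ∀ n : ℕ,
    ∑ i ∈ range (ℓ * n), ((Q.eval (i + 1) : ℕ) : ℝ) *
      ((1 / 2) ^ (i / M) + (1 / 2) ^ (Nat.sqrt (Nat.sqrt n))) ≤ C2 := by
  -- first part
  obtain ⟨C, hC⟩ := poly_le_two_pow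
    (Q.comp (Polynomial.C M * (Polynomial.X + 1)) *
      (Polynomial.C M * (Polynomial.X + 1)) ^ 2)
  obtain ⟨C', hC'⟩ := poly_le_two_pow
    (Polynomial.C ℓ * (Polynomial.X + 1) ^ 4 *
      Q.comp (Polynomial.C ℓ * (Polynomial.X + 1) ^ 4))
  refine ⟨2 * C + C', by positivity, fun n => ?_⟩
  have hmono : ∀ {a b : ℕ}, a ≤ b → Q.eval a ≤ Q.eval b := fun h => by
    rw [Polynomial.eval_eq_sum, Polynomial.eval_eq_sum]
    unfold Polynomial.sum
    exact Finset.sum_le_sum fun i _ => Nat.mul_le_mul_left _ (Nat.pow_le_pow_left h i)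
  set t := Nat.sqrt (Nat.sqrt n) with ht
  have hA : ∀ i : ℕ, ((Q.eval (i + 1) : ℕ) : ℝ) * (1 / 2) ^ (i / M) ≤ C * (1 / ((i : ℝ) + 1) ^ 2) := by
    intro i
    have h1 := hC (i / M)
    simp only [Polynomial.eval_mul, Polynomial.eval_comp, Polynomial.eval_C, Polynomial.eval_add,
      Polynomial.eval_X, Polynomial.eval_one, Polynomial.eval_pow] at h1
    have h2 : i + 1 ≤ M * (i / M + 1) := by
      have := Nat.lt_mul_div_succ i (show 0 < M by omega)
      omega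
    have h3 : Q.eval (i + 1) * (i + 1) ^ 2 ≤ C * 2 ^ (i / M) :=
      le_trans (Nat.mul_le_mul (hmono h2) (Nat.pow_le_pow_left h2 2)) h1
    have h4 : ((Q.eval (i + 1) : ℕ) : ℝ) * ((i : ℝ) + 1) ^ 2 ≤ C * 2 ^ (i / M) := by exact_mod_cast h3
    rw [one_div_pow, mul_one_div, mul_one_div, div_le_div_iff₀ (by positivity) (by positivity)]
    exact h4
  have hB : (∑ i ∈ range (ℓ * n), ((Q.eval (i + 1) : ℕ) : ℝ)) * (1 / 2) ^ t ≤ C' := by
    have h1 := hC' t
    simp only [Polynomial.eval_mul, Polynomial.eval_comp, Polynomial.eval_C, Polynomial.eval_add,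
      Polynomial.eval_X, Polynomial.eval_one, Polynomial.eval_pow] at h1
    have h2 : n ≤ (t + 1) ^ 4 := by
      have h5 := Nat.lt_succ_sqrt (Nat.sqrt n)
      have h6 := Nat.lt_succ_sqrt n
      rw [← ht] at h5
      have h7 : Nat.sqrt n + 1 ≤ (t + 1) * (t + 1) := h5
      have h8 : n < (Nat.sqrt n + 1) * (Nat.sqrt n + 1) := h6
      calc n ≤ (Nat.sqrt n + 1) * (Nat.sqrt n + 1) := h8.le
        _ ≤ ((t + 1) * (t + 1)) * ((t + 1) * (t + 1)) := Nat.mul_le_mul h7 h7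
        _ = (t + 1) ^ 4 := by ring
    have h3 : ℓ * n ≤ ℓ * (t + 1) ^ 4 := Nat.mul_le_mul_left _ h2
    have h4 : (∑ i ∈ range (ℓ * n), Q.eval (i + 1)) ≤ C' * 2 ^ t := by
      calc (∑ i ∈ range (ℓ * n), Q.eval (i + 1)) ≤ ∑ i ∈ range (ℓ * n), Q.eval (ℓ * n) :=
            Finset.sum_le_sum fun i hi => hmono (by have := Finset.mem_range.1 hi; omega)
        _ = (ℓ * n) * Q.eval (ℓ * n) := by
            rw [Finset.sum_const, Finset.card_range, smul_eq_mul]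
        _ ≤ ℓ * (t + 1) ^ 4 * Q.eval (ℓ * (t + 1) ^ 4) := Nat.mul_le_mul h3 (hmono h3)
        _ ≤ _ := h1
    have h5 : (∑ i ∈ range (ℓ * n), ((Q.eval (i + 1) : ℕ) : ℝ)) ≤ C' * 2 ^ t := by exact_mod_cast h4
    rw [one_div_pow, mul_one_div, div_le_iff₀ (by positivity)]
    exact h5
  have hsplit : ∑ i ∈ range (ℓ * n), ((Q.eval (i + 1) : ℕ) : ℝ) *
      ((1 / 2) ^ (i / M) + (1 / 2) ^ t) =
      ∑ i ∈ range (ℓ * n), ((Q.eval (i + 1) : ℕ) : ℝ) * (1 / 2) ^ (i / M) +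
      (∑ i ∈ range (ℓ * n), ((Q.eval (i + 1) : ℕ) : ℝ)) * (1 / 2) ^ t := by
    rw [Finset.sum_mul, ← Finset.sum_add_distrib]
    exact Finset.sum_congr rfl fun i _ => mul_add _ _ _
  rw [hsplit]
  have h1 : ∑ i ∈ range (ℓ * n), ((Q.eval (i + 1) : ℕ) : ℝ) * (1 / 2) ^ (i / M) ≤ 2 * C := by
    refine (Finset.sum_le_sum fun i _ => hA i).trans ?_
    rw [← Finset.mul_sum]
    have h2 := sum_inv_sq_le (ℓ * n)
    have h3 : (0 : ℝ) ≤ 1 / ((ℓ * n : ℕ) : ℝ) := by positivity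
    have h4 : (0 : ℝ) ≤ C := by positivity
    nlinarith
  linarith

end Pool.Agent.H45R3.MB
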