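import Pool.Agent.H45R3.MB.TM2Out
import Pool.Agent.H45R3.MB.ExpDecay

/-!
# The case of exponential growth
-/

namespace Pool.Agent.H45R3.MB

open Finset Pool.Agent.H45R3.AC
open Pool.Agent.H656R2.NPC (Cmd Runs inp)

theorem conj_group {I ι : Type} (cs : List ι) (P : ι → List I → Prop)
    (h : ∀ c ∈ cs, ∃ (H : Type) (_ : Group H) (_ : Finite H) (g : I → H),
      ∀ w : List I, ev g w = 1 ↔ P c w) :
    ∃ (H : Type) (_ : Group H) (_ : Finite H) (g : I → H),
      ∀ w : List I, ev g w = 1 ↔ ∀ c ∈ cs, P c w := by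
  induction cs with
  | nil =>
    exact ⟨Unit, inferInstance, inferInstance, fun _ => 1, fun w => by simp⟩
  | cons c cs ih =>
    obtain ⟨H, iH, fH, g, hg⟩ := h c (by simp)
    obtain ⟨H', iH', fH', g', hg'⟩ := ih fun c hc => h c (by simp [hc])
    refine ⟨H × H', inferInstance, inferInstance, fun a => (g a, g' a), fun w => ?_⟩
    have h1 : ev (fun a => (g a, g' a)) w = (ev g w, ev g' w) := by
      induction w with
      | nil => rfl
      | cons a w ih =>
        have e1 : ev (fun a => (g a, g' a)) (a :: w) = (g a, g' a) *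
          ev (fun a => (g a, g' a)) w := by simp [ev]
        rw [e1, ih]
        simp [ev]
    rw [h1, Prod.mk_eq_one, hg, hg']
    simp

/-- The letters. -/
def lt {G : Type} [Group G] {m : ℕ} (f : Fin m → G) (a : Fin m × Bool) : G :=
  bif a.2 then f a.1 else (f a.1)⁻¹

/-- The inverse letter. -/
def bar {m : ℕ} (a : Fin m × Bool) : Fin m × Bool := (a.1, !a.2)

theorem lt_bar {G : Type} [Group G] {m : ℕ} (f : Fin m → G) (a : Fin m × Bool) :
    lt f (bar a) = (lt f a)⁻¹ := by
  obtain ⟨i, b⟩ := a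
  cases b <;> simp [lt, bar]

theorem wordVal_eq {G : Type} [Group G] {m : ℕ} (f : Fin m → G) (w : List (Fin m × Bool)) :
    wordVal f w = ev (lt f) w := rfl

open Classical in
theorem case_two {G : Type} [Group G] {m : ℕ} (hm : 0 < m) (f : Fin m → G)
    (cs : List (CompData (Fin m × Bool))) (hcs : ∀ w, ev (lt f) w = 1 ↔ ∀ c ∈ cs, c.triv w)
    (L : ℕ) (hL : 1 ≤ L)
    (hgrow : ∀ r : ℕ, ∃ W : Finset (List ((Fin m × Bool) × (Fin m × Bool))),
      (∀ w ∈ W, w.length = r) ∧ Set.InjOn (pev (lt f)) (W : Set _) ∧ 2 ^ (r / L) ≤ W.card) :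
    ∃ (time : List (Fin m × Bool) → ℕ) (C : ℕ), Dec2 (fun w => ev (lt f) w = 1) time ∧
      ∀ n : ℕ, ∑ v : Fin n → Fin m × Bool, time (List.ofFn v) ≤ C * (n + 1) * (2 * m) ^ n := by
  have hne : Nonempty (Fin m × Bool) := ⟨(⟨0, hm⟩, true)⟩
  have hbd : ∀ c : CompData (Fin m × Bool), ∃ b : ℕ, 1 ≤ b ∧
    (∀ l k, c.ty l = some k → k ≤ b) ∧ ∀ (i : ℕ) (w : List (Fin m × Bool)), w.length ≤ i →
      c.acc (b * (i + 1) + 1) (b * (i + 2)) w → c.triv w := fun c => c.triv_of_acc
  choose b hb1 hb2 hb3 using hbd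
  let acc : ℕ → List (Fin m × Bool) → Prop := fun i w =>
    ∀ c ∈ cs, c.acc (b c * (i + 1) + 1) (b c * (i + 2)) w
  have hT : Tester acc := Tester.list cs
    (fun c i w => c.acc (b c * (i + 1) + 1) (b c * (i + 2)) w)
    fun c _ => c.tester (b c) (hb1 c) (hb2 c)
  have hhom : ∀ i w, ev (lt f) w = 1 → acc i w := fun i w hw c hc =>
    c.acc_of_triv _ _ w ((hcs w).1 hw c hc)
  have hinj : ∀ i (w : List (Fin m × Bool)), w.length ≤ i → acc i w → ev (lt f) w = 1 :=
    fun i w hw h => (hcs w).2 fun c hc => hb3 c i w hw (h c hc)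
  have hbar : ∀ a, ev (lt f) [a, bar a] = 1 := by
    intro a
    simp [ev, lt_bar]
  have hgroup : ∀ i, ∃ (H : Type) (_ : Group H) (_ : Finite H) (g : Fin m × Bool → H),
      ∀ w : List (Fin m × Bool), ev g w = 1 ↔ acc i w := by
    intro i
    refine conj_group cs (fun c w => c.acc (b c * (i + 1) + 1) (b c * (i + 2)) w) ?_
    intro c hc
    refine c.acc_group _ _ ?_ bar (fun a => (hcs _).1 (hbar a) c hc)
    intro l k hk
    have h1 := hb2 c l k hk
    have h2 : b c * 1 ≤ b c * (i + 2) := Nat.mul_le_mul_left _ (by omega)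
    omega
  obtain ⟨C1, hC10, hC1⟩ := ret_bound (I := Fin m × Bool) 4 L hL
  have hcard : (Fintype.card (Fin m × Bool) : ℝ) = 2 * m := by
    simp [mul_comm]
  -- the number of accepted words
  have hcount : ∀ i n : ℕ, ((univ.filter fun v : Fin n → Fin m × Bool =>
      acc i (List.ofFn v)).card : ℝ) ≤
      (2 * m) ^ n * (C1 * ((1 / 2) ^ (i / (4 * L)) + (1 / 2) ^ (Nat.sqrt (Nat.sqrt n)))) := by
    intro i n
    obtain ⟨H, iH, fH, g, hg⟩ := hgroup i
    have : Fintype H := Fintype.ofFinite H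
    have hginv : ∀ a, g (bar a) = (g a)⁻¹ := by
      intro a
      have h1 := (hg [a, bar a]).2 (hhom i _ (hbar a))
      have h2 : g a * g (bar a) = 1 := by simpa [ev] using h1
      exact (inv_eq_of_mul_eq_one_right h2).symm
    have h1 := hC1 H g i (by
      intro r hr
      obtain ⟨W, hW1, hW2, hW3⟩ := hgrow r
      have hinjW : Set.InjOn (pev g) (W : Set _) := by
        intro w1 hw1 w2 hw2 h12
        apply hW2 hw1 hw2
        rw [← ev_unpair (lt f) bar (lt_bar f), ← ev_unpair (lt f) bar (lt_bar f)]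
        rw [← ev_unpair g bar hginv, ← ev_unpair g bar hginv] at h12
        have h3 : ev g (unpair bar w1 ++ ((unpair bar w2).map bar).reverse) = 1 := by
          rw [ev_append, ev_inv_word g bar hginv, h12, mul_inv_cancel]
        have h4 := hinj i _ (by
          rw [List.length_append, List.length_reverse, List.length_map, unpair_length,
            unpair_length, hW1 w1 hw1, hW1 w2 hw2]
          omega) ((hg _).1 h3)
        rw [ev_append, ev_inv_word (lt f) bar (lt_bar f)] at h4
        exact mul_inv_eq_one.1 h4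
      refine ⟨W.image (pev g), ?_, ?_, ?_⟩
      · have h5 : 0 < W.card := lt_of_lt_of_le (by positivity) hW3
        exact (Finset.card_pos.1 h5).image _
      · intro h hh
        rw [Finset.mem_image] at hh
        obtain ⟨w, hw, rfl⟩ := hh
        exact ⟨w, hW1 w hw, rfl⟩
      · rw [Finset.card_image_of_injOn hinjW]
        exact hW3) n 1
    have h2 := card_words g n (1 : H)
    rw [hcard] at h2
    have h3 : (univ.filter fun v : Fin n → Fin m × Bool => acc i (List.ofFn v)) =
        (univ.filter fun v : Fin n → Fin m × Bool => (List.ofFn fun k => g (v k)).prod = 1) := by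
      apply Finset.filter_congr
      intro v _
      rw [← hg]
      unfold ev
      rw [List.map_ofFn]
      rfl
    rw [h3, h2]
    exact mul_le_mul_of_nonneg_left h1 (by positivity)
  obtain ⟨c, Q, hc⟩ := main_prog hT
  set ℓ := 6 * Fintype.card (Fin m × Bool) + 1 with hℓ
  let tm : List (Fin m × Bool) → ℕ := fun w => (w.length + 1) * (Q.eval 0 +
        ∑ j ∈ Finset.range (ℓ * w.length + 1),
          if ∀ j' < j, acc j' w then Q.eval j else 0)
  have hdec : Dec2 (fun w => ev (lt f) w = 1) (fun w => w.length + 2 + tm w) := by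
    apply dec2_of_cmd (fun w => ev (lt f) w = 1) blk ℓ (fun a => blk_length a) c 5 tm
    intro w
    obtain ⟨s', h1, h2⟩ := hc w
    refine ⟨s', ?_, h2.trans ?_⟩
    · simp only [tm]
      convert h1
    constructor
    · intro h
      refine hinj (ℓ * w.length) w ?_ (h _ (by omega))
      have : 1 * w.length ≤ ℓ * w.length := Nat.mul_le_mul_right _ (by omega)
      omega
    · intro h j _
      exact hhom j w h
  obtain ⟨C2, hC20, hC2⟩ := sum_bound Q (4 * L) ℓ (by omega)
  obtain ⟨C3, hC3⟩ := exists_nat_ge (C1 * C2)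
  refine ⟨fun w => w.length + 2 + tm w, 2 + 2 * Q.eval 0 + C3, hdec, fun n => ?_⟩
  -- the sum
  have hreal : (∑ v : Fin n → Fin m × Bool, (Q.eval 0 +
        ∑ j ∈ Finset.range (ℓ * n + 1),
          if ∀ j' < j, acc j' (List.ofFn v) then Q.eval j else 0 : ℕ)) ≤
      (2 * Q.eval 0 + C3) * (2 * m) ^ n := by
    have h0 : ∀ v : Fin n → Fin m × Bool, (Q.eval 0 +
        ∑ j ∈ Finset.range (ℓ * n + 1),
          if ∀ j' < j, acc j' (List.ofFn v) then Q.eval j else 0) ≤
        2 * Q.eval 0 + ∑ i ∈ Finset.range (ℓ * n),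
          Q.eval (i + 1) * (if acc i (List.ofFn v) then 1 else 0) := by
      intro v
      rw [Finset.sum_range_succ']
      have h1 : (∑ j ∈ Finset.range (ℓ * n), if ∀ j' < j + 1, acc j' (List.ofFn v) then
          Q.eval (j + 1) else 0) ≤ ∑ i ∈ Finset.range (ℓ * n),
          Q.eval (i + 1) * (if acc i (List.ofFn v) then 1 else 0) := by
        refine Finset.sum_le_sum fun j _ => ?_
        split_ifs with h2 h3 h3
        · simp
        · exact absurd (h2 j (by omega)) h3
        · exact Nat.zero_le _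
        · simp
      have hle : ∀ (p : Prop) [Decidable p] (x : ℕ), (if p then x else 0) ≤ x := by
        intro p _ x
        split_ifs <;> omega
      refine (Nat.add_le_add_left (Nat.add_le_add h1 (hle _ _)) _).trans ?_
      omega
    refine (Finset.sum_le_sum fun v _ => h0 v).trans ?_
    have h1 : ((∑ v : Fin n → Fin m × Bool, (2 * Q.eval 0 + ∑ i ∈ Finset.range (ℓ * n),
          Q.eval (i + 1) * (if acc i (List.ofFn v) then 1 else 0)) : ℕ) : ℝ) ≤
        (((2 * Q.eval 0 + C3) * (2 * m) ^ n : ℕ) : ℝ) := by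
      push_cast
      rw [Finset.sum_add_distrib, Finset.sum_const, Finset.card_univ, Fintype.card_fun,
        Fintype.card_fin, nsmul_eq_mul, Finset.sum_comm]
      have h2 : ∀ i ∈ Finset.range (ℓ * n), (∑ v : Fin n → Fin m × Bool,
          ((Q.eval (i + 1) : ℕ) : ℝ) * (if acc i (List.ofFn v) then (1 : ℝ) else 0)) ≤
          (2 * m) ^ n * (C1 * (((Q.eval (i + 1) : ℕ) : ℝ) *
            ((1 / 2) ^ (i / (4 * L)) + (1 / 2) ^ (Nat.sqrt (Nat.sqrt n))))) := by
        intro i _
        rw [← Finset.mul_sum, Finset.sum_boole]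
        have h3 := mul_le_mul_of_nonneg_left (hcount i n)
          (show (0 : ℝ) ≤ ((Q.eval (i + 1) : ℕ) : ℝ) by positivity)
        refine h3.trans (le_of_eq ?_)
        ring
      have h3 := Finset.sum_le_sum h2
      rw [← Finset.mul_sum, ← Finset.mul_sum] at h3
      have h4 : C1 * ∑ i ∈ Finset.range (ℓ * n), (((Q.eval (i + 1) : ℕ) : ℝ) *
            ((1 / 2) ^ (i / (4 * L)) + (1 / 2) ^ (Nat.sqrt (Nat.sqrt n)))) ≤ C3 :=
        (mul_le_mul_of_nonneg_left (hC2 n) hC10).trans hC3
      have h5 : ((2 : ℝ) * m) ^ n * (C1 * ∑ i ∈ Finset.range (ℓ * n),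
          (((Q.eval (i + 1) : ℕ) : ℝ) *
            ((1 / 2) ^ (i / (4 * L)) + (1 / 2) ^ (Nat.sqrt (Nat.sqrt n))))) ≤
          (2 * m) ^ n * C3 := mul_le_mul_of_nonneg_left h4 (by positivity)
      push_cast
      rw [hcard]
      linarith
    exact_mod_cast h1
  have hlen : ∀ v : Fin n → Fin m × Bool, (List.ofFn v).length = n := fun v => by simp
  have hcardN : Fintype.card (Fin n → Fin m × Bool) = (2 * m) ^ n := by
    simp [mul_comm]
  calc ∑ v : Fin n → Fin m × Bool, ((List.ofFn v).length + 2 + tm (List.ofFn v))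
      = ∑ v : Fin n → Fin m × Bool, ((n + 2) + (n + 1) * (Q.eval 0 +
        ∑ j ∈ Finset.range (ℓ * n + 1),
          if ∀ j' < j, acc j' (List.ofFn v) then Q.eval j else 0)) := by
        refine Finset.sum_congr rfl fun v _ => ?_
        simp only [tm, hlen]
    _ = (n + 2) * (2 * m) ^ n + (n + 1) * ∑ v : Fin n → Fin m × Bool, (Q.eval 0 +
        ∑ j ∈ Finset.range (ℓ * n + 1),
          if ∀ j' < j, acc j' (List.ofFn v) then Q.eval j else 0) := by
        rw [Finset.sum_add_distrib, Finset.sum_const, Finset.card_univ, hcardN, smul_eq_mul,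
          ← Finset.mul_sum]
        ring
    _ ≤ (n + 2) * (2 * m) ^ n + (n + 1) * ((2 * Q.eval 0 + C3) * (2 * m) ^ n) :=
        Nat.add_le_add_left (Nat.mul_le_mul_left _ hreal) _
    _ ≤ (2 + 2 * Q.eval 0 + C3) * (n + 1) * (2 * m) ^ n := by
        nlinarith [Nat.zero_le (n * (2 * m) ^ n)]

end Pool.Agent.H45R3.MB
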