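import Mathlib

/-!
# Finitely generated submodules stable under commuting locally finite endomorphisms
-/

namespace Pool.Agent.H45R3.MB

open Submodule

variable {R M : Type*} [CommRing R] [AddCommGroup M] [Module R M]

/-- The orbit of every vector under powers of `T` spans a finitely generated submodule. -/
def LocFin (T : Module.End R M) : Prop :=
  ∀ v : M, (span R (Set.range fun k : ℕ => (T ^ k) v)).FG

theorem iSup_pow_fg {T : Module.End R M} (hT : LocFin T) {N : Submodule R M} (hN : N.FG) :
    (⨆ k : ℕ, N.map (T ^ k)).FG := by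
  classical
  obtain ⟨s, rfl⟩ := hN
  have e : (⨆ k : ℕ, (span R (s : Set M)).map (T ^ k)) =
      s.sup (fun v => span R (Set.range fun k : ℕ => (T ^ k) v)) := by
    apply le_antisymm
    · refine iSup_le fun k => ?_
      rw [map_span, span_le]
      rintro _ ⟨v, hv, rfl⟩
      have h1 : span R (Set.range fun k : ℕ => (T ^ k) v) ≤
          s.sup (fun v => span R (Set.range fun k : ℕ => (T ^ k) v)) :=
        Finset.le_sup (f := fun v => span R (Set.range fun k : ℕ => (T ^ k) v)) hv
      exact h1 (subset_span ⟨k, rfl⟩)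
    · refine Finset.sup_le fun v hv => ?_
      rw [span_le]
      rintro _ ⟨k, rfl⟩
      exact (le_iSup (fun k : ℕ => (span R (s : Set M)).map (T ^ k)) k)
        (mem_map_of_mem (subset_span hv))
  rw [e]
  exact Submodule.fg_finset_sup s _ fun v _ => hT v

theorem close_finset {ι : Type*} (T : ι → Module.End R M)
    (hc : ∀ i j, Commute (T i) (T j)) (hT : ∀ i, LocFin (T i)) (N : Submodule R M) (hN : N.FG)
    (F : Finset ι) : ∃ N' : Submodule R M, N ≤ N' ∧ N'.FG ∧ ∀ i ∈ F, ∀ v ∈ N', T i v ∈ N' := by
  classical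
  induction F using Finset.induction_on with
  | empty => exact ⟨N, le_rfl, hN, by simp⟩
  | insert i F hi ih =>
    obtain ⟨N', h1, h2, h3⟩ := ih
    refine ⟨⨆ k : ℕ, N'.map (T i ^ k), ?_, iSup_pow_fg (hT i) h2, ?_⟩
    · refine h1.trans ?_
      intro v hv
      exact (le_iSup (fun k : ℕ => N'.map (T i ^ k)) 0) ⟨v, hv, by rw [pow_zero]; rfl⟩
    · intro j hj v hv
      rw [Finset.mem_insert] at hj
      have key : (⨆ k : ℕ, N'.map (T i ^ k)) ≤
          (⨆ k : ℕ, N'.map (T i ^ k)).comap (T j) := by
        refine iSup_le fun k => ?_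
        rintro _ ⟨u, hu, rfl⟩
        rw [mem_comap]
        rcases hj with rfl | hj
        · refine (le_iSup (fun k : ℕ => N'.map (T j ^ k)) (k + 1)) ⟨u, hu, ?_⟩
          rw [pow_succ']
          rfl
        · refine (le_iSup (fun k : ℕ => N'.map (T i ^ k)) k) ⟨T j u, h3 j hj u hu, ?_⟩
          have h4 : Commute (T i ^ k) (T j) := (hc i j).pow_left k
          exact congrArg (fun S : Module.End R M => S u) h4.eq
      exact key hv

theorem close {ι : Type*} [Finite ι] (T : ι → Module.End R M)
    (hc : ∀ i j, Commute (T i) (T j)) (hT : ∀ i, LocFin (T i)) (N : Submodule R M) (hN : N.FG) :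
    ∃ N' : Submodule R M, N ≤ N' ∧ N'.FG ∧ ∀ i, ∀ v ∈ N', T i v ∈ N' := by
  cases nonempty_fintype ι
  obtain ⟨N', h1, h2, h3⟩ := close_finset T hc hT N hN Finset.univ
  exact ⟨N', h1, h2, fun i => h3 i (Finset.mem_univ i)⟩

/-- If some vector `T ^ n v` is a combination of the earlier ones then the orbit spans a finitely
generated submodule. -/
theorem span_orbit_fg {T : Module.End R M} {v : M} {n : ℕ}
    (h : (T ^ n) v ∈ span R (Set.range fun k : Fin n => (T ^ (k : ℕ)) v)) :
    (span R (Set.range fun k : ℕ => (T ^ k) v)).FG := by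
  set N := span R (Set.range fun k : Fin n => (T ^ (k : ℕ)) v) with hN
  have hst : ∀ u ∈ N, T u ∈ N := by
    intro u hu
    induction hu using Submodule.span_induction with
    | mem x hx =>
      obtain ⟨k, rfl⟩ := hx
      have e : T ((T ^ (k : ℕ)) v) = (T ^ ((k : ℕ) + 1)) v := by rw [pow_succ']; rfl
      change T ((T ^ (k : ℕ)) v) ∈ N
      rw [e]
      by_cases hk : (k : ℕ) + 1 < n
      · exact subset_span ⟨⟨(k : ℕ) + 1, hk⟩, rfl⟩
      · have : (k : ℕ) + 1 = n := by omega
        rw [this]; exact h
    | zero => simp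
    | add x y _ _ hx hy => rw [map_add]; exact add_mem hx hy
    | smul a x _ hx => rw [map_smul]; exact smul_mem _ _ hx
  have hall : ∀ k : ℕ, (T ^ k) v ∈ N := by
    rcases Nat.eq_zero_or_pos n with h0 | h0
    · subst h0
      intro k
      have hv : v = 0 := by
        have : Set.range (fun k : Fin 0 => (T ^ (k : ℕ)) v) = ∅ := Set.range_eq_empty _
        rw [hN, this, span_empty] at h
        simpa using h
      rw [hv, map_zero]
      exact zero_mem _
    · intro k
      induction k with
      | zero => exact subset_span ⟨⟨0, h0⟩, rfl⟩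
      | succ k ih =>
        have e : (T ^ (k + 1)) v = T ((T ^ k) v) := by rw [pow_succ']; rfl
        rw [e]
        exact hst _ ih
  have : span R (Set.range fun k : ℕ => (T ^ k) v) = N := by
    apply le_antisymm
    · rw [span_le]
      rintro _ ⟨k, rfl⟩
      exact hall k
    · rw [hN, span_le]
      rintro _ ⟨k, rfl⟩
      exact subset_span ⟨(k : ℕ), rfl⟩
  rw [this]
  exact fg_span (Set.finite_range _)

end Pool.Agent.H45R3.MB
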