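import Pool.Agent.H45R3.MB.Close
import Pool.Agent.H45R3.AC.Order

/-!
# Exponential growth of metabelian groups whose derived subgroup is not finitely generated
-/

namespace Pool.Agent.H45R3.MB

open Pool.Agent.H45R3.AC
open scoped IsMulCommutative commutatorElement

section

variable {G : Type} [Group G] [IsMulCommutative (commutator G)]

/-- Conjugation on the derived subgroup, additively. -/
def cj (g : G) : Additive (commutator G) →ₗ[ℤ] Additive (commutator G) :=
  AddMonoidHom.toIntLinearMap
    { toFun := fun a => Additive.ofMul ⟨g * (a.toMul : G) * g⁻¹,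
        (inferInstance : (commutator G).Normal).conj_mem _ a.toMul.2 g⟩
      map_zero' := by
        apply Additive.toMul.injective
        apply Subtype.ext
        simp
      map_add' := fun a b => by
        apply Additive.toMul.injective
        apply Subtype.ext
        simp }

theorem cj_coe (g : G) (a : Additive (commutator G)) :
    (((cj g a).toMul : commutator G) : G) = g * (a.toMul : G) * g⁻¹ := rfl

theorem add_ext {a b : Additive (commutator G)} (h : ((a.toMul : commutator G) : G) = b.toMul) :
    a = b := Additive.toMul.injective (Subtype.ext h)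

theorem comm_mul (x y : G) (hx : x ∈ commutator G) (hy : y ∈ commutator G) : x * y = y * x := by
  have h := mul_comm (⟨x, hx⟩ : commutator G) ⟨y, hy⟩
  exact congrArg Subtype.val h

theorem cj_mul (g h : G) : cj (g * h) = cj g * cj h := by
  apply LinearMap.ext
  intro a
  apply add_ext
  rw [Module.End.mul_apply, cj_coe, cj_coe, cj_coe]
  group

theorem cj_comm (g h : G) : Commute (cj g) (cj h) := by
  apply LinearMap.ext
  intro a
  apply add_ext
  rw [Module.End.mul_apply, Module.End.mul_apply, cj_coe, cj_coe, cj_coe, cj_coe]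
  have h1 : ⁅h⁻¹, g⁻¹⁆ ∈ commutator G := by
    rw [commutator_def]
    exact Subgroup.commutator_mem_commutator (Subgroup.mem_top _) (Subgroup.mem_top _)
  have h2 := comm_mul _ _ h1 a.toMul.2
  set x : G := ((a.toMul : commutator G) : G)
  rw [commutatorElement_def] at h2
  have h3 : g * (h * x * h⁻¹) * g⁻¹ = g * h * x * (h⁻¹ * g⁻¹) := by group
  have h4 : h * (g * x * g⁻¹) * h⁻¹ = g * h * ((h⁻¹ * g⁻¹ * h⁻¹⁻¹ * g⁻¹⁻¹) * x) *
      (g⁻¹ * h⁻¹) := by group
  rw [h3, h4, h2]
  group

variable {I : Type} [Finite I] (γ : I → G) (inv : I → I)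

/-- If all conjugations by letters are locally finite then the derived subgroup is finitely
generated. -/
theorem fg_of_locFin (hinv : ∀ i, γ (inv i) = (γ i)⁻¹)
    (hgen : Subgroup.closure (Set.range γ) = ⊤) (h : ∀ a, LocFin (cj (γ a))) :
    Module.Finite ℤ (Additive (commutator G)) := by
  have hcm : ∀ g k : G, ⁅g, k⁆ ∈ commutator G := fun g k => by
    rw [commutator_def]
    exact Subgroup.commutator_mem_commutator (Subgroup.mem_top _) (Subgroup.mem_top _)
  obtain ⟨N, h1, h2, h3⟩ := close (fun a => cj (γ a)) (fun a b => cj_comm _ _) h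
    (Submodule.span ℤ (Set.range fun p : I × I =>
      (Additive.ofMul ⟨⁅γ p.1, γ p.2⁆, hcm _ _⟩ : Additive (commutator G))))
    (Submodule.fg_span (Set.finite_range _))
  -- the corresponding subset of `G`
  let B : Set G := {x | ∃ hx : x ∈ commutator G, (Additive.ofMul ⟨x, hx⟩ :
    Additive (commutator G)) ∈ N}
  have hBmul : ∀ x y, x ∈ B → y ∈ B → x * y ∈ B := by
    rintro x y ⟨hx, hx'⟩ ⟨hy, hy'⟩
    exact ⟨mul_mem hx hy, N.add_mem hx' hy'⟩
  have hBconj : ∀ (w : List I) (x : G), x ∈ B → ev γ w * x * (ev γ w)⁻¹ ∈ B := by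
    intro w
    induction w with
    | nil => intro x hx; simpa [ev] using hx
    | cons a w ih =>
      intro x hx
      obtain ⟨hy, hy'⟩ := ih x hx
      have h4 := h3 a _ hy'
      have h5 : ev γ (a :: w) * x * (ev γ (a :: w))⁻¹ =
          γ a * (ev γ w * x * (ev γ w)⁻¹) * (γ a)⁻¹ := by
        have : ev γ (a :: w) = γ a * ev γ w := by simp [ev]
        rw [this]
        group
      rw [h5]
      exact ⟨_, h4⟩
  have hBone : (1 : G) ∈ B := ⟨one_mem _, N.zero_mem⟩
  have hB1 : ∀ (b : I) (w : List I), ⁅ev γ w, γ b⁆ ∈ B := by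
    intro b w
    induction w with
    | nil => simpa [ev] using hBone
    | cons a w ih =>
      have e : ⁅ev γ (a :: w), γ b⁆ = (ev γ [a] * ⁅ev γ w, γ b⁆ * (ev γ [a])⁻¹) * ⁅γ a, γ b⁆ := by
        have e1 : ev γ (a :: w) = γ a * ev γ w := by simp [ev]
        have e2 : ev γ [a] = γ a := by simp [ev]
        rw [e1, e2]
        simp only [commutatorElement_def]
        group
      rw [e]
      refine hBmul _ _ (hBconj _ _ ih) ⟨hcm _ _, h1 (Submodule.subset_span ⟨(a, b), rfl⟩)⟩
  have hB2 : ∀ (v w : List I), ⁅ev γ v, ev γ w⁆ ∈ B := by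
    intro v w
    induction w with
    | nil => simpa [ev] using hBone
    | cons b w ih =>
      have e : ⁅ev γ v, ev γ (b :: w)⁆ =
          ⁅ev γ v, γ b⁆ * (ev γ [b] * ⁅ev γ v, ev γ w⁆ * (ev γ [b])⁻¹) := by
        have e1 : ev γ (b :: w) = γ b * ev γ w := by simp [ev]
        have e2 : ev γ [b] = γ b := by simp [ev]
        rw [e1, e2]
        simp only [commutatorElement_def]
        group
      rw [e]
      exact hBmul _ _ (hB1 b v) (hBconj _ _ ih)
  have hlist : ∀ g : G, ∃ w : List I, ev γ w = g := fun g =>
    exists_list_ev γ inv hinv g (by rw [hgen]; trivial)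
  have hBinv : ∀ x, x ∈ B → x⁻¹ ∈ B := by
    rintro x ⟨hx, hx'⟩
    exact ⟨inv_mem hx, N.neg_mem hx'⟩
  let BS : Subgroup G := ⟨⟨⟨B, fun {x y} => hBmul x y⟩, hBone⟩, fun {x} => hBinv x⟩
  have hle : commutator G ≤ BS := by
    rw [commutator_def, Subgroup.commutator_le]
    intro g _ k _
    obtain ⟨v, rfl⟩ := hlist g
    obtain ⟨w, rfl⟩ := hlist k
    exact hB2 v w
  have htop : N = ⊤ := by
    rw [eq_top_iff]
    intro a _
    obtain ⟨hx, hx'⟩ := hle a.toMul.2
    exact hx'
  exact ⟨by rw [← htop]; exact h2⟩

/-- Sums along a list of booleans. -/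
def val (S : Module.End ℤ (Additive (commutator G))) (v : Additive (commutator G)) :
    List Bool → Additive (commutator G)
  | [] => 0
  | b :: l => (if b then v else 0) + S (val S v l)

theorem val_diff (S : Module.End ℤ (Additive (commutator G))) (v : Additive (commutator G)) :
    ∀ l l' : List Bool, l.length = l'.length → l ≠ l' → ∃ K : ℕ, ∃ u ∈ Submodule.span ℤ
      (Set.range fun k : Fin K => (S ^ (k : ℕ)) v), ∃ e : ℤ, (e = 1 ∨ e = -1) ∧
      val S v l - val S v l' = e • (S ^ K) v + u
  | [], [], _, h => absurd rfl h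
  | [], _ :: _, h, _ => by simp at h
  | _ :: _, [], h, _ => by simp at h
  | b :: l, b' :: l', hl, hne => by
    by_cases hll : l = l'
    · subst hll
      have hb : b ≠ b' := fun h => hne (by rw [h])
      refine ⟨0, 0, Submodule.zero_mem _, if b then 1 else -1, ?_, ?_⟩
      · split_ifs
        · exact Or.inl rfl
        · exact Or.inr rfl
      · cases b <;> cases b' <;> simp_all [val]
    · obtain ⟨K, u, hu, e, he, heq⟩ := val_diff S v l l' (by simpa using hl) hll
      refine ⟨K + 1, ((if b then v else 0) - (if b' then v else 0)) + S u, ?_, e, he, ?_⟩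
      · have hv : v ∈ Submodule.span ℤ (Set.range fun k : Fin (K + 1) => (S ^ (k : ℕ)) v) :=
          Submodule.subset_span ⟨0, by simp⟩
        refine Submodule.add_mem _ (Submodule.sub_mem _ ?_ ?_) ?_
        · split_ifs
          · exact hv
          · exact Submodule.zero_mem _
        · split_ifs
          · exact hv
          · exact Submodule.zero_mem _
        · have hmap : (Submodule.span ℤ (Set.range fun k : Fin K => (S ^ (k : ℕ)) v)) ≤
              (Submodule.span ℤ (Set.range fun k : Fin (K + 1) => (S ^ (k : ℕ)) v)).comap S := by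
            rw [Submodule.span_le]
            rintro _ ⟨k, rfl⟩
            refine Submodule.subset_span ⟨k.succ, ?_⟩
            change (S ^ ((k.succ : Fin (K + 1)) : ℕ)) v = S ((S ^ (k : ℕ)) v)
            rw [Fin.val_succ, pow_succ']
            rfl
          exact hmap hu
      · have e1 : val S v (b :: l) - val S v (b' :: l') =
            ((if b then v else 0) - (if b' then v else 0)) + S (val S v l - val S v l') := by
          rw [map_sub]
          simp only [val]
          abel
        rw [e1, heq, map_add, map_zsmul, pow_succ' S K, Module.End.mul_apply]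
        abel

/-- The group element of a list of booleans. -/
def PP (y v : G) : List Bool → G
  | [] => 1
  | b :: l => (if b then v else 1) * y * PP y v l

theorem PP_eq (y : G) (v : Additive (commutator G)) : ∀ l : List Bool,
    PP y (v.toMul : commutator G) l = ((val (cj y) v l).toMul : commutator G) * y ^ l.length
  | [] => by simp [PP, val]
  | b :: l => by
    have ih := PP_eq y v l
    have h1 : ((val (cj y) v (b :: l)).toMul : G) =
        (if b then ((v.toMul : commutator G) : G) else 1) *
          (y * ((val (cj y) v l).toMul : G) * y⁻¹) := by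
      cases b <;> rfl
    rw [PP, ih, h1, List.length_cons, pow_succ']
    group

theorem PP_inj (y : G) (v : Additive (commutator G))
    (h : ¬ (Submodule.span ℤ (Set.range fun k : ℕ => (cj y ^ k) v)).FG) (l l' : List Bool)
    (hl : l.length = l'.length) (he : PP y (v.toMul : commutator G) l =
      PP y (v.toMul : commutator G) l') : l = l' := by
  by_contra hne
  rw [PP_eq, PP_eq, hl] at he
  have h1 : val (cj y) v l = val (cj y) v l' := add_ext (mul_right_cancel he)
  obtain ⟨K, u, hu, e, hee, heq⟩ := val_diff (cj y) v l l' hl hne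
  rw [h1, sub_self] at heq
  apply h
  apply span_orbit_fg (n := K)
  have h2 : e • (cj y ^ K) v ∈ Submodule.span ℤ
      (Set.range fun k : Fin K => (cj y ^ (k : ℕ)) v) := by
    have : e • (cj y ^ K) v = -u := eq_neg_of_add_eq_zero_left heq.symm
    rw [this]
    exact Submodule.neg_mem _ hu
  rcases hee with rfl | rfl
  · simpa using h2
  · simpa using h2

end

/-- Elements of the derived subgroup are values of words of pairs. -/
theorem exists_pev_commutator {G : Type} [Group G] {I : Type} (γ : I → G) (inv : I → I)
    (hinv : ∀ i, γ (inv i) = (γ i)⁻¹) (hgen : Subgroup.closure (Set.range γ) = ⊤) (v : G)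
    (hv : v ∈ commutator G) : ∃ w : List (I × I), pev γ w = v := by
  have hlist : ∀ g : G, ∃ w : List I, ev γ w = g := fun g =>
    exists_list_ev γ inv hinv g (by rw [hgen]; trivial)
  rw [commutator_eq_closure] at hv
  induction hv using Subgroup.closure_induction with
  | mem x hx =>
    obtain ⟨g, k, rfl⟩ := hx
    obtain ⟨a, rfl⟩ := hlist g
    obtain ⟨b, rfl⟩ := hlist k
    obtain ⟨w, _, hw⟩ := pev_of_even γ inv hinv (a.length + b.length)
      (a ++ (b ++ ((a.map inv).reverse ++ (b.map inv).reverse))) (by simp; omega)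
    refine ⟨w, ?_⟩
    rw [hw, ev_append, ev_append, ev_append, ev_inv_word γ inv hinv, ev_inv_word γ inv hinv,
      commutatorElement_def]
    group
  | one => exact ⟨[], rfl⟩
  | mul x y _ _ hx hy =>
    obtain ⟨a, rfl⟩ := hx
    obtain ⟨b, rfl⟩ := hy
    exact ⟨a ++ b, pev_append γ a b⟩
  | inv x _ hx =>
    obtain ⟨a, rfl⟩ := hx
    have key : ∀ a : List (I × I), pev γ (a.map fun p => (p.2, p.1)).reverse =
        (pev γ a)⁻¹ := by
      intro a
      induction a with
      | nil => simp [pev]
      | cons p a ih =>
        rw [List.map_cons, List.reverse_cons, pev_append, ih, pev_cons γ p a, mul_inv_rev]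
        simp [pev]
    exact ⟨(a.map fun p => (p.2, p.1)).reverse, key a⟩

theorem growth_exp {G : Type} [Group G] [IsMulCommutative (commutator G)] {I : Type} [Finite I]
    (γ : I → G) (inv : I → I) (hinv : ∀ i, γ (inv i) = (γ i)⁻¹)
    (hgen : Subgroup.closure (Set.range γ) = ⊤)
    (hA : ¬ Module.Finite ℤ (Additive (commutator G))) :
    ∃ L : ℕ, 1 ≤ L ∧ ∀ r : ℕ, ∃ W : Finset (List (I × I)), (∀ w ∈ W, w.length = r) ∧
      Set.InjOn (pev γ) (W : Set _) ∧ 2 ^ (r / L) ≤ W.card := by
  classical
  obtain ⟨a, ha⟩ : ∃ a, ¬ LocFin (cj (γ a)) := by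
    by_contra hcon
    push Not at hcon
    exact hA (fg_of_locFin γ inv hinv hgen hcon)
  unfold LocFin at ha
  push Not at ha
  obtain ⟨v, hv⟩ := ha
  set y := γ a * γ a with hy
  have hv2 : ¬ (Submodule.span ℤ (Set.range fun k : ℕ => (cj y ^ k) v)).FG := by
    intro hfg
    apply hv
    have e1 : cj y = cj (γ a) ^ 2 := by rw [hy, cj_mul, pow_two]
    have e2 : Submodule.span ℤ (Set.range fun k : ℕ => (cj (γ a) ^ k) v) =
        Submodule.span ℤ (Set.range fun k : ℕ => (cj y ^ k) v) ⊔
        (Submodule.span ℤ (Set.range fun k : ℕ => (cj y ^ k) v)).map (cj (γ a)) := by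
      apply le_antisymm
      · rw [Submodule.span_le]
        rintro _ ⟨k, rfl⟩
        rcases Nat.even_or_odd' k with ⟨j, rfl | rfl⟩
        · refine Submodule.mem_sup_left (Submodule.subset_span ⟨j, ?_⟩)
          simp only
          rw [e1, ← pow_mul]
        · refine Submodule.mem_sup_right ⟨(cj y ^ j) v, Submodule.subset_span ⟨j, rfl⟩, ?_⟩
          simp only
          rw [e1, ← pow_mul, pow_succ' (cj (γ a)) (2 * j)]
          rfl
      · refine sup_le ?_ ?_
        · rw [Submodule.span_le]
          rintro _ ⟨k, rfl⟩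
          refine Submodule.subset_span ⟨2 * k, ?_⟩
          simp only
          rw [e1, ← pow_mul]
        · rw [Submodule.map_span, Submodule.span_le]
          rintro _ ⟨_, ⟨k, rfl⟩, rfl⟩
          refine Submodule.subset_span ⟨2 * k + 1, ?_⟩
          simp only
          rw [e1, ← pow_mul, pow_succ' (cj (γ a)) (2 * k)]
          rfl
    rw [e2]
    exact hfg.sup (hfg.map _)
  obtain ⟨V, hV⟩ := exists_pev_commutator γ inv hinv hgen _ v.toMul.2
  let blkw : Bool → List (I × I) := fun b =>
    (if b then V else List.replicate V.length (a, a)) ++ [(a, inv a)]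
  have hblen : ∀ b, (blkw b).length = V.length + 1 := by
    intro b
    cases b <;> simp [blkw]
  have hbval : ∀ b, pev γ (blkw b) = (if b then ((v.toMul : commutator G) : G) else 1) * y := by
    intro b
    have e1 : pev γ [(a, inv a)] = y := by
      simp [pev, hinv, hy]
    cases b
    · simp only [blkw, Bool.false_eq_true, if_false]
      rw [pev_append, pev_replicate, e1]
    · simp only [blkw, if_true]
      rw [pev_append, hV, e1]
  have hlen : ∀ l : List Bool, (l.flatMap blkw).length = (V.length + 1) * l.length := by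
    intro l
    induction l with
    | nil => simp
    | cons b l ih =>
      rw [List.flatMap_cons, List.length_append, ih, hblen, List.length_cons]
      ring
  have hval : ∀ l : List Bool, pev γ (l.flatMap blkw) = PP y (v.toMul : commutator G) l := by
    intro l
    induction l with
    | nil => rfl
    | cons b l ih => rw [List.flatMap_cons, pev_append, ih, hbval, PP]
  refine ⟨V.length + 1, by omega, fun r => ?_⟩
  let F : (Fin (r / (V.length + 1)) → Bool) → List (I × I) := fun ε =>
    (List.ofFn ε).flatMap blkw ++ List.replicate (r % (V.length + 1)) (a, a)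
  have hFval : ∀ ε, pev γ (F ε) = PP y (v.toMul : commutator G) (List.ofFn ε) := by
    intro ε
    simp only [F]
    rw [pev_append, pev_replicate, mul_one, hval]
  have hinj : Function.Injective fun ε => pev γ (F ε) := by
    intro ε ε' h
    simp only [hFval] at h
    exact List.ofFn_injective (PP_inj y v hv2 _ _ (by simp) h)
  refine ⟨Finset.univ.image F, ?_, ?_, ?_⟩
  · intro w hw
    rw [Finset.mem_image] at hw
    obtain ⟨ε, _, rfl⟩ := hw
    simp only [F]
    rw [List.length_append, hlen, List.length_ofFn, List.length_replicate]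
    exact Nat.div_add_mod r _
  · intro w hw w' hw' h
    rw [Finset.mem_coe, Finset.mem_image] at hw hw'
    obtain ⟨ε, _, rfl⟩ := hw
    obtain ⟨ε', _, rfl⟩ := hw'
    rw [hinj h]
  · rw [Finset.card_image_of_injective _ (fun ε ε' h => hinj (congrArg (pev γ) h))]
    simp

end Pool.Agent.H45R3.MB
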