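import Pool.Agent.H45R3.MB.Comp3
import Pool.Agent.H45R3.MB.Growth3

/-!
# The Magnus-type cocycle of a metabelian group
-/

namespace Pool.Agent.H45R3.MB

open Pool.Agent.H45R3.AC
open scoped IsMulCommutative
open MvPolynomial

section

variable {G : Type} [Group G]

/-- A section of the abelianization. -/
noncomputable def sec (q : Abelianization G) : G := Quotient.out q

theorem of_sec (q : Abelianization G) : Abelianization.of (sec q) = q := QuotientGroup.out_eq' q

theorem of_eq_one (g : G) : Abelianization.of g = 1 ↔ g ∈ commutator G := by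
  rw [← MonoidHom.mem_ker, Abelianization.ker_of]

theorem coc_mem (g : G) (q : Abelianization G) :
    (sec q)⁻¹ * g * sec ((Abelianization.of g)⁻¹ * q) ∈ commutator G := by
  rw [← of_eq_one, map_mul, map_mul, map_inv, of_sec, of_sec]
  group

variable [IsMulCommutative (commutator G)]

open Classical in
/-- The indicator of a proposition. -/
noncomputable def ind (p : Prop) : ℤ := if p then 1 else 0

theorem ind_congr {p q : Prop} (h : p ↔ q) : ind p = ind q := by rw [propext h]

theorem ind_true {p : Prop} (h : p) : ind p = 1 := if_pos h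

theorem ind_false {p : Prop} (h : ¬ p) : ind p = 0 := if_neg h

/-- The cocycle. -/
noncomputable def psi (g : G) : Abelianization G → Additive (commutator G) × ℤ := fun q =>
  (Additive.ofMul ⟨_, coc_mem g q⟩, ind (q = Abelianization.of g) - ind (q = 1))

/-- Shifts. -/
noncomputable def sh : Abelianization G →*
    Module.End ℤ (Abelianization G → Additive (commutator G) × ℤ) where
  toFun x := LinearMap.funLeft ℤ _ (fun q => x⁻¹ * q)
  map_one' := by
    apply LinearMap.ext
    intro φ
    funext q
    simp [LinearMap.funLeft_apply]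
  map_mul' x y := by
    apply LinearMap.ext
    intro φ
    funext q
    simp only [LinearMap.funLeft_apply, Module.End.mul_apply]
    congr 1
    group

theorem sh_apply (x : Abelianization G) (φ : Abelianization G → Additive (commutator G) × ℤ)
    (q : Abelianization G) : sh x φ q = φ (x⁻¹ * q) := rfl

theorem psi_mul (g h : G) : psi (g * h) = psi g + sh (Abelianization.of g) (psi h) := by
  funext q
  rw [Pi.add_apply, sh_apply]
  unfold psi
  rw [Prod.mk_add_mk]
  congr 1
  · apply add_ext
    change (sec q)⁻¹ * (g * h) * sec ((Abelianization.of (g * h))⁻¹ * q) =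
      ((sec q)⁻¹ * g * sec ((Abelianization.of g)⁻¹ * q)) *
      ((sec ((Abelianization.of g)⁻¹ * q))⁻¹ * h *
        sec ((Abelianization.of h)⁻¹ * ((Abelianization.of g)⁻¹ * q)))
    rw [map_mul, mul_inv_rev, mul_assoc (Abelianization.of h)⁻¹]
    group
  · have e1 : (q = Abelianization.of (g * h)) ↔ ((Abelianization.of g)⁻¹ * q =
        Abelianization.of h) := by
      rw [map_mul, inv_mul_eq_iff_eq_mul]
    have e2 : (q = Abelianization.of g) ↔ ((Abelianization.of g)⁻¹ * q = 1) := by
      rw [inv_mul_eq_iff_eq_mul, mul_one]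
    rw [ind_congr e1, ind_congr e2]
    ring

theorem psi_one : psi (1 : G) = 0 := by
  have h := psi_mul (1 : G) 1
  rw [mul_one, map_one, map_one, Module.End.one_apply] at h
  exact left_eq_add.1 h

theorem eq_one_of_psi {g : G} (h : psi g = 0) : g = 1 := by
  have h1 := congrFun h 1
  have h2 : ind ((1 : Abelianization G) = Abelianization.of g) -
    ind ((1 : Abelianization G) = 1) = (0 : ℤ) := congrArg Prod.snd h1
  have h3 : Abelianization.of g = 1 := by
    by_contra hne
    rw [ind_false (fun h' => hne (Eq.symm h')), ind_true rfl] at h2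
    norm_num at h2
  have h4 : (sec (1 : Abelianization G))⁻¹ * g * sec ((Abelianization.of g)⁻¹ * 1) = 1 :=
    congrArg (fun a : Additive (commutator G) => ((a.toMul : commutator G) : G))
      (congrArg Prod.fst h1)
  rw [h3, inv_one, one_mul] at h4
  have h5 : g = sec (1 : Abelianization G) * ((sec (1 : Abelianization G))⁻¹ * g * sec 1) *
      (sec (1 : Abelianization G))⁻¹ := by group
  rw [h5, h4]
  group

variable {I : Type}

/-- The functions on the abelianization, as a module over the polynomial ring. -/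
def Fn (_γ : I → G) : Type := Abelianization G → Additive (commutator G) × ℤ

noncomputable instance (γ : I → G) : AddCommGroup (Fn γ) :=
  inferInstanceAs (AddCommGroup (Abelianization G → Additive (commutator G) × ℤ))

/-- The structure map. -/
noncomputable def Lft : MonoidAlgebra ℤ (Abelianization G) →ₐ[ℤ]
    Module.End ℤ (Abelianization G → Additive (commutator G) × ℤ) :=
  MonoidAlgebra.lift ℤ _ _ sh

/-- The structure map. -/
noncomputable def Phi (γ : I → G) : MvPolynomial I ℤ →ₐ[ℤ]
    Module.End ℤ (Abelianization G → Additive (commutator G) × ℤ) :=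
  Lft.comp (MvPolynomial.aeval fun a =>
    MonoidAlgebra.of ℤ (Abelianization G) (Abelianization.of (γ a)))

theorem Phi_X (γ : I → G) (a : I) : Phi γ (X a) = sh (Abelianization.of (γ a)) := by
  unfold Phi Lft
  rw [AlgHom.comp_apply, MvPolynomial.aeval_X, MonoidAlgebra.lift_of]

theorem Phi_comm (γ : I → G) (x : Abelianization G) (p : MvPolynomial I ℤ) :
    sh x * Phi γ p = Phi γ p * sh x := by
  have h : sh x = Lft (MonoidAlgebra.of ℤ (Abelianization G) x) := by
    unfold Lft
    rw [MonoidAlgebra.lift_of]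
  rw [h]
  unfold Phi
  rw [AlgHom.comp_apply, ← map_mul, mul_comm, map_mul]

noncomputable instance (γ : I → G) : Module (MvPolynomial I ℤ) (Fn γ) :=
  Module.compHom (Abelianization G → Additive (commutator G) × ℤ) (Phi γ).toRingHom

theorem smul_Fn (γ : I → G) (p : MvPolynomial I ℤ) (v : Fn γ) :
    p • v = (Phi γ p v : Abelianization G → Additive (commutator G) × ℤ) := rfl

/-- The shift as a linear map. -/
noncomputable def shL (γ : I → G) (x : Abelianization G) : Fn γ →ₗ[MvPolynomial I ℤ] Fn γ where
  toFun v := sh x v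
  map_add' u v := (sh x).map_add u v
  map_smul' p v := by
    rw [smul_Fn]
    change (sh x * Phi γ p) v = (Phi γ p * sh x) v
    rw [Phi_comm]

theorem shL_apply (γ : I → G) (x : Abelianization G) (v : Fn γ) : shL γ x v = sh x v := rfl

theorem X_smul (γ : I → G) (a : I) (v : Fn γ) :
    (X a : MvPolynomial I ℤ) • v = shL γ (Abelianization.of (γ a)) v := by
  rw [smul_Fn, Phi_X]
  rfl

/-- The cocycle with values in the module. -/
noncomputable def ps (γ : I → G) (g : G) : Fn γ := psi g

theorem ps_mul (γ : I → G) (g h : G) :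
    ps γ (g * h) = ps γ g + shL γ (Abelianization.of g) (ps γ h) := psi_mul g h

theorem ps_one (γ : I → G) : ps γ 1 = 0 := psi_one

theorem eq_one_of_ps (γ : I → G) {g : G} (h : ps γ g = 0) : g = 1 := eq_one_of_psi h

/-- The module generated by the values on letters. -/
noncomputable def M0 (γ : I → G) : Submodule (MvPolynomial I ℤ) (Fn γ) :=
  Submodule.span _ (Set.range fun a => ps γ (γ a))

theorem ps_mem_letter (γ : I → G) (a : I) : ps γ (γ a) ∈ M0 γ := Submodule.subset_span ⟨a, rfl⟩

instance [Finite I] (γ : I → G) : Module.Finite (MvPolynomial I ℤ) (M0 γ) :=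
  Module.Finite.span_of_finite _ (Set.finite_range _)

/-- The operator of a letter. -/
noncomputable def opL (γ : I → G) (a : I) :
    (M0 γ × MvPolynomial I ℤ) →ₗ[MvPolynomial I ℤ] (M0 γ × MvPolynomial I ℤ) :=
  ((X a : MvPolynomial I ℤ) • LinearMap.fst _ (M0 γ) (MvPolynomial I ℤ) +
    (LinearMap.snd _ (M0 γ) (MvPolynomial I ℤ)).smulRight
      (⟨ps γ (γ a), ps_mem_letter γ a⟩ : M0 γ)).prod
    (LinearMap.snd _ (M0 γ) (MvPolynomial I ℤ))

theorem opL_fst (γ : I → G) (a : I) (x : M0 γ × MvPolynomial I ℤ) :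
    ((opL γ a x).1 : Fn γ) = shL γ (Abelianization.of (γ a)) x.1 + x.2 • ps γ (γ a) := by
  rw [← X_smul]
  rfl

theorem opL_snd (γ : I → G) (a : I) (x : M0 γ × MvPolynomial I ℤ) : (opL γ a x).2 = x.2 := rfl

theorem actR_opL (γ : I → G) (inv : I → I) (hinv : ∀ i, γ (inv i) = (γ i)⁻¹) (w : List I) :
    ∀ x : M0 γ × MvPolynomial I ℤ,
    ((actR (fun a => opL γ (inv a)) w x).1 : Fn γ) =
      shL γ (Abelianization.of (ev γ w)⁻¹) x.1 + x.2 • ps γ (ev γ w)⁻¹ ∧
    (actR (fun a => opL γ (inv a)) w x).2 = x.2 := by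
  induction w with
  | nil =>
    intro x
    have h1 : ev γ ([] : List I) = 1 := rfl
    refine ⟨?_, rfl⟩
    rw [h1, inv_one, ps_one, smul_zero, add_zero, map_one, shL_apply, map_one]
    rfl
  | cons a w ih =>
    intro x
    obtain ⟨h1, h2⟩ := ih (opL γ (inv a) x)
    have e : ev γ (a :: w) = γ a * ev γ w := by simp [ev]
    have e3 : actR (fun a => opL γ (inv a)) (a :: w) x =
      actR (fun a => opL γ (inv a)) w (opL γ (inv a) x) := rfl
    rw [e3]
    refine ⟨?_, ?_⟩
    · rw [h1, opL_fst, opL_snd, hinv, e, mul_inv_rev, ps_mul, map_add, map_smul, smul_add, map_mul,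
        shL_apply γ (_ * _), map_mul]
      have e4 : (sh (Abelianization.of (ev γ w)⁻¹) * sh (Abelianization.of (γ a)⁻¹)) (x.1 : Fn γ) =
        shL γ (Abelianization.of (ev γ w)⁻¹) (shL γ (Abelianization.of (γ a)⁻¹) x.1) := rfl
      rw [e4]
      abel
    · rw [h2, opL_snd]

theorem actR_opL_iff (γ : I → G) (inv : I → I) (hinv : ∀ i, γ (inv i) = (γ i)⁻¹) (w : List I) :
    actR (fun a => opL γ (inv a)) w = 1 ↔ ev γ w = 1 := by
  constructor
  · intro h
    obtain ⟨h1, h2⟩ := actR_opL γ inv hinv w (0, 1)
    rw [h] at h1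
    have h3 : ps γ (ev γ w)⁻¹ = 0 := by
      have : ((0 : M0 γ) : Fn γ) = shL γ (Abelianization.of (ev γ w)⁻¹) ((0 : M0 γ) : Fn γ) +
        (1 : MvPolynomial I ℤ) • ps γ (ev γ w)⁻¹ := h1
      rw [Submodule.coe_zero, map_zero, one_smul, zero_add] at this
      exact this.symm
    exact inv_eq_one.1 (eq_one_of_ps γ h3)
  · intro h
    apply LinearMap.ext
    intro x
    obtain ⟨h1, h2⟩ := actR_opL γ inv hinv w x
    rw [h, inv_one, ps_one, smul_zero, add_zero, map_one, shL_apply, map_one] at h1
    exact Prod.ext (Subtype.ext h1) h2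

end

theorem exists_cs {G : Type} [Group G] [IsMulCommutative (commutator G)] {I : Type} [Finite I]
    (γ : I → G) (inv : I → I) (hinv : ∀ i, γ (inv i) = (γ i)⁻¹) :
    ∃ cs : List (CompData I), ∀ w, ev γ w = 1 ↔ ∀ c ∈ cs, c.triv w := by
  obtain ⟨cs, hcs⟩ := exists_comps (M0 γ × MvPolynomial I ℤ) (fun a => opL γ (inv a))
  exact ⟨cs, fun w => (actR_opL_iff γ inv hinv w).symm.trans (hcs w)⟩

end Pool.Agent.H45R3.MB
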