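import Pool.Agent.H45R3.MB.Smith
import Pool.Agent.H45R3.MB.Close

/-!
# Polynomial matrices describing an action on a finite module over a localization
-/

namespace Pool.Agent.H45R3.MB

open Submodule

/-- The right action of words: the first letter acts first. -/
def actR {R V I : Type*} [Semiring R] [AddCommMonoid V] [Module R V] (T : I → Module.End R V) :
    List I → Module.End R V
  | [] => 1
  | a :: w => actR T w * T a

theorem isPID_localization {Λ : Type} [CommRing Λ] [IsDomain Λ] [IsNoetherianRing Λ] (π : Λ)
    [h : (Ideal.span {π}).IsPrime] :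
    IsPrincipalIdealRing (Localization.AtPrime (Ideal.span {π})) ∧
    IsLocalRing.maximalIdeal (Localization.AtPrime (Ideal.span {π})) =
      Ideal.span {algebraMap Λ (Localization.AtPrime (Ideal.span {π})) π} := by
  have h1 : IsLocalRing.maximalIdeal (Localization.AtPrime (Ideal.span {π})) =
      Ideal.span {algebraMap Λ (Localization.AtPrime (Ideal.span {π})) π} := by
    rw [← Localization.AtPrime.map_eq_maximalIdeal, Ideal.map_span, Set.image_singleton]
  refine ⟨?_, h1⟩
  have : IsDomain (Localization.AtPrime (Ideal.span {π})) :=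
    IsLocalization.isDomain_localization (Ideal.span {π}).primeCompl_le_nonZeroDivisors
  have : IsNoetherianRing (Localization.AtPrime (Ideal.span {π})) :=
    IsLocalization.isNoetherianRing (Ideal.span {π}).primeCompl _ inferInstance
  have h2 := (tfae_of_isNoetherianRing_of_isLocalRing_of_isDomain
    (Localization.AtPrime (Ideal.span {π}))).out 0 4
  refine h2.2 ?_
  rw [h1]
  exact ⟨⟨_, rfl⟩⟩

theorem tr_algebraMap {Λ : Type} [CommRing Λ] [IsDomain Λ] (π : Λ)
    [h : (Ideal.span {π}).IsPrime] (τ : Option ℕ) (f : Λ) :
    Tr (algebraMap Λ (Localization.AtPrime (Ideal.span {π})) π) τ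
      (algebraMap Λ (Localization.AtPrime (Ideal.span {π})) f) ↔ Tr π τ f := by
  have hinj : Function.Injective (algebraMap Λ (Localization.AtPrime (Ideal.span {π}))) :=
    IsLocalization.injective _ (Ideal.span {π}).primeCompl_le_nonZeroDivisors
  cases τ with
  | none =>
    change algebraMap Λ (Localization.AtPrime (Ideal.span {π})) f = 0 ↔ f = 0
    rw [map_eq_zero_iff _ hinj]
  | some k =>
    change (algebraMap Λ (Localization.AtPrime (Ideal.span {π})) π) ^ k ∣
      algebraMap Λ (Localization.AtPrime (Ideal.span {π})) f ↔ π ^ k ∣ f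
    constructor
    · rintro ⟨y, hy⟩
      obtain ⟨⟨x, s⟩, hs⟩ := IsLocalization.surj (Ideal.span {π}).primeCompl y
      have h2 : s.1 * f = π ^ k * x := by
        apply hinj
        rw [map_mul, map_mul, hy, map_pow, ← hs]
        ring
      have h3 : ¬ π ∣ s.1 := by
        intro h4
        exact s.2 (Ideal.mem_span_singleton.2 h4)
      by_cases h0 : π = 0
      · subst h0
        cases k with
        | zero => simp
        | succ k =>
          have h5 : s.1 * f = 0 := by rw [h2]; simp
          rcases mul_eq_zero.1 h5 with h6 | h6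
          · exact absurd (by rw [h6]) h3
          · rw [h6]; exact dvd_zero _
      · have hp : Prime π := (Ideal.span_singleton_prime h0).1 h
        exact hp.pow_dvd_of_dvd_mul_left k h3 ⟨x, h2⟩
    · intro h2
      rw [← map_pow]
      exact map_dvd _ h2

theorem comp_matrices {Λ : Type} [CommRing Λ] [IsDomain Λ] [IsNoetherianRing Λ] (π : Λ)
    [h : (Ideal.span {π}).IsPrime] (V : Type) [AddCommGroup V]
    [Module (Localization.AtPrime (Ideal.span {π})) V]
    [Module.Finite (Localization.AtPrime (Ideal.span {π})) V] {I : Type} [Finite I]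
    (T : I → Module.End (Localization.AtPrime (Ideal.span {π})) V) :
    ∃ (t : ℕ) (ty : Fin t → Option ℕ) (D : Λ) (X : I → Matrix (Fin t) (Fin t) Λ),
      ¬ π ∣ D ∧ (∀ a i l f, Tr π (ty i) f → Tr π (ty l) (f * X a i l)) ∧
      (∀ w : List I, actR T w = 1 ↔ ∀ i l, Tr π (ty l)
        (((w.map X).prod - D ^ w.length • (1 : Matrix (Fin t) (Fin t) Λ)) i l)) ∧
      ∀ l, ty l ≠ none → π ≠ 0 := by
  classical
  cases nonempty_fintype I
  have : IsDomain (Localization.AtPrime (Ideal.span {π})) :=
    IsLocalization.isDomain_localization (Ideal.span {π}).primeCompl_le_nonZeroDivisors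
  obtain ⟨hPID, hmax⟩ := isPID_localization π
  obtain ⟨t, v, ty, hv1, hv2, hv3⟩ := smith (algebraMap Λ _ π) hmax V
  have hinj : Function.Injective (algebraMap Λ (Localization.AtPrime (Ideal.span {π}))) :=
    IsLocalization.injective _ (Ideal.span {π}).primeCompl_le_nonZeroDivisors
  have hx : ∀ a l, ∃ u : Fin t → Localization.AtPrime (Ideal.span {π}),
    T a (v l) = ∑ i, u i • v i := fun a l => hv1 _
  choose x hx using hx
  obtain ⟨D, hD⟩ := IsLocalization.exist_integer_multiples_of_finset (Ideal.span {π}).primeCompl
    (Finset.univ.image fun q : I × Fin t × Fin t => x q.1 q.2.1 q.2.2)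
  have hD' : ∀ a l i, ∃ y : Λ, algebraMap Λ (Localization.AtPrime (Ideal.span {π})) y =
      algebraMap Λ _ D.1 * x a l i := by
    intro a l i
    obtain ⟨y, hy⟩ := hD (x a l i) (Finset.mem_image.2 ⟨(a, l, i), Finset.mem_univ _, rfl⟩)
    refine ⟨y, ?_⟩
    rw [hy, Algebra.smul_def]
  choose X hX using hD'
  set α := algebraMap Λ (Localization.AtPrime (Ideal.span {π})) with hα
  -- one letter
  have hone : ∀ (a : I) (u : Fin t → Λ), α D.1 • T a (∑ l, α (u l) • v l) =
      ∑ i, α (Matrix.vecMul u (Matrix.of (X a)) i) • v i := by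
    intro a u
    rw [map_sum, Finset.smul_sum]
    have h1 : ∀ l, α D.1 • T a (α (u l) • v l) = ∑ i, (α (u l) * α (X a l i)) • v i := by
      intro l
      rw [map_smul, hx, Finset.smul_sum, Finset.smul_sum]
      refine Finset.sum_congr rfl fun i _ => ?_
      rw [hX, smul_smul, smul_smul]
      congr 1
      ring
    simp_rw [h1]
    rw [Finset.sum_comm]
    refine Finset.sum_congr rfl fun i _ => ?_
    rw [← Finset.sum_smul]
    congr 1
    simp only [Matrix.vecMul, dotProduct, Matrix.of_apply, map_sum, map_mul]
  have hword : ∀ (w : List I) (u : Fin t → Λ), α D.1 ^ w.length • actR T w (∑ l, α (u l) • v l) =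
      ∑ i, α (Matrix.vecMul u (w.map fun a => Matrix.of (X a)).prod i) • v i := by
    intro w
    induction w with
    | nil =>
      intro u
      simp [actR]
    | cons a w ih =>
      intro u
      have h1 : α D.1 ^ (a :: w).length • actR T (a :: w) (∑ l, α (u l) • v l) =
          α D.1 ^ w.length • actR T w (α D.1 • T a (∑ l, α (u l) • v l)) := by
        rw [map_smul, smul_smul, List.length_cons, pow_succ]
        rfl
      rw [h1, hone, ih, List.map_cons, List.prod_cons, Matrix.vecMul_vecMul]
  have hsingle : ∀ l, ∑ i, α ((Pi.single l 1 : Fin t → Λ) i) • v i = v l := by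
    intro l
    rw [Finset.sum_eq_single l]
    · simp
    · intro i _ hi
      simp [hi]
    · simp
  have hunit : ∀ n : ℕ, IsUnit (α D.1 ^ n) := fun n =>
    (IsLocalization.map_units (Localization.AtPrime (Ideal.span {π})) D).pow n
  refine ⟨t, ty, D.1, fun a => Matrix.of (X a), ?_, ?_, ?_, ?_⟩
  · intro h4
    exact D.2 (Ideal.mem_span_singleton.2 h4)
  · intro a i l f hf
    -- f • v i = 0
    have h1 : α f • v i = 0 := by
      have h2 := (hv2 (fun l => α ((Pi.single i f : Fin t → Λ) l))).2 (by
        intro m
        by_cases hm : m = i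
        · subst hm
          rw [Pi.single_eq_same, tr_algebraMap]
          exact hf
        · rw [Pi.single_eq_of_ne hm, map_zero]
          cases hty : ty m with
          | none => rfl
          | some k => exact dvd_zero _)
      rw [Finset.sum_eq_single i] at h2
      · simpa using h2
      · intro m _ hm
        simp [hm]
      · simp
    have h2 := hone a (Pi.single i f)
    have h3 : ∑ l, α ((Pi.single i f : Fin t → Λ) l) • v l = 0 := by
      rw [Finset.sum_eq_single i]
      · simpa using h1
      · intro m _ hm
        simp [hm]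
      · simp
    rw [h3, map_zero, smul_zero] at h2
    have h4 := (hv2 _).1 h2.symm l
    rw [tr_algebraMap] at h4
    simpa [Matrix.single_vecMul] using h4
  · intro w
    have e1 : actR T w = 1 ↔ ∀ l, actR T w (v l) = v l := by
      constructor
      · intro h l; rw [h]; rfl
      · intro h
        ext y
        obtain ⟨u, rfl⟩ := hv1 y
        rw [map_sum]
        simp only [map_smul, h]
        rfl
    rw [e1]
    refine forall_congr' fun i => ?_
    have h2 := hword w (Pi.single i 1)
    rw [hsingle] at h2
    have h3 : actR T w (v i) = v i ↔ ∑ l, α (((w.map fun a => Matrix.of (X a)).prod -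
        D.1 ^ w.length • (1 : Matrix (Fin t) (Fin t) Λ)) i l) • v l = 0 := by
      have h4 : ∑ l, α (((w.map fun a => Matrix.of (X a)).prod -
        D.1 ^ w.length • (1 : Matrix (Fin t) (Fin t) Λ)) i l) • v l =
          α D.1 ^ w.length • (actR T w (v i) - v i) := by
        rw [smul_sub, h2]
        have h5 : α D.1 ^ w.length • v i =
            ∑ l, α ((D.1 ^ w.length • (1 : Matrix (Fin t) (Fin t) Λ)) i l) • v l := by
          rw [Finset.sum_eq_single i]
          · simp
          · intro m _ hm
            simp [Matrix.one_apply_ne (Ne.symm hm)]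
          · simp
        rw [h5, ← Finset.sum_sub_distrib]
        refine Finset.sum_congr rfl fun l _ => ?_
        rw [← sub_smul, Matrix.sub_apply, map_sub]
        simp
      rw [h4, (hunit _).smul_eq_zero, sub_eq_zero]
    rw [h3, hv2]
    refine forall_congr' fun l => ?_
    rw [tr_algebraMap]
  · intro l hl h0
    exact hv3 l hl ((map_eq_zero_iff α hinj).2 h0)

end Pool.Agent.H45R3.MB
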