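import Pool.Agent.H45R3.MB.Comp1

/-!
# Finiteness of a localized module, and a normalization lemma
-/

namespace Pool.Agent.H45R3.MB

open Submodule

theorem localized_finite {Λ : Type} [CommRing Λ] (S : Submonoid Λ) (M : Type) [AddCommGroup M]
    [Module Λ M] {ι : Type} [Finite ι] (Y : ι → Module.End Λ M)
    (hc : ∀ i j, Commute (Y i) (Y j))
    (hY : ∀ i, ∃ h : Polynomial Λ, h.leadingCoeff ∈ S ∧ Polynomial.aeval (Y i) h = 0)
    (B : Set M) (hB : B.Finite)
    (hgen : ∀ N : Submodule Λ M, B ⊆ N → (∀ i, ∀ v ∈ N, Y i v ∈ N) → N = ⊤) :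
    Module.Finite (Localization S) (LocalizedModule S M) := by
  classical
  let Z : ι → Module.End (Localization S) (LocalizedModule S M) := fun i =>
    LocalizedModule.map S (Y i)
  have hZ : ∀ i m s, Z i (LocalizedModule.mk m s) = LocalizedModule.mk (Y i m) s :=
    fun i m s => LocalizedModule.map_mk _ _ _ _
  have hpow : ∀ i (k : ℕ) m s, (Z i ^ k) (LocalizedModule.mk m s) =
      LocalizedModule.mk ((Y i ^ k) m) s := by
    intro i k m s
    induction k with
    | zero => simp
    | succ k ih => rw [pow_succ', Module.End.mul_apply, ih, hZ, pow_succ', Module.End.mul_apply]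
  have hcomm : ∀ i j, Commute (Z i) (Z j) := by
    intro i j
    apply LinearMap.ext
    intro x
    induction x using LocalizedModule.induction_on with
    | _ m s =>
      rw [Module.End.mul_apply, Module.End.mul_apply, hZ, hZ, hZ, hZ]
      congr 1
      exact congrArg (fun S : Module.End Λ M => S m) (hc i j).eq
  have hsum : ∀ (F : Finset ℕ) (g : ℕ → M) (s : S),
      ∑ k ∈ F, LocalizedModule.mk (g k) s = LocalizedModule.mk (∑ k ∈ F, g k) s := by
    intro F g s
    induction F using Finset.induction_on with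
    | empty => simp
    | insert a F ha ih =>
      rw [Finset.sum_insert ha, Finset.sum_insert ha, ih, LocalizedModule.mk_add_mk, ← smul_add,
        LocalizedModule.mk_cancel_common_left]
  have hfin : ∀ i, LocFin (Z i) := by
    intro i v
    obtain ⟨h, hS, h0⟩ := hY i
    apply span_orbit_fg (n := h.natDegree)
    have hrel : ∑ k ∈ Finset.range (h.natDegree + 1),
        (algebraMap Λ (Localization S) (h.coeff k)) • (Z i ^ k) v = 0 := by
      induction v using LocalizedModule.induction_on with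
      | _ m s =>
        have h1 : ∀ k, (algebraMap Λ (Localization S) (h.coeff k)) •
            (Z i ^ k) (LocalizedModule.mk m s) =
            LocalizedModule.mk (h.coeff k • (Y i ^ k) m) s := by
          intro k
          rw [hpow, algebraMap_smul, LocalizedModule.smul'_mk]
        simp_rw [h1]
        rw [hsum]
        have h2 := congrArg (fun S : Module.End Λ M => S m) h0
        simp only [Polynomial.aeval_eq_sum_range, LinearMap.sum_apply, LinearMap.smul_apply,
          LinearMap.zero_apply] at h2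
        rw [h2, LocalizedModule.zero_mk]
    rw [Finset.sum_range_succ] at hrel
    have hu : IsUnit (algebraMap Λ (Localization S) (h.coeff h.natDegree)) :=
      IsLocalization.map_units (Localization S) ⟨_, hS⟩
    rw [← Submodule.smul_mem_iff_of_isUnit _ hu]
    rw [eq_neg_of_add_eq_zero_right hrel]
    refine neg_mem (sum_mem fun k hk => smul_mem _ _ (subset_span ?_))
    exact ⟨⟨k, Finset.mem_range.1 hk⟩, rfl⟩
  obtain ⟨N, h1, h2, h3⟩ := close Z hcomm hfin
    (span (Localization S) ((fun b => LocalizedModule.mk b 1) '' B)) (fg_span (hB.image _))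
  have hK := hgen ((N.restrictScalars Λ).comap (LocalizedModule.mkLinearMap S M)) (by
    intro b hb
    exact h1 (subset_span ⟨b, hb, rfl⟩)) (by
    intro i v hv
    have h4 := h3 i _ hv
    change Z i (LocalizedModule.mk v 1) ∈ N at h4
    rw [hZ] at h4
    exact h4)
  have htop : N = ⊤ := by
    rw [eq_top_iff]
    intro x _
    induction x using LocalizedModule.induction_on with
    | _ m s =>
      have h4 : m ∈ (N.restrictScalars Λ).comap (LocalizedModule.mkLinearMap S M) := by
        rw [hK]; trivial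
      have h5 : LocalizedModule.mk m 1 ∈ N := h4
      have h6 := N.smul_mem (Localization.mk 1 s) h5
      rw [LocalizedModule.mk_smul_mk, one_smul, mul_one] at h6
      exact h6
  exact ⟨by rw [← htop]; exact h2⟩

open MvPolynomial in
theorem noether {ι : Type} [Finite ι] (P : Ideal (MvPolynomial ι ℤ)) [hP : P.IsPrime] :
    ∃ (π J : ℕ) (e : Fin J → ι), (π = 0 ∨ π.Prime) ∧
      (∀ f : MvPolynomial (Fin J) ℤ, rename e f ∈ P ↔ C (π : ℤ) ∣ f) ∧
      ∀ a : ι, ∃ h : Polynomial (MvPolynomial (Fin J) ℤ), ¬ C (π : ℤ) ∣ h.leadingCoeff ∧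
        h.eval₂ (rename e : MvPolynomial (Fin J) ℤ →ₐ[ℤ] MvPolynomial ι ℤ).toRingHom (X a) ∈ P := by
  classical
  cases nonempty_fintype ι
  -- the characteristic
  obtain ⟨π, hπ, hπ1, hπP⟩ : ∃ π : ℕ, (π = 0 ∨ π.Prime) ∧ π ≠ 1 ∧
      ∀ z : ℤ, C z ∈ P ↔ (π : ℤ) ∣ z := by
    let 𝔭 : Ideal ℤ := P.comap (C : ℤ →+* MvPolynomial ι ℤ)
    have hp : 𝔭.IsPrime := Ideal.comap_isPrime _ _
    obtain ⟨z, hz⟩ : ∃ z : ℤ, 𝔭 = Ideal.span {z} := by
      obtain ⟨z, hz⟩ := IsPrincipalIdealRing.principal 𝔭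
      exact ⟨z, hz⟩
    have hmem : ∀ y : ℤ, C y ∈ P ↔ ((z.natAbs : ℕ) : ℤ) ∣ y := by
      intro y
      have : C y ∈ P ↔ y ∈ 𝔭 := Iff.rfl
      rw [this, hz, Ideal.mem_span_singleton, Int.natAbs_dvd]
    have hone : ¬ ((z.natAbs : ℕ) : ℤ) ∣ 1 := by
      rw [← hmem, map_one]
      exact (Ideal.ne_top_iff_one P).1 hP.ne_top
    refine ⟨z.natAbs, ?_, ?_, hmem⟩
    · by_cases h0 : z = 0
      · left; rw [h0]; rfl
      · right
        rw [hz] at hp
        exact Int.prime_iff_natAbs_prime.1 ((Ideal.span_singleton_prime h0).1 hp)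
    · intro h
      apply hone
      rw [h]
      simp
  have hCP : ∀ {J : ℕ} (e : Fin J → ι) (f : MvPolynomial (Fin J) ℤ), C (π : ℤ) ∣ f →
      rename e f ∈ P := by
    rintro J e _ ⟨g, rfl⟩
    rw [map_mul, rename_C]
    exact P.mul_mem_right _ ((hπP π).2 dvd_rfl)
  -- independent tuples
  let Q : ℕ → Prop := fun J => ∃ e : Fin J → ι, ∀ f : MvPolynomial (Fin J) ℤ,
    rename e f ∈ P → C (π : ℤ) ∣ f
  have hQ0 : Q 0 := by
    refine ⟨Fin.elim0, fun f hf => ?_⟩
    rw [eq_C_of_isEmpty f, rename_C] at hf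
    rw [eq_C_of_isEmpty f]
    obtain ⟨c, hc⟩ := (hπP _).1 hf
    rw [hc, map_mul]
    exact dvd_mul_right _ _
  have hQb : ∀ J, Q J → J ≤ Fintype.card ι := by
    rintro J ⟨e, he⟩
    have hinj : Function.Injective e := by
      intro i j hij
      by_contra hne
      have h1 : rename e (X i - X j : MvPolynomial (Fin J) ℤ) ∈ P := by
        rw [map_sub, rename_X, rename_X, hij, sub_self]
        exact P.zero_mem
      have h2 := (C_dvd_iff_dvd_coeff _ _).1 (he _ h1) (Finsupp.single i 1)
      rw [coeff_sub, coeff_X, coeff_X] at h2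
      have h3 : ¬ (Finsupp.single j 1 = Finsupp.single i (1 : ℕ)) := by
        intro h
        exact hne ((Finsupp.single_left_inj one_ne_zero).1 h).symm
      rw [if_pos rfl, if_neg h3, sub_zero] at h2
      have h4 : π ∣ 1 := by exact_mod_cast h2
      exact hπ1 (Nat.dvd_one.1 h4)
    have := Fintype.card_le_of_injective e hinj
    simpa using this
  obtain ⟨J, ⟨e, he⟩, hmax⟩ : ∃ J, Q J ∧ ¬ Q (J + 1) := by
    refine ⟨Nat.findGreatest Q (Fintype.card ι), ?_, ?_⟩
    · exact Nat.findGreatest_spec (P := Q) (Nat.zero_le _) hQ0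
    · intro h
      have h1 := hQb _ h
      exact absurd h (Nat.findGreatest_is_greatest (P := Q) (Nat.lt_succ_self _) h1)
  refine ⟨π, J, e, hπ, fun f => ⟨he f, hCP e f⟩, ?_⟩
  intro a
  have h1 : ∃ f : MvPolynomial (Fin (J + 1)) ℤ, rename (Fin.cons a e : Fin (J + 1) → ι) f ∈ P ∧
      ¬ C (π : ℤ) ∣ f := by
    by_contra hcon
    push Not at hcon
    exact hmax ⟨_, hcon⟩
  obtain ⟨f, hf, hnf⟩ := h1
  set F := finSuccEquiv ℤ J f with hF
  have hren : ∀ g : MvPolynomial (Fin (J + 1)) ℤ, rename (Fin.cons a e : Fin (J + 1) → ι) g =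
      (finSuccEquiv ℤ J g).eval₂
        (rename e : MvPolynomial (Fin J) ℤ →ₐ[ℤ] MvPolynomial ι ℤ).toRingHom (X a) := by
    intro g
    have : (rename (Fin.cons a e : Fin (J + 1) → ι) :
        MvPolynomial (Fin (J + 1)) ℤ →ₐ[ℤ] MvPolynomial ι ℤ).toRingHom =
        (Polynomial.eval₂RingHom
          (rename e : MvPolynomial (Fin J) ℤ →ₐ[ℤ] MvPolynomial ι ℤ).toRingHom (X a)).comp
          (finSuccEquiv ℤ J : MvPolynomial (Fin (J + 1)) ℤ ≃ₐ[ℤ] _).toRingEquiv.toRingHom := by
      apply MvPolynomial.ringHom_ext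
      · intro z
        simp
      · intro i
        refine Fin.cases ?_ (fun i => ?_) i
        · simp [finSuccEquiv_X_zero]
        · simp [finSuccEquiv_X_succ]
    exact congrArg (fun ψ : MvPolynomial (Fin (J + 1)) ℤ →+* MvPolynomial ι ℤ => ψ g) this
  rw [hren, ← hF] at hf
  have h2 : ∃ k, ¬ C (π : ℤ) ∣ F.coeff k := by
    by_contra hcon
    push Not at hcon
    apply hnf
    choose G hG using hcon
    rw [C_dvd_iff_dvd_coeff]
    intro m
    have h3 : f.coeff m = ((finSuccEquiv ℤ J f).coeff (m 0)).coeff m.tail := by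
      rw [finSuccEquiv_coeff_coeff, Finsupp.cons_tail]
    rw [h3, ← hF, hG, coeff_C_mul]
    exact dvd_mul_right _ _
  let PP : ℕ → Prop := fun k => ¬ C (π : ℤ) ∣ F.coeff k
  obtain ⟨k0, hk0⟩ := h2
  have hk0' : k0 ≤ F.natDegree := by
    by_contra hlt
    push Not at hlt
    rw [Polynomial.coeff_eq_zero_of_natDegree_lt hlt] at hk0
    exact hk0 (dvd_zero _)
  set N := Nat.findGreatest PP F.natDegree with hN
  have hPN : ¬ C (π : ℤ) ∣ F.coeff N := Nat.findGreatest_spec (P := PP) hk0' hk0
  have hbig : ∀ k, N < k → C (π : ℤ) ∣ F.coeff k := by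
    intro k hk
    by_cases hkd : k ≤ F.natDegree
    · have := Nat.findGreatest_is_greatest (P := PP) hk hkd
      simpa [PP] using this
    · push Not at hkd
      rw [Polynomial.coeff_eq_zero_of_natDegree_lt hkd]
      exact dvd_zero _
  let h : Polynomial (MvPolynomial (Fin J) ℤ) :=
    ∑ k ∈ Finset.range (N + 1), Polynomial.monomial k (F.coeff k)
  have hcoeff : ∀ k, h.coeff k = if k ≤ N then F.coeff k else 0 := by
    intro k
    simp only [h, Polynomial.finsetSum_coeff, Polynomial.coeff_monomial]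
    rw [Finset.sum_ite_eq' (Finset.range (N + 1)) k]
    simp
  have hdeg : h.natDegree = N := by
    apply Polynomial.natDegree_eq_of_le_of_coeff_ne_zero
    · rw [Polynomial.natDegree_le_iff_coeff_eq_zero]
      intro k hk
      rw [hcoeff, if_neg (by omega)]
    · rw [hcoeff, if_pos le_rfl]
      intro h0
      exact hPN (h0 ▸ dvd_zero _)
  refine ⟨h, ?_, ?_⟩
  · rw [Polynomial.leadingCoeff, hdeg, hcoeff, if_pos le_rfl]
    exact hPN
  · have h3 : h.eval₂ (rename e : MvPolynomial (Fin J) ℤ →ₐ[ℤ] MvPolynomial ι ℤ).toRingHom (X a) =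
        F.eval₂ (rename e : MvPolynomial (Fin J) ℤ →ₐ[ℤ] MvPolynomial ι ℤ).toRingHom (X a) -
        (F - h).eval₂ (rename e : MvPolynomial (Fin J) ℤ →ₐ[ℤ] MvPolynomial ι ℤ).toRingHom
          (X a) := by
      rw [Polynomial.eval₂_sub]
      ring
    rw [h3]
    refine P.sub_mem hf ?_
    rw [Polynomial.eval₂_eq_sum]
    unfold Polynomial.sum
    refine P.sum_mem fun k _ => P.mul_mem_right _ ?_
    apply hCP
    rw [Polynomial.coeff_sub, hcoeff]
    split_ifs with hk
    · rw [sub_self]; exact dvd_zero _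
    · rw [sub_zero]; exact hbig k (by omega)

end Pool.Agent.H45R3.MB
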