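import Pool.Agent.H45R3.MB.Comp2

/-!
# Groups acting on Noetherian modules over polynomial rings, described by polynomial matrices
-/

namespace Pool.Agent.H45R3.MB

open Submodule

/-- A component: matrices over an integral polynomial ring, with a prime `p`, a denominator `D`
not divisible by `p`, and column types. -/
structure CompData (I : Type) where
  J : ℕ
  t : ℕ
  p : ℕ
  hp : p.Prime
  D : MvPolynomial (Fin J) ℤ
  hD : ¬ (MvPolynomial.C (p : ℤ)) ∣ D
  X : I → Matrix (Fin t) (Fin t) (MvPolynomial (Fin J) ℤ)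
  ty : Fin t → Option ℕ
  compat : ∀ a i l f, Tr (MvPolynomial.C (p : ℤ)) (ty i) f →
    Tr (MvPolynomial.C (p : ℤ)) (ty l) (f * X a i l)

/-- The word acts trivially on the component. -/
def CompData.triv {I : Type} (c : CompData I) (w : List I) : Prop :=
  ∀ i l, Tr (MvPolynomial.C (c.p : ℤ)) (c.ty l) (((w.map c.X).prod -
    c.D ^ w.length • (1 : Matrix (Fin c.t) (Fin c.t) (MvPolynomial (Fin c.J) ℤ))) i l)

theorem exists_prime_not_dvd {J : ℕ} (D : MvPolynomial (Fin J) ℤ) (hD : D ≠ 0) :
    ∃ p : ℕ, p.Prime ∧ ¬ (MvPolynomial.C (p : ℤ)) ∣ D := by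
  obtain ⟨m, hm⟩ := MvPolynomial.ne_zero_iff.1 hD
  obtain ⟨p, hpge, hpp⟩ := Nat.exists_infinite_primes ((D.coeff m).natAbs + 1)
  refine ⟨p, hpp, fun h => ?_⟩
  rw [MvPolynomial.C_dvd_iff_dvd_coeff] at h
  have h1 := Int.natAbs_dvd_natAbs.2 (h m)
  rw [Int.natAbs_natCast] at h1
  have h2 := Nat.le_of_dvd (Int.natAbs_pos.2 hm) h1
  omega

open MvPolynomial in
theorem comp_core {ι I : Type} [Finite ι] [Finite I] (M : Type) [AddCommGroup M]
    [Module (MvPolynomial ι ℤ) M] [Module.Finite (MvPolynomial ι ℤ) M]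
    (P : Ideal (MvPolynomial ι ℤ)) [hP : P.IsPrime] (k : ℕ) (hk : ∀ f ∈ P ^ k, ∀ m : M, f • m = 0)
    (T : I → Module.End (MvPolynomial ι ℤ) M) :
    ∃ c : CompData I, (∀ w, actR T w = 1 → c.triv w) ∧
      ∀ w, c.triv w → ∀ x : M, ∃ σ : MvPolynomial ι ℤ, σ ∉ P ∧ σ • (actR T w x - x) = 0 := by
  classical
  obtain ⟨π, J, e, hπ, hmem, hrel⟩ := noether P
  set θ : MvPolynomial (Fin J) ℤ →+* MvPolynomial ι ℤ :=
    (rename e : MvPolynomial (Fin J) ℤ →ₐ[ℤ] MvPolynomial ι ℤ).toRingHom with hθ
  have hθC : ∀ z : ℤ, θ (C z) = C z := fun z => rename_C e z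
  have hmem' : ∀ f, θ f ∈ P ↔ C (π : ℤ) ∣ f := hmem
  letI : Module (MvPolynomial (Fin J) ℤ) M := Module.compHom M θ
  have hsm : ∀ (f : MvPolynomial (Fin J) ℤ) (m : M), f • m = θ f • m := fun _ _ => rfl
  have hq : Ideal.span {(C (π : ℤ) : MvPolynomial (Fin J) ℤ)} = P.comap θ := by
    ext f
    rw [Ideal.mem_span_singleton, Ideal.mem_comap, hmem']
  haveI hqp : (Ideal.span {(C (π : ℤ) : MvPolynomial (Fin J) ℤ)}).IsPrime := by
    rw [hq]; exact Ideal.comap_isPrime _ _
  let Y : ι → Module.End (MvPolynomial (Fin J) ℤ) M := fun a =>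
    { toFun := fun m => (X a : MvPolynomial ι ℤ) • m
      map_add' := fun x y => smul_add _ _ _
      map_smul' := fun c x => by
        simp only [hsm, RingHom.id_apply]
        rw [smul_smul, smul_smul, mul_comm] }
  have hYa : ∀ a m, Y a m = (X a : MvPolynomial ι ℤ) • m := fun _ _ => rfl
  have hYc : ∀ a b, Commute (Y a) (Y b) := by
    intro a b
    apply LinearMap.ext
    intro m
    rw [Module.End.mul_apply, Module.End.mul_apply, hYa, hYa, hYa, hYa, smul_smul, smul_smul,
      mul_comm]
  have haev : ∀ a (g : Polynomial (MvPolynomial (Fin J) ℤ)) (m : M),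
      Polynomial.aeval (Y a) g m = g.eval₂ θ (X a) • m := by
    intro a g m
    induction g using Polynomial.induction_on' with
    | add p q hp hq =>
      rw [map_add, LinearMap.add_apply, hp, hq, Polynomial.eval₂_add, add_smul]
    | monomial n c =>
      rw [Polynomial.aeval_monomial, Polynomial.eval₂_monomial, Module.End.mul_apply,
        Module.algebraMap_end_apply, hsm, mul_smul]
      congr 1
      clear c
      induction n with
      | zero => simp
      | succ n ih => rw [pow_succ', Module.End.mul_apply, ih, hYa, pow_succ', mul_smul]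
  have hY : ∀ a, ∃ h : Polynomial (MvPolynomial (Fin J) ℤ),
      h.leadingCoeff ∈ (Ideal.span {(C (π : ℤ) : MvPolynomial (Fin J) ℤ)}).primeCompl ∧
      Polynomial.aeval (Y a) h = 0 := by
    intro a
    obtain ⟨h, h1, h2⟩ := hrel a
    refine ⟨h ^ k, ?_, ?_⟩
    · rw [Polynomial.leadingCoeff_pow]
      refine Submonoid.pow_mem _ ?_ k
      intro h3
      exact h1 (Ideal.mem_span_singleton.1 h3)
    · apply LinearMap.ext
      intro m
      rw [haev, Polynomial.eval₂_pow, LinearMap.zero_apply]
      exact hk _ (Ideal.pow_mem_pow h2 k) m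
  obtain ⟨B, hB⟩ := (Module.Finite.fg_top : (⊤ : Submodule (MvPolynomial ι ℤ) M).FG)
  have hfin := localized_finite
    (Ideal.span {(C (π : ℤ) : MvPolynomial (Fin J) ℤ)}).primeCompl M Y hYc hY (B : Set M)
    B.finite_toSet (by
      intro N hBN hst
      have key : ∀ (f : MvPolynomial ι ℤ) (v : M), v ∈ N → f • v ∈ N := by
        intro f
        induction f using MvPolynomial.induction_on with
        | C z =>
          intro v hv
          have := N.smul_mem (C z) hv
          rwa [hsm, hθC] at this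
        | add p q hp hq =>
          intro v hv
          rw [add_smul]
          exact N.add_mem (hp v hv) (hq v hv)
        | mul_X p a hp =>
          intro v hv
          rw [mul_smul]
          exact hp _ (hst a v hv)
      rw [eq_top_iff]
      intro v _
      have hv : v ∈ span (MvPolynomial ι ℤ) (B : Set M) := by rw [hB]; trivial
      induction hv using Submodule.span_induction with
      | mem x hx => exact hBN hx
      | zero => exact N.zero_mem
      | add x y _ _ hx hy => exact N.add_mem (hx trivial) (hy trivial)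
      | smul f x _ hx => exact key f x (hx trivial))
  let T' : I → Module.End (MvPolynomial (Fin J) ℤ) M := fun g =>
    { toFun := fun m => T g m
      map_add' := fun x y => map_add _ _ _
      map_smul' := fun c x => by
        simp only [hsm, RingHom.id_apply]
        rw [map_smul] }
  have hT' : ∀ w m, actR T' w m = actR T w m := by
    intro w
    induction w with
    | nil => intro m; rfl
    | cons a w ih => intro m; exact ih (T a m)
  obtain ⟨t, ty, D, Xm, h1, h2, h3, h4⟩ := comp_matrices (C (π : ℤ) : MvPolynomial (Fin J) ℤ)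
    (LocalizedModule (Ideal.span {(C (π : ℤ) : MvPolynomial (Fin J) ℤ)}).primeCompl M)
    (fun g => LocalizedModule.map _ (T' g))
  have hL : ∀ w m s, actR (fun g => LocalizedModule.map
      (Ideal.span {(C (π : ℤ) : MvPolynomial (Fin J) ℤ)}).primeCompl (T' g)) w
      (LocalizedModule.mk m s) = LocalizedModule.mk (actR T w m) s := by
    intro w
    induction w with
    | nil => intro m s; rfl
    | cons a w ih =>
      intro m s
      refine Eq.trans ?_ (ih (T a m) s)
      rw [actR, Module.End.mul_apply, LocalizedModule.map_mk]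
      rfl
  have hD0 : D ≠ 0 := by
    rintro rfl
    exact h1 (dvd_zero _)
  -- the prime
  obtain ⟨p, hpp, hpD, hpT⟩ : ∃ p : ℕ, p.Prime ∧ ¬ (C (p : ℤ)) ∣ D ∧
      ∀ l f, Tr (C (p : ℤ) : MvPolynomial (Fin J) ℤ) (ty l) f ↔
        Tr (C (π : ℤ) : MvPolynomial (Fin J) ℤ) (ty l) f := by
    rcases hπ with h0 | hpr
    · obtain ⟨p, hp1, hp2⟩ := exists_prime_not_dvd D hD0
      refine ⟨p, hp1, hp2, fun l f => ?_⟩
      have h5 : ty l = none := by
        by_contra hne
        apply h4 l hne
        rw [h0]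
        simp
      rw [h5]
      exact Iff.rfl
    · exact ⟨π, hpr, h1, fun l f => Iff.rfl⟩
  refine ⟨⟨J, t, p, hpp, D, hpD, Xm, ty, ?_⟩, ?_, ?_⟩
  · intro a i l f hf
    rw [hpT] at hf ⊢
    exact h2 a i l f hf
  · intro w hw i l
    change Tr (C (p : ℤ)) (ty l) (((w.map Xm).prod -
      D ^ w.length • (1 : Matrix (Fin t) (Fin t) (MvPolynomial (Fin J) ℤ))) i l)
    rw [hpT]
    refine (h3 w).1 ?_ i l
    apply LinearMap.ext
    intro x
    induction x using LocalizedModule.induction_on with
    | _ m s => rw [hL, hw]; rfl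
  · intro w hw x
    have h5 : actR (fun g => LocalizedModule.map
        (Ideal.span {(C (π : ℤ) : MvPolynomial (Fin J) ℤ)}).primeCompl (T' g)) w = 1 := by
      rw [h3]
      intro i l
      rw [← hpT]
      exact hw i l
    have h6 := hL w x 1
    rw [h5] at h6
    have h7 : LocalizedModule.mk (actR T w x)
      (1 : (Ideal.span {(C (π : ℤ) : MvPolynomial (Fin J) ℤ)}).primeCompl) =
      LocalizedModule.mk x 1 := h6.symm
    obtain ⟨u, hu⟩ := LocalizedModule.mk_eq.1 h7
    rw [one_smul, one_smul] at hu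
    refine ⟨θ u.1, ?_, ?_⟩
    · intro h8
      exact u.2 (Ideal.mem_span_singleton.2 ((hmem' _).1 h8))
    · rw [smul_sub, sub_eq_zero]
      exact hu

theorem comp_of_primary {ι I : Type} [Finite ι] [Finite I] (W : Type) [AddCommGroup W]
    [Module (MvPolynomial ι ℤ) W] [Module.Finite (MvPolynomial ι ℤ) W]
    (T : I → Module.End (MvPolynomial ι ℤ) W) (q : Submodule (MvPolynomial ι ℤ) W)
    (hq : q.IsPrimary) :
    ∃ c : CompData I, (∀ w, actR T w = 1 → c.triv w) ∧
      ∀ w, c.triv w → ∀ x : W, actR T w x - x ∈ q := by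
  haveI hP : ((q.colon Set.univ).radical).IsPrime := hq.isPrime_radical_colon
  obtain ⟨k, hk⟩ := Ideal.exists_radical_pow_le_of_fg (q.colon Set.univ)
    ((isNoetherianRing_iff_ideal_fg _).1 inferInstance _)
  set P := (q.colon Set.univ).radical with hPdef
  let U : Submodule (MvPolynomial ι ℤ) W := (P ^ k) • (⊤ : Submodule (MvPolynomial ι ℤ) W)
  have hU : ∀ g, U ≤ U.comap (T g) := by
    intro g
    rw [← Submodule.map_le_iff_le_comap]
    change ((P ^ k) • (⊤ : Submodule (MvPolynomial ι ℤ) W)).map (T g) ≤ _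
    rw [Submodule.map_smul'']
    exact Submodule.smul_mono le_rfl le_top
  let T' : I → Module.End (MvPolynomial ι ℤ) (W ⧸ U) := fun g => U.mapQ U (T g) (hU g)
  obtain ⟨c, h1, h2⟩ := comp_core (W ⧸ U) P k (by
    intro f hf m
    obtain ⟨x, rfl⟩ := U.mkQ_surjective m
    rw [← map_smul, Submodule.mkQ_apply, Submodule.Quotient.mk_eq_zero]
    exact Submodule.smul_mem_smul hf trivial) T'
  have hT' : ∀ w x, actR T' w (U.mkQ x) = U.mkQ (actR T w x) := by
    intro w
    induction w with
    | nil => intro m; rfl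
    | cons a w ih => intro m; exact ih (T a m)
  refine ⟨c, ?_, ?_⟩
  · intro w hw
    apply h1
    apply LinearMap.ext
    intro m
    obtain ⟨x, rfl⟩ := U.mkQ_surjective m
    rw [hT', hw]
    rfl
  · intro w hw x
    obtain ⟨σ, hσ, hx⟩ := h2 w hw (U.mkQ x)
    rw [hT', ← map_sub, ← map_smul, Submodule.mkQ_apply, Submodule.Quotient.mk_eq_zero] at hx
    have h3 : σ • (actR T w x - x) ∈ q := by
      have h4 : U ≤ q := by
        refine Submodule.smul_le.2 fun r hr n _ => ?_
        exact Submodule.mem_colon.1 (hk hr) n trivial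
      exact h4 hx
    exact (hq.mem_or_mem h3).resolve_right hσ

/-- Every finite family of endomorphisms of a finitely generated module over an integral polynomial
ring is described, as far as the relations between them are concerned, by finitely many
components. -/
theorem exists_comps {ι I : Type} [Finite ι] [Finite I] (W : Type) [AddCommGroup W]
    [Module (MvPolynomial ι ℤ) W] [Module.Finite (MvPolynomial ι ℤ) W]
    (T : I → Module.End (MvPolynomial ι ℤ) W) :
    ∃ cs : List (CompData I), ∀ w, actR T w = 1 ↔ ∀ c ∈ cs, c.triv w := by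
  classical
  obtain ⟨s, hs, hprim⟩ := Submodule.isLasker (MvPolynomial ι ℤ) W (⊥ : Submodule _ W)
  have h1 : ∀ q : {q // q ∈ s}, ∃ c : CompData I, (∀ w, actR T w = 1 → c.triv w) ∧
      ∀ w, c.triv w → ∀ x : W, actR T w x - x ∈ q.1 := fun q =>
    comp_of_primary W T q.1 (hprim q.2)
  choose c hc1 hc2 using h1
  refine ⟨s.attach.toList.map c, fun w => ?_⟩
  constructor
  · intro hw c' hc'
    rw [List.mem_map] at hc'
    obtain ⟨q, _, rfl⟩ := hc'
    exact hc1 q w hw
  · intro h
    apply LinearMap.ext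
    intro x
    rw [Module.End.one_apply, ← sub_eq_zero, ← Submodule.mem_bot (MvPolynomial ι ℤ), ← hs,
      Submodule.mem_finsetInf]
    intro q hq
    exact hc2 ⟨q, hq⟩ w (h _ (List.mem_map.2 ⟨⟨q, hq⟩, by simp, rfl⟩)) x

end Pool.Agent.H45R3.MB
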