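import Pool.Agent.H45R3.MB.Comp3

/-!
# The group ring of a finite cyclic group and Kronecker substitution
-/

namespace Pool.Agent.H45R3.MB

open AddMonoidAlgebra (single)

/-- The integral group ring of the cyclic group of order `d`. -/
abbrev EE (d : ℕ) : Type := AddMonoidAlgebra ℤ (ZMod d)

theorem coeff_natCast_mul {d : ℕ} (n : ℕ) (x : EE d) (g : ZMod d) :
    (((n : EE d) * x).coeff g) = n * x.coeff g := by
  rw [← nsmul_eq_mul, AddMonoidAlgebra.coeff_smul_apply, nsmul_eq_mul]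

theorem natCast_dvd_iff {d : ℕ} [NeZero d] (n : ℕ) (x : EE d) :
    ((n : EE d) ∣ x) ↔ ∀ g, (n : ℤ) ∣ x.coeff g := by
  constructor
  · rintro ⟨y, rfl⟩ g
    rw [coeff_natCast_mul]
    exact dvd_mul_right _ _
  · intro h
    choose y hy using h
    refine ⟨AddMonoidAlgebra.ofCoeff (Finsupp.equivFunOnFinite.symm y), ?_⟩
    apply AddMonoidAlgebra.ext
    ext g
    rw [coeff_natCast_mul, hy g]
    rfl

/-- Cancellation. -/
theorem dvd_of_pow_mul_dvd {d : ℕ} [NeZero d] {p : ℕ} (hp : 0 < p) (k : ℕ) (x : EE d)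
    (h : ((p : EE d) ^ (k + 1)) ∣ (p : EE d) ^ k * x) : (p : EE d) ∣ x := by
  rw [natCast_dvd_iff]
  intro g
  have h1 : (((p ^ (k + 1) : ℕ) : EE d)) ∣ ((p ^ k : ℕ) : EE d) * x := by push_cast; exact h
  rw [natCast_dvd_iff] at h1
  have h2 := h1 g
  rw [coeff_natCast_mul] at h2
  push_cast at h2
  rw [pow_succ] at h2
  have hp' : (0 : ℤ) < (p : ℤ) ^ k := by positivity
  exact Int.dvd_of_mul_dvd_mul_left hp'.ne' h2

section Reduced

variable {p d : ℕ} [Fact p.Prime] [NeZero d]

instance : ExpChar (AddMonoidAlgebra (ZMod p) (ZMod d)) p :=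
  expChar_of_injective_algebraMap
    (algebraMap (ZMod p) (AddMonoidAlgebra (ZMod p) (ZMod d))).injective p

theorem frob_eq : (frobenius (AddMonoidAlgebra (ZMod p) (ZMod d)) p) =
    AddMonoidAlgebra.mapDomainRingHom (ZMod p) (nsmulAddMonoidHom p : ZMod d →+ ZMod d) := by
  apply AddMonoidAlgebra.ringHom_ext
  · intro r
    rw [frobenius_def, AddMonoidAlgebra.single_pow, ZMod.pow_card]
    simp [AddMonoidAlgebra.mapDomainRingHom]
  · intro g
    rw [frobenius_def, AddMonoidAlgebra.single_pow, one_pow]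
    simp [AddMonoidAlgebra.mapDomainRingHom]

theorem nsmul_inj (hpd : Nat.Coprime p d) :
    Function.Injective (nsmulAddMonoidHom p : ZMod d →+ ZMod d) := by
  intro x y hxy
  have h1 : (p : ZMod d) * x = p * y := by simpa using hxy
  exact ((ZMod.isUnit_iff_coprime p d).2 hpd).mul_left_cancel h1

theorem pow_p_eq_zero (hpd : Nat.Coprime p d) (x : AddMonoidAlgebra (ZMod p) (ZMod d))
    (h : x ^ p = 0) : x = 0 := by
  have h1 : frobenius (AddMonoidAlgebra (ZMod p) (ZMod d)) p x = 0 := h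
  rw [frob_eq] at h1
  have h2 : AddMonoidAlgebra.mapDomain (R := ZMod p)
      (nsmulAddMonoidHom p : ZMod d →+ ZMod d) x =
      AddMonoidAlgebra.mapDomain (nsmulAddMonoidHom p : ZMod d →+ ZMod d) 0 := by
    rw [AddMonoidAlgebra.mapDomain_zero]
    exact h1
  exact AddMonoidAlgebra.mapDomain_injective (nsmul_inj hpd) h2

theorem reduced_mod (hpd : Nat.Coprime p d) (x : AddMonoidAlgebra (ZMod p) (ZMod d)) (n : ℕ)
    (h : x ^ n = 0) : x = 0 := by
  have hp : p.Prime := Fact.out
  have h1 : ∀ m : ℕ, ∀ y : AddMonoidAlgebra (ZMod p) (ZMod d), y ^ (p ^ m) = 0 → y = 0 := by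
    intro m
    induction m with
    | zero => intro y hy; simpa using hy
    | succ m ih =>
      intro y hy
      rw [pow_succ, pow_mul] at hy
      exact ih y (pow_p_eq_zero hpd _ hy)
  apply h1 n
  have h2 : n ≤ p ^ n := (Nat.lt_pow_self hp.one_lt).le
  rw [← Nat.sub_add_cancel h2, pow_add, h, mul_zero]

theorem dvd_of_pow_dvd (hpd : Nat.Coprime p d) (x : EE d) (n : ℕ)
    (h : (p : EE d) ∣ x ^ n) : (p : EE d) ∣ x := by
  let red : EE d →+* AddMonoidAlgebra (ZMod p) (ZMod d) :=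
    AddMonoidAlgebra.mapRingHom (ZMod d) (Int.castRingHom (ZMod p))
  have hred : ∀ y : EE d, red y = 0 ↔ (p : EE d) ∣ y := by
    intro y
    rw [natCast_dvd_iff, ← AddMonoidAlgebra.coeff_eq_zero]
    constructor
    · intro h g
      have h1 := congrArg (fun f => f g) h
      rw [← ZMod.intCast_zmod_eq_zero_iff_dvd] 
      simpa [red] using h1
    · intro h
      ext g
      have h1 := h g
      rw [← ZMod.intCast_zmod_eq_zero_iff_dvd] at h1
      simpa [red] using h1
  rw [← hred] at h ⊢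
  rw [map_pow] at h
  exact reduced_mod hpd _ n h

end Reduced

/-- Kronecker substitution: the variable `j` goes to the `s ^ j`-th power of the generator. -/
noncomputable def kron (J s d : ℕ) : MvPolynomial (Fin J) ℤ →+* EE d :=
  MvPolynomial.eval₂Hom (Int.castRingHom _) (fun j => single (((s ^ (j : ℕ) : ℕ)) : ZMod d) 1)

/-- The exponent of a monomial under Kronecker substitution. -/
def kexp {J : ℕ} (s : ℕ) (m : Fin J →₀ ℕ) : ℕ := ∑ j, m j * s ^ (j : ℕ)

theorem kron_monomial (J s d : ℕ) (m : Fin J →₀ ℕ) (c : ℤ) :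
    kron J s d (MvPolynomial.monomial m c) = single ((kexp s m : ℕ) : ZMod d) c := by
  unfold kron kexp
  rw [MvPolynomial.eval₂Hom_monomial]
  have h1 : (m.prod fun i k => (single (((s ^ (i : ℕ) : ℕ)) : ZMod d) (1 : ℤ)) ^ k) =
      single (((∑ j, m j * s ^ (j : ℕ) : ℕ)) : ZMod d) 1 := by
    rw [Finsupp.prod_fintype _ _ (fun i => pow_zero _)]
    simp_rw [AddMonoidAlgebra.single_pow, one_pow]
    rw [AddMonoidAlgebra.prod_single]
    simp
  rw [h1]
  change (((c : ℤ) : EE d)) * _ = _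
  rw [AddMonoidAlgebra.intCast_def, AddMonoidAlgebra.single_mul_single]
  simp

theorem kron_coeff (J s d : ℕ) (f : MvPolynomial (Fin J) ℤ) (g : ZMod d) :
    (kron J s d f).coeff g =
      ∑ m ∈ f.support, if ((kexp s m : ℕ) : ZMod d) = g then f.coeff m else 0 := by
  conv_lhs => rw [f.as_sum, map_sum]
  rw [AddMonoidAlgebra.coeff_sum, Finsupp.finsetSum_apply]
  refine Finset.sum_congr rfl fun m _ => ?_
  rw [kron_monomial, AddMonoidAlgebra.coeff_single, Finsupp.single_apply]

theorem kexp_inj {J s : ℕ} {m m' : Fin J →₀ ℕ} (hm : ∀ j, m j < s) (hm' : ∀ j, m' j < s)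
    (h : kexp s m = kexp s m') : m = m' := by
  let f : Fin J → Fin s := fun j => ⟨m j, hm j⟩
  let f' : Fin J → Fin s := fun j => ⟨m' j, hm' j⟩
  have h1 : finFunctionFinEquiv f = finFunctionFinEquiv f' := by
    apply Fin.ext
    rw [finFunctionFinEquiv_apply_val, finFunctionFinEquiv_apply_val]
    exact h
  have h2 := finFunctionFinEquiv.injective h1
  ext j
  have h3 := congrArg Fin.val (congrFun h2 j)
  exact h3

theorem kexp_lt {J s : ℕ} {m : Fin J →₀ ℕ} (hm : ∀ j, m j < s) : kexp s m < s ^ J := by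
  let f : Fin J → Fin s := fun j => ⟨m j, hm j⟩
  have h1 := (finFunctionFinEquiv f).2
  rw [finFunctionFinEquiv_apply_val] at h1
  exact h1

theorem kron_dvd {J s d p : ℕ} [NeZero d] (hd : s ^ J ≤ d) (f : MvPolynomial (Fin J) ℤ)
    (hf : ∀ m ∈ f.support, ∀ j, m j < s) (h : (p : EE d) ∣ kron J s d f) :
    MvPolynomial.C (p : ℤ) ∣ f := by
  classical
  rw [MvPolynomial.C_dvd_iff_dvd_coeff]
  intro m
  by_cases hm : m ∈ f.support
  · rw [natCast_dvd_iff] at h
    have h1 := h ((kexp s m : ℕ) : ZMod d)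
    rw [kron_coeff, Finset.sum_eq_single m] at h1
    · simpa using h1
    · intro m' hm' hne
      rw [if_neg]
      intro h2
      apply hne
      apply kexp_inj (hf m' hm') (hf m hm)
      have h3 := (ZMod.natCast_eq_natCast_iff' _ _ d).1 h2
      rwa [Nat.mod_eq_of_lt ((kexp_lt (hf m' hm')).trans_le hd),
        Nat.mod_eq_of_lt ((kexp_lt (hf m hm)).trans_le hd)] at h3
    · intro h2
      exact absurd hm h2
  · rw [MvPolynomial.notMem_support_iff] at hm
    rw [hm]
    exact dvd_zero _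

end Pool.Agent.H45R3.MB
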