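import Pool.Agent.H45R3.MB.TM2Out
import Pool.Agent.H45R3.AC.TM

/-!
# Simulating a multitape Turing machine by a multi-stack machine
-/

namespace Pool.Agent.H45R3.MB

open Turing
open Pool.Agent.H45R3.AC
open Function (update)

section

variable {k : ℕ} (M : MTM k)

/-- Stack alphabets. -/
abbrev GS (_ : Fin (k + 1) × Bool) : Type := M.Γ

/-- Registers. -/
abbrev RS : Type := (Fin k → M.Γ) × M.Γ × Bool

/-- Statements. -/
abbrev SS : Type := TM2.Stmt (GS M) M.Q (RS M)

/-- The contents of the stacks. -/
abbrev ST : Type := ∀ j : Fin (k + 1) × Bool, List (GS M j)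

variable {M}

/-- The tape coded by the stacks. -/
def tp (S : ST M) (i : Fin k) : Tape M.Γ :=
  Tape.mk' (ListBlank.mk (S (i.castSucc, false))) (ListBlank.mk (S (i.castSucc, true)))

theorem headI_eq (l : List M.Γ) : l.head?.getD default = l.headI := by
  cases l <;> rfl

theorem tp_head (S : ST M) (i : Fin k) :
    (tp S i).head = (S (i.castSucc, true)).head?.getD default := by
  rw [headI_eq]
  rfl

/-- Reading all the heads. -/
def ph1 : List (Fin k) → SS M → SS M
  | [], s => s
  | i :: l, s => TM2.Stmt.peek (Γ := GS M) (i.castSucc, true)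
      (fun v a => (update v.1 i (a.getD default), v.2)) (ph1 l s)

theorem ph1_aux (s : SS M) (S : ST M) : ∀ (l : List (Fin k)) (v : RS M),
    ∃ v', TM2.stepAux (ph1 l s) v S = TM2.stepAux s v' S ∧ (∀ i ∈ l, v'.1 i = (tp S i).head) ∧
      ∀ i ∉ l, v'.1 i = v.1 i := by
  intro l
  induction l with
  | nil => intro v; exact ⟨v, rfl, by simp, by simp⟩
  | cons i l ih =>
    intro v
    obtain ⟨v', h1, h2, h3⟩ := ih (update v.1 i ((S (i.castSucc, true)).head?.getD default), v.2)
    refine ⟨v', h1, ?_, ?_⟩
    · intro j hj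
      by_cases hjl : j ∈ l
      · exact h2 j hjl
      · have hji : j = i := by
          rcases List.mem_cons.1 hj with h | h
          · exact h
          · exact absurd h hjl
        subst hji
        rw [h3 j hjl, tp_head]
        exact Function.update_self _ _ _
    · intro j hj
      rw [List.mem_cons, not_or] at hj
      rw [h3 j hj.2]
      exact Function.update_of_ne hj.1 _ _

/-- Writing and moving on one tape. -/
def tapeOp (δv : (Fin k → M.Γ) → Fin k → M.Γ × Option Dir) (i : Fin k) (s : SS M) : SS M :=
  TM2.Stmt.pop (Γ := GS M) (i.castSucc, true) (fun v _ => v)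
    (TM2.Stmt.branch (fun v => decide ((δv v.1 i).2 = some Dir.left))
      (TM2.Stmt.push (Γ := GS M) (i.castSucc, true) (fun v => (δv v.1 i).1)
        (TM2.Stmt.pop (Γ := GS M) (i.castSucc, false)
          (fun v a => (v.1, a.getD default, v.2.2))
          (TM2.Stmt.push (Γ := GS M) (i.castSucc, true) (fun v => v.2.1) s)))
      (TM2.Stmt.branch (fun v => decide ((δv v.1 i).2 = some Dir.right))
        (TM2.Stmt.push (Γ := GS M) (i.castSucc, false) (fun v => (δv v.1 i).1) s)
        (TM2.Stmt.push (Γ := GS M) (i.castSucc, true) (fun v => (δv v.1 i).1) s)))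

theorem tapeOp_aux (δv : (Fin k → M.Γ) → Fin k → M.Γ × Option Dir) (i : Fin k) (s : SS M)
    (v : RS M) (S : ST M) : ∃ v' S', TM2.stepAux (tapeOp δv i s) v S = TM2.stepAux s v' S' ∧
      v'.1 = v.1 ∧ tp S' i = MTM.moveOpt (δv v.1 i).2 ((tp S i).write (δv v.1 i).1) ∧
      ∀ j, j ≠ i → ∀ b, S' (j.castSucc, b) = S (j.castSucc, b) := by
  have hne : ∀ j, j ≠ i → ∀ b b', ((j.castSucc, b) : Fin (k + 1) × Bool) ≠ (i.castSucc, b') := by
    intro j hj b b' h
    exact hj (Fin.castSucc_injective _ (congrArg Prod.fst h))
  have hft : ((i.castSucc, false) : Fin (k + 1) × Bool) ≠ (i.castSucc, true) := by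
    intro h
    exact Bool.false_ne_true (congrArg Prod.snd h)
  unfold tapeOp
  simp only [TM2.stepAux]
  rcases hd : (δv v.1 i).2 with _ | d
  · refine ⟨v, update (update S (i.castSucc, true) (S (i.castSucc, true)).tail)
      (i.castSucc, true) ((δv v.1 i).1 :: update S (i.castSucc, true) (S (i.castSucc, true)).tail
        (i.castSucc, true)), ?_, rfl, ?_, ?_⟩
    · simp
    · unfold tp
      rw [Tape.write_mk', Function.update_self, Function.update_self,
        Function.update_of_ne hft, Function.update_of_ne hft, ListBlank.tail_mk,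
        ListBlank.cons_mk]
      rfl
    · intro j hj b
      rw [Function.update_of_ne (hne j hj _ _), Function.update_of_ne (hne j hj _ _)]
  · cases d with
    | left =>
      refine ⟨(v.1, (S (i.castSucc, false)).head?.getD default, v.2.2),
        update (update (update S (i.castSucc, true)
          ((δv v.1 i).1 :: (S (i.castSucc, true)).tail)) (i.castSucc, false)
          (S (i.castSucc, false)).tail) (i.castSucc, true)
          ((S (i.castSucc, false)).head?.getD default ::
            ((δv v.1 i).1 :: (S (i.castSucc, true)).tail)), ?_, rfl, ?_, ?_⟩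
      · simp [hft, hft.symm]
      · unfold tp
        rw [Tape.write_mk', Function.update_self, Function.update_of_ne hft,
          Function.update_self, headI_eq]
        unfold MTM.moveOpt
        simp only
        rw [Tape.move_left_mk', ListBlank.tail_mk, ListBlank.tail_mk, ListBlank.cons_mk,
          ListBlank.head_mk, ListBlank.cons_mk]
      · intro j hj b
        rw [Function.update_of_ne (hne j hj _ _), Function.update_of_ne (hne j hj _ _),
          Function.update_of_ne (hne j hj _ _)]
    | right =>
      refine ⟨v, update (update S (i.castSucc, true) (S (i.castSucc, true)).tail)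
        (i.castSucc, false) ((δv v.1 i).1 :: S (i.castSucc, false)), ?_, rfl, ?_, ?_⟩
      · simp [hft]
      · unfold tp
        rw [Tape.write_mk', Function.update_self, Function.update_of_ne hft.symm,
          Function.update_self]
        unfold MTM.moveOpt
        simp only
        rw [Tape.move_right_mk', ListBlank.tail_cons, ListBlank.head_cons, ListBlank.tail_mk,
          ListBlank.cons_mk]
      · intro j hj b
        rw [Function.update_of_ne (hne j hj _ _), Function.update_of_ne (hne j hj _ _)]

/-- Writing and moving on all tapes. -/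
def ph2 (δv : (Fin k → M.Γ) → Fin k → M.Γ × Option Dir) : List (Fin k) → SS M → SS M
  | [], s => s
  | i :: l, s => tapeOp δv i (ph2 δv l s)

theorem ph2_aux (δv : (Fin k → M.Γ) → Fin k → M.Γ × Option Dir) (s : SS M) :
    ∀ (l : List (Fin k)), l.Nodup → ∀ (v : RS M) (S : ST M),
    ∃ v' S', TM2.stepAux (ph2 δv l s) v S = TM2.stepAux s v' S' ∧ v'.1 = v.1 ∧
      (∀ i ∈ l, tp S' i = MTM.moveOpt (δv v.1 i).2 ((tp S i).write (δv v.1 i).1)) ∧
      ∀ i ∉ l, ∀ b, S' (i.castSucc, b) = S (i.castSucc, b) := by
  intro l
  induction l with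
  | nil => intro _ v S; exact ⟨v, S, rfl, rfl, by simp, by simp⟩
  | cons i l ih =>
    intro hl v S
    rw [List.nodup_cons] at hl
    obtain ⟨v1, S1, h1, h2, h3, h4⟩ := tapeOp_aux δv i (ph2 δv l s) v S
    obtain ⟨v2, S2, g1, g2, g3, g4⟩ := ih hl.2 v1 S1
    refine ⟨v2, S2, h1.trans g1, g2.trans h2, ?_, ?_⟩
    · intro j hj
      by_cases hji : j = i
      · subst hji
        have e : tp S2 j = tp S1 j := by
          unfold tp
          rw [g4 j hl.1, g4 j hl.1]
        rw [e, h3]
      · have hjl : j ∈ l := by
          rcases List.mem_cons.1 hj with h | h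
          · exact absurd h hji
          · exact h
        have e : tp S1 j = tp S j := by
          unfold tp
          rw [h4 j hji, h4 j hji]
        rw [g3 j hjl, h2, e]
    · intro j hj b
      rw [List.mem_cons, not_or] at hj
      rw [g4 j hj.2, h4 j hj.1]

open Classical in
/-- The simulating machine. -/
noncomputable def simM (M : MTM k) (q : M.Q) : SS M :=
  if q = M.accept then TM2.Stmt.load (fun v => (v.1, v.2.1, true)) TM2.Stmt.halt
  else if q = M.reject then TM2.Stmt.load (fun v => (v.1, v.2.1, false)) TM2.Stmt.halt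
  else ph1 (List.finRange k) (ph2 (fun h => (M.δ q h).2) (List.finRange k)
    (TM2.Stmt.goto fun v => (M.δ q v.1).1))

theorem simM_step (c : M.Cfg) (hc : ¬ M.Halted c) (v : RS M) (S : ST M)
    (hS : ∀ i, tp S i = c.tape i) : ∃ v' S',
      TM2.step (simM M) ⟨some c.q, v, S⟩ = some ⟨some (M.next c).q, v', S'⟩ ∧
      ∀ i, tp S' i = (M.next c).tape i := by
  have h1 : c.q ≠ M.accept := fun h => hc (Or.inl h)
  have h2 : c.q ≠ M.reject := fun h => hc (Or.inr h)
  obtain ⟨v1, g1, g2, -⟩ := ph1_aux (ph2 (fun h => (M.δ c.q h).2) (List.finRange k)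
    (TM2.Stmt.goto fun v => (M.δ c.q v.1).1)) S (List.finRange k) v
  obtain ⟨v2, S2, f1, f2, f3, -⟩ := ph2_aux (fun h => (M.δ c.q h).2)
    (TM2.Stmt.goto fun v => (M.δ c.q v.1).1) (List.finRange k) (List.nodup_finRange k) v1 S
  have hv1 : v1.1 = fun i => (c.tape i).head := by
    funext i
    rw [g2 i (List.mem_finRange i), hS]
  refine ⟨v2, S2, ?_, ?_⟩
  · change some (TM2.stepAux (simM M c.q) v S) = _
    rw [simM, if_neg h1, if_neg h2, g1, f1]
    simp only [TM2.stepAux]
    rw [f2, hv1]
    rfl
  · intro i
    rw [f3 i (List.mem_finRange i), hv1, hS]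
    rfl

theorem simM_iterate (x : List M.Γ) (iQ : Inhabited M.Q) (hQ : iQ.default = M.start)
    (iR : Inhabited (RS M)) (t : ℕ) (ht : ∀ j < t, ¬ M.Halted (M.next^[j] (M.init x))) :
    ∃ v S, (fun d : Option (TM2.Cfg (GS M) M.Q (RS M)) => d.bind (TM2.step (simM M)))^[t]
      (some (TM2.init (0, true) x)) = some ⟨some (M.next^[t] (M.init x)).q, v, S⟩ ∧
      ∀ i, tp S i = (M.next^[t] (M.init x)).tape i := by
  induction t with
  | zero =>
    refine ⟨default, update (fun _ => []) (0, true) x, ?_, ?_⟩
    · rw [Function.iterate_zero, id, Function.iterate_zero, id]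
      unfold TM2.init
      rw [hQ]
      rfl
    · intro i
      have e1 : (M.next^[0] (M.init x)).tape i =
          if (i : ℕ) = 0 then Tape.mk₁ x else Tape.mk₁ [] := rfl
      rw [e1]
      unfold tp
      have hf : ((i.castSucc, false) : Fin (k + 1) × Bool) ≠ (0, true) := by
        intro h
        exact Bool.false_ne_true (congrArg Prod.snd h)
      rw [Function.update_of_ne hf]
      split_ifs with h0
      · have hi : i.castSucc = 0 := Fin.ext h0
        rw [hi, Function.update_self]
        rfl
      · have hi : ((i.castSucc, true) : Fin (k + 1) × Bool) ≠ (0, true) := by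
          intro h
          exact h0 (congrArg (fun p => (Prod.fst p : Fin (k + 1)).val) h)
        rw [Function.update_of_ne hi]
        rfl
  | succ t ih =>
    obtain ⟨v, S, h1, h2⟩ := ih (fun j hj => ht j (by omega))
    obtain ⟨v', S', h3, h4⟩ := simM_step _ (ht t (by omega)) v S h2
    refine ⟨v', S', ?_, ?_⟩
    · rw [Function.iterate_succ_apply', h1, Function.iterate_succ_apply']
      exact h3
    · intro i
      rw [h4 i, Function.iterate_succ_apply']

end

theorem dec2_of_mtm {k : ℕ} (M : MTM k) {I : Type} (enc : I → M.Γ)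
    (henc : Function.Injective enc) (P : List I → Prop) (T : List I → ℕ)
    (h : ∀ w : List I, ∃ b : Bool, M.Decides (w.map enc) (T w) b ∧ (b = true ↔ P w)) :
    Dec2 P (fun w => T w + 1) := by
  classical
  let iQ : Inhabited M.Q := ⟨M.start⟩
  let iR : Inhabited (RS M) := ⟨(fun _ => default, default, false)⟩
  have fQ : Fintype M.Q := M.finQ
  have fG : Fintype M.Γ := M.finΓ
  have key : ∀ w : List I, ∃ c : TM2.Cfg (GS M) M.Q (RS M),
      (fun d : Option (TM2.Cfg (GS M) M.Q (RS M)) => d.bind (TM2.step (simM M)))^[T w + 1]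
        (some (TM2.init (0, true) (w.map enc))) = some c ∧ c.l = none ∧
        (c.var.2.2 = true ↔ P w) := by
    intro w
    obtain ⟨b, ⟨hb1, hb2⟩, hb3⟩ := h w
    obtain ⟨v, S, h1, h2⟩ := simM_iterate (w.map enc) iQ rfl iR (T w) hb2
    refine ⟨⟨none, (v.1, v.2.1, b), S⟩, ?_, rfl, hb3⟩
    rw [Function.iterate_succ_apply', h1]
    change some (TM2.stepAux (simM M _) v S) = _
    rw [hb1]
    cases b
    · simp only [cond_false]
      rw [simM, if_neg M.accept_ne_reject.symm, if_pos rfl]
      rfl
    · simp only [cond_true]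
      rw [simM, if_pos rfl]
      rfl
  refine ⟨Fin (k + 1) × Bool, inferInstance, inferInstance, GS M, fun _ => fG, M.Q, iQ, fQ,
    RS M, iR, inferInstance, simM M, (0, true), enc, fun v => v.2.2, fun w => T w + 1, henc,
    fun w => ?_, fun w => le_rfl⟩
  obtain ⟨c, h1, h2, h3⟩ := key w
  exact ⟨⟨c, h1, h2, h3⟩, not_halted_before _ h1⟩

end Pool.Agent.H45R3.MB
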