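import Pool.Agent.H45R3.MB.CaseTwo
import Pool.Agent.H45R3.MB.CaseOne2
import Pool.Agent.H45R3.MB.Sim
import Pool.Agent.H45R3.AC.Main

/-!
# The word problem of metabelian groups on multi-stack machines
-/

namespace Pool.Agent.H45R3.MB

open Finset Pool.Agent.H45R3.AC
open Turing
open scoped IsMulCommutative

theorem sum_of_linear {m : ℕ} {G : Type} [Group G] {N : ℕ} (f : Fin m → G)
    (ρ : G →* GL (Fin N) ℚ) (hρ : Function.Injective ρ) :
    ∃ (time : List (Fin m × Bool) → ℕ) (C : ℕ), Dec2 (fun w => ev (lt f) w = 1) time ∧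
      ∀ n : ℕ, ∑ v : Fin n → Fin m × Bool, time (List.ofFn v) ≤ C * (n + 1) * (2 * m) ^ n := by
  obtain ⟨k, M, enc, T, C, h1, -, h3, h4⟩ := main (fun i => ρ (f i))
  have hval : ∀ w : List (Fin m × Bool), wordVal (fun i => ρ (f i)) w = 1 ↔ ev (lt f) w = 1 := by
    intro w
    have e : wordVal (fun i => ρ (f i)) w = ρ (ev (lt f) w) := by
      unfold wordVal ev
      rw [map_list_prod, List.map_map]
      congr 2
      funext a
      obtain ⟨i, b⟩ := a
      cases b <;> simp [lt]
    rw [e]
    exact map_eq_one_iff ρ hρ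
  refine ⟨fun w => T w + 1, ⌈C⌉₊ + 1 + T [], dec2_of_mtm M enc h1 _ T fun w => ?_, ?_⟩
  · obtain ⟨b, hb, hb'⟩ := h3 w
    exact ⟨b, hb, hb'.trans (hval w)⟩
  · intro n
    rcases Nat.eq_zero_or_pos n with hn | hn
    · subst hn
      have e : ∑ v : Fin 0 → Fin m × Bool, (T (List.ofFn v) + 1) = T [] + 1 := by
        rw [Fintype.sum_unique]
        simp
      rw [e]
      simp only [pow_zero, mul_one, zero_add]
      omega
    · rcases Nat.eq_zero_or_pos m with hm | hm
      · subst hm
        have : IsEmpty (Fin n → Fin 0 × Bool) := ⟨fun v => (v ⟨0, hn⟩).1.elim0⟩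
        rw [Finset.univ_eq_empty, Finset.sum_empty]
        exact Nat.zero_le _
      · have h5 := h4 n hn
        have hpos : (0 : ℝ) < (2 * m) ^ n := by positivity
        rw [div_le_iff₀ hpos] at h5
        have hC : C ≤ (⌈C⌉₊ : ℝ) := Nat.le_ceil C
        have hcard : Fintype.card (Fin n → Fin m × Bool) = (2 * m) ^ n := by
          rw [Fintype.card_fun, Fintype.card_prod, Fintype.card_fin, Fintype.card_bool,
            Fintype.card_fin, mul_comm]
        have h6 : ((∑ v : Fin n → Fin m × Bool, (T (List.ofFn v) + 1) : ℕ) : ℝ) ≤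
            (((⌈C⌉₊ + 1 + T []) * (n + 1) * (2 * m) ^ n : ℕ) : ℝ) := by
          rw [Finset.sum_add_distrib, Finset.sum_const, Finset.card_univ, hcard, smul_eq_mul,
            mul_one]
          push_cast
          have h7 : C * n * (2 * m : ℝ) ^ n ≤ ⌈C⌉₊ * n * (2 * m : ℝ) ^ n := by gcongr
          have h8 : (0 : ℝ) ≤ T [] := Nat.cast_nonneg _
          have h9 : (0 : ℝ) ≤ (⌈C⌉₊ : ℝ) := Nat.cast_nonneg _
          have h10 : (0 : ℝ) ≤ (n : ℝ) := Nat.cast_nonneg _
          have h11 : ((⌈C⌉₊ : ℝ) * n + 1) * (2 * m : ℝ) ^ n ≤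
              ((⌈C⌉₊ : ℝ) + 1 + T []) * (n + 1) * (2 * m : ℝ) ^ n := by
            apply mul_le_mul_of_nonneg_right _ hpos.le
            nlinarith [mul_nonneg h8 h10]
          have h12 : (∑ v : Fin n → Fin m × Bool, (T (List.ofFn v) : ℝ)) ≤
              C * n * (2 * m : ℝ) ^ n := h5
          nlinarith [h7, h11, h12]
        exact_mod_cast h6

theorem metabelian {G : Type} [Group G] (hG : derivedSeries G 2 = ⊥) {m : ℕ} (f : Fin m → G)
    (hf : Subgroup.closure (Set.range f) = ⊤) :
    ∃ (time : List (Fin m × Bool) → ℕ) (C : ℕ), Dec2 (fun w => ev (lt f) w = 1) time ∧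
      ∀ n : ℕ, ∑ v : Fin n → Fin m × Bool, time (List.ofFn v) ≤ C * (n + 1) * (2 * m) ^ n := by
  have hcomm : IsMulCommutative (commutator G) := by
    rw [derivedSeries_succ, derivedSeries_one] at hG
    exact Subgroup.le_centralizer_iff_isMulCommutative.1
      (Subgroup.commutator_eq_bot_iff_le_centralizer.1 hG)
  have hgen : Subgroup.closure (Set.range (lt f)) = ⊤ := by
    rw [eq_top_iff, ← hf]
    apply Subgroup.closure_mono
    rintro _ ⟨i, rfl⟩
    exact ⟨(i, true), rfl⟩
  by_cases hA : Module.Finite ℤ (Additive (commutator G))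
  · obtain ⟨N, ρ, hρ⟩ := exists_GL_of_fg (lt f) bar (lt_bar f) hgen hA
    exact sum_of_linear f ρ hρ
  · have hm : 0 < m := by
      rcases Nat.eq_zero_or_pos m with hm | hm
      · exfalso
        subst hm
        apply hA
        have h1 : (⊤ : Subgroup G) = ⊥ := by
          rw [← hf, Set.range_eq_empty, Subgroup.closure_empty]
        have h2 : Subsingleton G := by
          refine ⟨fun a b => ?_⟩
          have ha : a ∈ (⊥ : Subgroup G) := h1 ▸ Subgroup.mem_top a
          have hb : b ∈ (⊥ : Subgroup G) := h1 ▸ Subgroup.mem_top b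
          rw [Subgroup.mem_bot.1 ha, Subgroup.mem_bot.1 hb]
        have h3 : Subsingleton (Additive (commutator G)) :=
          inferInstanceAs (Subsingleton (commutator G))
        exact inferInstance
      · exact hm
    obtain ⟨cs, hcs⟩ := exists_cs (lt f) bar (lt_bar f)
    obtain ⟨L, hL, hgrow⟩ := growth_exp (lt f) bar (lt_bar f) hgen hA
    exact case_two hm f cs hcs L hL hgrow

end Pool.Agent.H45R3.MB
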