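import Pool.Agent.H45R3.MB.CycRing
import Pool.Agent.H45R3.AC.Growth

/-!
# Finite quotients attached to a component
-/

namespace Pool.Agent.H45R3.MB

open Pool.Agent.H45R3.AC (ev)

/-- A finite group from commuting data on a finite module. -/
theorem stable_group {R Z : Type} [CommRing R] [AddCommGroup Z] [Module R Z] [Finite Z] {I : Type}
    (bar : I → I) (T : I → Module.End R Z) (δ : Module.End R Z) (hδ : ∀ a, Commute δ (T a))
    (hinv : ∀ a z, T (bar a) (T a z) = δ (δ z)) (N : ℕ)
    (hN : ∀ z, (δ ^ (N + 1)) z = 0 → (δ ^ N) z = 0) :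
    ∃ (H : Type) (_ : Group H) (_ : Finite H) (h : I → H), ∀ w : List I,
      ev h w = 1 ↔ ∀ z, (δ ^ N) (actR T w z) = (δ ^ (N + w.length)) z := by
  classical
  let Y := LinearMap.range (δ ^ N)
  have hTN : ∀ a z, T a ((δ ^ N) z) = (δ ^ N) (T a z) := by
    intro a z
    exact congrArg (fun S : Module.End R Z => S z) ((hδ a).pow_left N).eq.symm
  have hδN : ∀ z, δ ((δ ^ N) z) = (δ ^ N) (δ z) := by
    intro z
    exact congrArg (fun S : Module.End R Z => S z) ((Commute.refl δ).pow_right N).eq
  let dY : Y → Y := fun y => ⟨δ y.1, by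
    obtain ⟨z, hz⟩ := y.2
    exact ⟨δ z, by rw [← hδN, hz]⟩⟩
  let tY : I → Y → Y := fun a y => ⟨T a y.1, by
    obtain ⟨z, hz⟩ := y.2
    exact ⟨T a z, by rw [← hTN, hz]⟩⟩
  have hker : ∀ y : Z, y ∈ Y → δ y = 0 → y = 0 := by
    rintro _ ⟨z, rfl⟩ h0
    apply hN
    rw [pow_succ', Module.End.mul_apply]
    exact h0
  have hinj : ∀ y y' : Z, y ∈ Y → y' ∈ Y → δ y = δ y' → y = y' := by
    intro y y' hy hy' h
    have := hker (y - y') (Y.sub_mem hy hy') (by rw [map_sub, h, sub_self])
    exact sub_eq_zero.1 this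
  have hdinj : Function.Injective dY := by
    intro y y' h
    apply Subtype.ext
    exact hinj _ _ y.2 y'.2 (congrArg Subtype.val h)
  have hdbij : Function.Bijective dY := Finite.injective_iff_bijective.1 hdinj
  let dE : Y ≃ Y := Equiv.ofBijective dY hdbij
  have htinj : ∀ a, Function.Injective (tY a) := by
    intro a y y' h
    apply hdinj
    apply hdinj
    apply Subtype.ext
    change δ (δ y.1) = δ (δ y'.1)
    rw [← hinv a, ← hinv a]
    have h1 : T a y.1 = T a y'.1 := congrArg Subtype.val h
    rw [h1]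
  have hbij : ∀ a, Function.Bijective (fun y => dE.symm (tY a y)) := by
    intro a
    apply Finite.injective_iff_bijective.1
    intro y y' h
    exact htinj a (dE.symm.injective h)
  let h : I → (Equiv.Perm Y)ᵐᵒᵖ := fun a => MulOpposite.op (Equiv.ofBijective _ (hbij a))
  have hone : ∀ a (y : Y), δ (((h a).unop y : Y) : Z) = T a y.1 := by
    intro a y
    have h1 : dE ((h a).unop y) = tY a y := dE.apply_symm_apply _
    exact congrArg Subtype.val h1
  have hcomm : ∀ w z, δ (actR T w z) = actR T w (δ z) := by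
    intro w
    induction w with
    | nil => intro z; rfl
    | cons a w ih =>
      intro z
      change δ (actR T w (T a z)) = actR T w (T a (δ z))
      rw [ih]
      congr 1
      exact congrArg (fun S : Module.End R Z => S z) (hδ a).eq
  have hword : ∀ w (y : Y), (δ ^ w.length) (((ev h w).unop y : Y) : Z) = actR T w y.1 := by
    intro w
    induction w with
    | nil => intro y; rfl
    | cons a w ih =>
      intro y
      have h1 : ev h (a :: w) = h a * ev h w := by simp [ev]
      have h2 : ((ev h (a :: w)).unop y : Y) = (ev h w).unop ((h a).unop y) := by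
        rw [h1]; rfl
      rw [h2, List.length_cons, pow_succ', Module.End.mul_apply, ih, hcomm, hone]
      rfl
  have hpinj : ∀ (n : ℕ) (y y' : Y), (δ ^ n) y.1 = (δ ^ n) y'.1 → y = y' := by
    intro n
    induction n with
    | zero => intro y y' h; exact Subtype.ext h
    | succ n ih =>
      intro y y' h
      apply hdinj
      apply ih
      rw [pow_succ] at h
      exact h
  have hfinH : Finite (Equiv.Perm Y)ᵐᵒᵖ :=
    Finite.of_equiv (Equiv.Perm Y) MulOpposite.opEquiv
  refine ⟨(Equiv.Perm Y)ᵐᵒᵖ, inferInstance, hfinH, h, fun w => ?_⟩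
  have hcN : ∀ z, actR T w ((δ ^ N) z) = (δ ^ N) (actR T w z) := by
    intro z
    have : ∀ n : ℕ, actR T w ((δ ^ n) z) = (δ ^ n) (actR T w z) := by
      intro n
      induction n with
      | zero => rfl
      | succ n ih => rw [pow_succ', Module.End.mul_apply, ← hcomm, ih]; rfl
    exact this N
  constructor
  · intro h1 z
    have h2 := hword w ⟨(δ ^ N) z, ⟨z, rfl⟩⟩
    rw [h1] at h2
    rw [← hcN, ← h2, add_comm, pow_add]
    rfl
  · intro h1
    apply MulOpposite.unop_injective
    apply Equiv.ext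
    intro y
    change (ev h w).unop y = y
    apply hpinj w.length
    rw [hword]
    obtain ⟨z, hz⟩ := y.2
    rw [← hz, hcN, h1, add_comm, pow_add]
    rfl

/-- The exponent of `p` modulo which column `l` is considered. -/
def CompData.kc {I : Type} (c : CompData I) (K : ℕ) (l : Fin c.t) : ℕ := (c.ty l).getD K

/-- The order of the cyclic group used at scale `s`. -/
def CompData.dd {I : Type} (c : CompData I) (s : ℕ) : ℕ := c.p * s ^ c.J + 1

instance {I : Type} (c : CompData I) (s : ℕ) : NeZero (c.dd s) := ⟨Nat.succ_ne_zero _⟩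

/-- The test polynomial of a word. -/
noncomputable def CompData.FF {I : Type} (c : CompData I) (w : List I) (j l : Fin c.t) :
    MvPolynomial (Fin c.J) ℤ :=
  ((w.map c.X).prod -
    c.D ^ w.length • (1 : Matrix (Fin c.t) (Fin c.t) (MvPolynomial (Fin c.J) ℤ))) j l

/-- The finite-level test. -/
def CompData.acc {I : Type} (c : CompData I) (s K : ℕ) (w : List I) : Prop :=
  ∀ j l, ((c.p : EE (c.dd s)) ^ (c.kc K l)) ∣
    (kron c.J s (c.dd s) c.D) ^ K * kron c.J s (c.dd s) (c.FF w j l)

theorem CompData.coprime {I : Type} (c : CompData I) (s : ℕ) : Nat.Coprime c.p (c.dd s) := by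
  unfold CompData.dd
  rw [Nat.coprime_mul_left_add_right]
  exact Nat.coprime_one_right _

theorem CompData.kron_tr {I : Type} (c : CompData I) (s K : ℕ) (l : Fin c.t)
    (f : MvPolynomial (Fin c.J) ℤ) (hf : Tr (MvPolynomial.C (c.p : ℤ)) (c.ty l) f) :
    ((c.p : EE (c.dd s)) ^ (c.kc K l)) ∣ kron c.J s (c.dd s) f := by
  unfold CompData.kc
  cases hty : c.ty l with
  | none =>
    rw [hty] at hf
    have h0 : f = 0 := hf
    rw [h0, map_zero]
    exact dvd_zero _
  | some k =>
    rw [hty] at hf
    have h0 : (MvPolynomial.C (c.p : ℤ)) ^ k ∣ f := hf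
    have h1 := map_dvd (kron c.J s (c.dd s)) h0
    rw [map_pow] at h1
    have h2 : kron c.J s (c.dd s) (MvPolynomial.C (c.p : ℤ)) = (c.p : EE (c.dd s)) := by
      simp [kron]
    rw [h2] at h1
    exact h1

theorem CompData.acc_of_triv {I : Type} (c : CompData I) (s K : ℕ) (w : List I)
    (h : c.triv w) : c.acc s K w :=
  fun j l => (c.kron_tr s K l _ (h j l)).mul_left _

/-- Iterated cancellation with reducedness: if `D ^ n * z` is divisible by `p ^ k` then so is
`D ^ k * z`. -/
theorem pow_stab {p d : ℕ} [Fact p.Prime] [NeZero d] (hpd : Nat.Coprime p d) (D : EE d) (k : ℕ) :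
    ∀ (z : EE d) (n : ℕ), (p : EE d) ^ k ∣ D ^ n * z → (p : EE d) ^ k ∣ D ^ k * z := by
  have hp : p.Prime := Fact.out
  induction k with
  | zero => intro z n _; simp
  | succ k ih =>
    intro z n h
    obtain ⟨y, hy⟩ := ih z n ((pow_dvd_pow _ (Nat.le_succ k)).trans h)
    have h1 : (p : EE d) ^ (k + 1) ∣ (p : EE d) ^ k * (D ^ n * y) := by
      have e : (p : EE d) ^ k * (D ^ n * y) = D ^ k * (D ^ n * z) := by
        calc (p : EE d) ^ k * (D ^ n * y) = D ^ n * ((p : EE d) ^ k * y) := by ring
          _ = D ^ n * (D ^ k * z) := by rw [hy]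
          _ = _ := by ring
      rw [e]
      exact h.mul_left _
    have h2 := dvd_of_pow_mul_dvd hp.pos k _ h1
    have h3 : (p : EE d) ∣ (D * y) ^ (n + 1) := by
      rw [mul_pow, pow_succ, pow_succ]
      have e : D ^ n * D * (y ^ n * y) = (D ^ n * y) * (D * y ^ n) := by ring
      rw [e]
      exact h2.mul_right _
    obtain ⟨x, hx⟩ := dvd_of_pow_dvd hpd _ _ h3
    refine ⟨x, ?_⟩
    calc D ^ (k + 1) * z = D * (D ^ k * z) := by ring
      _ = D * ((p : EE d) ^ k * y) := by rw [hy]
      _ = (p : EE d) ^ k * (D * y) := by ring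
      _ = _ := by rw [hx]; ring

/-- The finite group attached to a component at a finite level. -/
theorem CompData.acc_group {I : Type} (c : CompData I) (s K : ℕ)
    (hK : ∀ l k, c.ty l = some k → k ≤ K) (bar : I → I) (hbar : ∀ a, c.triv [a, bar a]) :
    ∃ (H : Type) (_ : Group H) (_ : Finite H) (h : I → H), ∀ w : List I,
      ev h w = 1 ↔ c.acc s K w := by
  classical
  have : Fact c.p.Prime := ⟨c.hp⟩
  set E := EE (c.dd s) with hE
  set κ := kron c.J s (c.dd s) with hκ
  have hkK : ∀ l, c.kc K l ≤ K := by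
    intro l
    unfold CompData.kc
    cases hty : c.ty l with
    | none => exact le_rfl
    | some k => exact hK l k hty
  let R : Submodule E (Fin c.t → E) :=
    { carrier := {v | ∀ l, (c.p : E) ^ (c.kc K l) ∣ v l}
      add_mem' := fun h1 h2 l => dvd_add (h1 l) (h2 l)
      zero_mem' := fun l => dvd_zero _
      smul_mem' := fun a v h l => (h l).mul_left _ }
  have hR : ∀ v, v ∈ R ↔ ∀ l, (c.p : E) ^ (c.kc K l) ∣ v l := fun v => Iff.rfl
  -- a matrix compatible with the types acts
  let Xb : I → Matrix (Fin c.t) (Fin c.t) E := fun a => (c.X a).map κ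
  have hXR : ∀ a v, v ∈ R → Matrix.vecMul v (Xb a) ∈ R := by
    intro a v hv l
    simp only [Matrix.vecMul, dotProduct]
    refine Finset.dvd_sum fun i _ => ?_
    obtain ⟨u, hu⟩ := hv i
    rw [hu]
    have key : (c.p : E) ^ (c.kc K l) ∣ (c.p : E) ^ (c.kc K i) * Xb a i l := by
      cases hty : c.ty i with
      | none =>
        have e1 : c.kc K i = K := by unfold CompData.kc; rw [hty]; rfl
        rw [e1]
        exact (pow_dvd_pow _ (hkK l)).mul_right _
      | some k =>
        have e1 : c.kc K i = k := by unfold CompData.kc; rw [hty]; rfl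
        rw [e1]
        have h1 := c.compat a i l ((MvPolynomial.C (c.p : ℤ)) ^ k) (by
          rw [hty]; exact dvd_rfl)
        have h2 := c.kron_tr s K l _ h1
        rw [map_mul, map_pow] at h2
        have h3 : kron c.J s (c.dd s) (MvPolynomial.C (c.p : ℤ)) = (c.p : EE (c.dd s)) := by
          simp [kron]
        rw [h3] at h2
        exact h2
    have e : (c.p : E) ^ (c.kc K i) * u * Xb a i l =
      (c.p : E) ^ (c.kc K i) * Xb a i l * u := by ring
    rw [e]
    exact key.mul_right _
  have hfin : Finite ((Fin c.t → E) ⧸ R) := by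
    have : Module.Finite ℤ E :=
      Module.Finite.equiv ((Finsupp.linearEquivFunOnFinite ℤ ℤ (ZMod (c.dd s))).symm.trans
        (AddMonoidAlgebra.coeffAddEquiv (R := ℤ) (M := ZMod (c.dd s))).symm.toIntLinearEquiv)
    have : Module.Finite ℤ ((Fin c.t → E) ⧸ R) :=
      Module.Finite.of_surjective (R.mkQ.restrictScalars ℤ) R.mkQ_surjective
    apply Module.finite_of_fg_torsion
    intro x
    obtain ⟨v, rfl⟩ := R.mkQ_surjective x
    refine ⟨⟨(c.p : ℤ) ^ K, mem_nonZeroDivisors_of_ne_zero (by
      have := c.hp.pos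
      positivity)⟩, ?_⟩
    change ((c.p : ℤ) ^ K) • R.mkQ v = 0
    rw [← LinearMap.map_smul_of_tower, Submodule.mkQ_apply, Submodule.Quotient.mk_eq_zero]
    intro l
    rw [Pi.smul_apply, zsmul_eq_mul]
    push_cast
    exact (pow_dvd_pow _ (hkK l)).mul_right _
  let T : I → Module.End E ((Fin c.t → E) ⧸ R) := fun a =>
    R.mapQ R (Matrix.vecMulLinear (Xb a)) (fun v hv => hXR a v hv)
  have hT : ∀ w v, actR T w (R.mkQ v) = R.mkQ (Matrix.vecMul v ((w.map c.X).prod.map κ)) := by
    intro w
    induction w with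
    | nil =>
      intro v
      change R.mkQ v = R.mkQ (Matrix.vecMul v (Matrix.map 1 κ))
      rw [Matrix.map_one κ (map_zero κ) (map_one κ), Matrix.vecMul_one]
    | cons a w ih =>
      intro v
      change actR T w (R.mkQ (Matrix.vecMul v (Xb a))) = _
      rw [ih, Matrix.vecMul_vecMul, List.map_cons, List.prod_cons, Matrix.map_mul]
  let δ : Module.End E ((Fin c.t → E) ⧸ R) := algebraMap E _ (κ c.D)
  have hδn : ∀ (n : ℕ) v, (δ ^ n) (R.mkQ v) = R.mkQ ((κ c.D) ^ n • v) := by
    intro n v
    rw [← map_pow, Module.algebraMap_end_apply, map_smul]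
  have hform : ∀ (w : List I) (n : ℕ) (v : Fin c.t → E),
      (δ ^ n) (actR T w (R.mkQ v)) = (δ ^ (n + w.length)) (R.mkQ v) ↔
      ∀ l, (c.p : E) ^ (c.kc K l) ∣ ∑ j, v j * (κ c.D ^ n * κ (c.FF w j l)) := by
    intro w n v
    rw [hT, hδn, hδn, ← sub_eq_zero, ← map_sub, Submodule.mkQ_apply,
      Submodule.Quotient.mk_eq_zero, hR]
    refine forall_congr' fun l => ?_
    have e : (κ c.D ^ n • Matrix.vecMul v ((w.map c.X).prod.map κ) -
        κ c.D ^ (n + w.length) • v) l = ∑ j, v j * (κ c.D ^ n * κ (c.FF w j l)) := by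
      simp only [Pi.sub_apply, Pi.smul_apply, smul_eq_mul, Matrix.vecMul, dotProduct,
        Matrix.map_apply, CompData.FF, Matrix.sub_apply, Matrix.smul_apply, map_sub, map_mul,
        map_pow]
      have e2 : ∑ j, v j * (κ c.D ^ n * (κ c.D ^ w.length *
          κ ((1 : Matrix (Fin c.t) (Fin c.t) (MvPolynomial (Fin c.J) ℤ)) j l))) =
          κ c.D ^ (n + w.length) * v l := by
        rw [Finset.sum_eq_single l]
        · rw [Matrix.one_apply_eq, map_one]; ring
        · intro j _ hj
          rw [Matrix.one_apply_ne hj, map_zero]; ring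
        · simp
      rw [← e2, Finset.mul_sum, ← Finset.sum_sub_distrib]
      refine Finset.sum_congr rfl fun j _ => ?_
      ring
    rw [e]
  obtain ⟨H, iH, fH, h, hh⟩ := stable_group bar T δ (by
      intro a
      exact (Algebra.commutes (κ c.D) (T a))) (by
      intro a z
      obtain ⟨v, rfl⟩ := R.mkQ_surjective z
      have h1 := (hform [a, bar a] 0 v).2 (by
        intro l
        refine Finset.dvd_sum fun j _ => ?_
        exact ((c.kron_tr s K l _ (hbar a j l)).mul_left _).mul_left _)
      rw [pow_zero] at h1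
      have h2 : (δ ^ (0 + [a, bar a].length)) (R.mkQ v) = δ (δ (R.mkQ v)) := by
        have : (0 + [a, bar a].length) = 2 := rfl
        rw [this, pow_two]
        rfl
      rw [← h2, ← h1]
      rfl) K (by
      intro z hz
      obtain ⟨v, rfl⟩ := R.mkQ_surjective z
      rw [hδn, Submodule.mkQ_apply, Submodule.Quotient.mk_eq_zero, hR] at hz ⊢
      intro l
      have h1 := pow_stab (c.coprime s) (κ c.D) (c.kc K l) (v l) (K + 1) (hz l)
      rw [Pi.smul_apply, smul_eq_mul]
      have e : κ c.D ^ K * v l = κ c.D ^ (K - c.kc K l) * (κ c.D ^ (c.kc K l) * v l) := by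
        rw [← mul_assoc, ← pow_add, Nat.sub_add_cancel (hkK l)]
      rw [e]
      exact h1.mul_left _)
  refine ⟨H, iH, fH, h, fun w => ?_⟩
  rw [hh]
  constructor
  · intro h1 j l
    have h2 := (hform w K (Pi.single j 1)).1 (h1 _) l
    rw [Finset.sum_eq_single j] at h2
    · simpa using h2
    · intro i _ hi
      simp [hi]
    · simp
  · intro h1 z
    obtain ⟨v, rfl⟩ := R.mkQ_surjective z
    rw [hform]
    intro l
    exact Finset.dvd_sum fun j _ => (h1 j l).mul_left _

end Pool.Agent.H45R3.MB
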