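import Pool.Agent.H45R3.MB.Level

/-!
# Injectivity radius of the finite quotients
-/

namespace Pool.Agent.H45R3.MB

open Finset

section Norm

variable {J : ℕ}

/-- The `ℓ¹`-norm of an integral polynomial. -/
noncomputable def nr (f : MvPolynomial (Fin J) ℤ) : ℕ := ∑ m ∈ f.support, (f.coeff m).natAbs

theorem nr_eq_of_subset (f : MvPolynomial (Fin J) ℤ) (S : Finset (Fin J →₀ ℕ))
    (h : f.support ⊆ S) : nr f = ∑ m ∈ S, (f.coeff m).natAbs := by
  unfold nr
  refine Finset.sum_subset h fun m _ hm => ?_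
  rw [MvPolynomial.notMem_support_iff.1 hm, Int.natAbs_zero]

theorem nr_add (f g : MvPolynomial (Fin J) ℤ) : nr (f + g) ≤ nr f + nr g := by
  classical
  rw [nr_eq_of_subset (f + g) (f.support ∪ g.support) MvPolynomial.support_add,
    nr_eq_of_subset f (f.support ∪ g.support) Finset.subset_union_left,
    nr_eq_of_subset g (f.support ∪ g.support) Finset.subset_union_right,
    ← Finset.sum_add_distrib]
  refine Finset.sum_le_sum fun m _ => ?_
  rw [MvPolynomial.coeff_add]
  exact Int.natAbs_add_le _ _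

@[simp] theorem nr_zero : nr (0 : MvPolynomial (Fin J) ℤ) = 0 := by simp [nr]

theorem nr_neg (f : MvPolynomial (Fin J) ℤ) : nr (-f) = nr f := by
  unfold nr
  rw [MvPolynomial.support_neg]
  refine Finset.sum_congr rfl fun m _ => ?_
  rw [MvPolynomial.coeff_neg, Int.natAbs_neg]

theorem nr_sum {ι : Type*} (S : Finset ι) (f : ι → MvPolynomial (Fin J) ℤ) :
    nr (∑ i ∈ S, f i) ≤ ∑ i ∈ S, nr (f i) := by
  classical
  induction S using Finset.induction_on with
  | empty => simp
  | insert a S ha ih =>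
    rw [Finset.sum_insert ha, Finset.sum_insert ha]
    exact (nr_add _ _).trans (by omega)

theorem nr_monomial (m : Fin J →₀ ℕ) (c : ℤ) : nr (MvPolynomial.monomial m c) = c.natAbs := by
  rw [nr_eq_of_subset _ {m} MvPolynomial.support_monomial_subset]
  simp

theorem nr_mul (f g : MvPolynomial (Fin J) ℤ) : nr (f * g) ≤ nr f * nr g := by
  have e : f * g = ∑ a ∈ f.support, ∑ b ∈ g.support,
      MvPolynomial.monomial (a + b) (f.coeff a * g.coeff b) := by
    conv_lhs => rw [f.as_sum, g.as_sum]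
    rw [Finset.sum_mul_sum]
    simp only [MvPolynomial.monomial_mul]
  rw [e]
  refine (nr_sum _ _).trans ?_
  have e2 : nr f * nr g = ∑ a ∈ f.support, ∑ b ∈ g.support,
      (f.coeff a).natAbs * (g.coeff b).natAbs := by
    unfold nr
    rw [Finset.sum_mul_sum]
  rw [e2]
  refine Finset.sum_le_sum fun a _ => (nr_sum _ _).trans (Finset.sum_le_sum fun b _ => ?_)
  rw [nr_monomial, Int.natAbs_mul]

theorem natAbs_coeff_le (f : MvPolynomial (Fin J) ℤ) (m : Fin J →₀ ℕ) :
    (f.coeff m).natAbs ≤ nr f := by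
  by_cases hm : m ∈ f.support
  · exact Finset.single_le_sum (f := fun m => (f.coeff m).natAbs) (fun _ _ => Nat.zero_le _) hm
  · rw [MvPolynomial.notMem_support_iff.1 hm]
    simp

theorem nr_one_le : nr (1 : MvPolynomial (Fin J) ℤ) ≤ 1 := by
  have := nr_monomial (0 : Fin J →₀ ℕ) 1
  rw [show (1 : MvPolynomial (Fin J) ℤ) = MvPolynomial.monomial 0 1 from rfl, this]
  rfl

theorem nr_pow (f : MvPolynomial (Fin J) ℤ) (n : ℕ) : nr (f ^ n) ≤ nr f ^ n := by
  induction n with
  | zero => rw [pow_zero, pow_zero]; exact nr_one_le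
  | succ n ih =>
    rw [pow_succ, pow_succ]
    exact (nr_mul _ _).trans (Nat.mul_le_mul_right _ ih)

end Norm

variable {I : Type} (c : CompData I)

theorem CompData.bounds {b : ℕ}
    (hX : ∀ a i l, c.t * nr (c.X a i l) ≤ b) (hdX : ∀ a i l j, (c.X a i l).degreeOf j ≤ b)
    (w : List I) : (∀ i l, nr ((w.map c.X).prod i l) ≤ b ^ w.length) ∧
      ∀ i l j, ((w.map c.X).prod i l).degreeOf j ≤ b * w.length := by
  classical
  induction w with
  | nil =>
    refine ⟨fun i l => ?_, fun i l j => ?_⟩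
    · simp only [List.map_nil, List.prod_nil, List.length_nil, pow_zero, Matrix.one_apply]
      split_ifs
      · exact nr_one_le
      · simp
    · simp only [List.map_nil, List.prod_nil, List.length_nil, mul_zero, Matrix.one_apply,
        Nat.le_zero]
      split_ifs
      · exact MvPolynomial.degreeOf_one j
      · exact MvPolynomial.degreeOf_zero j
  | cons a w ih =>
    obtain ⟨ih1, ih2⟩ := ih
    refine ⟨fun i l => ?_, fun i l j => ?_⟩
    · rw [List.map_cons, List.prod_cons, Matrix.mul_apply]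
      refine (nr_sum _ _).trans ?_
      have h1 : ∀ k, nr (c.X a i k * (w.map c.X).prod k l) ≤ nr (c.X a i k) * b ^ w.length :=
        fun k => (nr_mul _ _).trans (Nat.mul_le_mul_left _ (ih1 k l))
      refine (Finset.sum_le_sum fun k _ => h1 k).trans ?_
      rw [← Finset.sum_mul, List.length_cons, pow_succ, mul_comm (b ^ w.length)]
      refine Nat.mul_le_mul_right _ ?_
      rcases Nat.eq_zero_or_pos c.t with h0 | h0
      · exact absurd i.2 (by omega)
      · -- sum of t terms each at most b / t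
        have h2 : c.t * ∑ k, nr (c.X a i k) ≤ c.t * b := by
          rw [Finset.mul_sum]
          refine (Finset.sum_le_sum fun k _ => hX a i k).trans ?_
          rw [Finset.sum_const, Finset.card_univ, Fintype.card_fin, smul_eq_mul]
        exact Nat.le_of_mul_le_mul_left h2 h0
    · rw [List.map_cons, List.prod_cons, Matrix.mul_apply]
      refine (MvPolynomial.degreeOf_sum_le j _ _).trans ?_
      refine Finset.sup_le fun k _ => ?_
      refine (MvPolynomial.degreeOf_mul_le j _ _).trans ?_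
      have h1 := hdX a i k j
      have h2 := ih2 k l j
      rw [List.length_cons, mul_add, mul_one]
      omega

theorem exists_pow_mul {Λ : Type} [CommRing Λ] (q : Λ) (k : ℕ) :
    ∀ F : Λ, ¬ q ^ k ∣ F → ∃ j < k, ∃ G, F = q ^ j * G ∧ ¬ q ∣ G := by
  induction k with
  | zero => intro F h; exact absurd (by simp) h
  | succ k ih =>
    intro F h
    by_cases hq : q ∣ F
    · obtain ⟨G, rfl⟩ := hq
      have h1 : ¬ q ^ k ∣ G := by
        intro h2
        apply h
        rw [pow_succ']
        exact mul_dvd_mul_left q h2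
      obtain ⟨j, hj, G', hG', hn⟩ := ih G h1
      exact ⟨j + 1, by omega, G', by rw [hG']; ring, hn⟩
    · exact ⟨0, by omega, F, by simp, hq⟩

theorem CompData.triv_of_acc [Finite I] : ∃ b : ℕ, 1 ≤ b ∧ (∀ l k, c.ty l = some k → k ≤ b) ∧
    ∀ (i : ℕ) (w : List I), w.length ≤ i → c.acc (b * (i + 1) + 1) (b * (i + 2)) w →
      c.triv w := by
  classical
  cases nonempty_fintype I
  have : Fact c.p.Prime := ⟨c.hp⟩
  have hbd : ∃ b : ℕ, 2 ≤ b ∧ (∀ l k, c.ty l = some k → k ≤ b) ∧
      (∀ a i l, c.t * nr (c.X a i l) ≤ b) ∧ (∀ a i l j, (c.X a i l).degreeOf j ≤ b) ∧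
      nr c.D ≤ b ∧ ∀ j, c.D.degreeOf j ≤ b := by
    refine ⟨2 + (∑ l, (c.ty l).getD 0) + (∑ a, ∑ i, ∑ l, c.t * nr (c.X a i l)) +
      (∑ a, ∑ i, ∑ l, ∑ j, (c.X a i l).degreeOf j) + nr c.D + ∑ j, c.D.degreeOf j,
      by omega, ?_, ?_, ?_, by omega, ?_⟩
    · intro l k hk
      have h1 : (c.ty l).getD 0 ≤ ∑ l, (c.ty l).getD 0 :=
        Finset.single_le_sum (f := fun l => (c.ty l).getD 0) (fun _ _ => Nat.zero_le _)
          (Finset.mem_univ l)
      rw [hk] at h1
      simp only [Option.getD_some] at h1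
      omega
    · intro a i l
      have h1 : c.t * nr (c.X a i l) ≤ ∑ l, c.t * nr (c.X a i l) :=
        Finset.single_le_sum (f := fun l => c.t * nr (c.X a i l)) (fun _ _ => Nat.zero_le _)
          (Finset.mem_univ l)
      have h2 : ∑ l, c.t * nr (c.X a i l) ≤ ∑ i, ∑ l, c.t * nr (c.X a i l) :=
        Finset.single_le_sum (f := fun i => ∑ l, c.t * nr (c.X a i l))
          (fun _ _ => Nat.zero_le _) (Finset.mem_univ i)
      have h3 : ∑ i, ∑ l, c.t * nr (c.X a i l) ≤ ∑ a, ∑ i, ∑ l, c.t * nr (c.X a i l) :=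
        Finset.single_le_sum (f := fun a => ∑ i, ∑ l, c.t * nr (c.X a i l))
          (fun _ _ => Nat.zero_le _) (Finset.mem_univ a)
      omega
    · intro a i l j
      have h0 : (c.X a i l).degreeOf j ≤ ∑ j, (c.X a i l).degreeOf j :=
        Finset.single_le_sum (f := fun j => (c.X a i l).degreeOf j) (fun _ _ => Nat.zero_le _)
          (Finset.mem_univ j)
      have h1 : ∑ j, (c.X a i l).degreeOf j ≤ ∑ l, ∑ j, (c.X a i l).degreeOf j :=
        Finset.single_le_sum (f := fun l => ∑ j, (c.X a i l).degreeOf j)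
          (fun _ _ => Nat.zero_le _) (Finset.mem_univ l)
      have h2 : ∑ l, ∑ j, (c.X a i l).degreeOf j ≤ ∑ i, ∑ l, ∑ j, (c.X a i l).degreeOf j :=
        Finset.single_le_sum (f := fun i => ∑ l, ∑ j, (c.X a i l).degreeOf j)
          (fun _ _ => Nat.zero_le _) (Finset.mem_univ i)
      have h3 : ∑ i, ∑ l, ∑ j, (c.X a i l).degreeOf j ≤
          ∑ a, ∑ i, ∑ l, ∑ j, (c.X a i l).degreeOf j :=
        Finset.single_le_sum (f := fun a => ∑ i, ∑ l, ∑ j, (c.X a i l).degreeOf j)
          (fun _ _ => Nat.zero_le _) (Finset.mem_univ a)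
      omega
    · intro j
      have h0 : c.D.degreeOf j ≤ ∑ j, c.D.degreeOf j :=
        Finset.single_le_sum (f := fun j => c.D.degreeOf j) (fun _ _ => Nat.zero_le _)
          (Finset.mem_univ j)
      omega
  obtain ⟨b, hb2, hbt, hbX, hbdX, hbD, hbdD⟩ := hbd
  refine ⟨b, by omega, hbt, fun i w hw hacc => ?_⟩
  set s := b * (i + 1) + 1 with hs
  set K := b * (i + 2) with hK
  intro j l
  by_contra hnot
  change ¬ Tr (MvPolynomial.C (c.p : ℤ)) (c.ty l) (c.FF w j l) at hnot
  obtain ⟨hb1, hb3⟩ := c.bounds (b := b) hbX hbdX w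
  -- norm and degree of the test polynomial
  have hFn : nr (c.FF w j l) ≤ b ^ (w.length + 1) := by
    unfold CompData.FF
    rw [Matrix.sub_apply, sub_eq_add_neg]
    refine (nr_add _ _).trans ?_
    rw [nr_neg]
    have h1 := hb1 j l
    have h2 : nr ((c.D ^ w.length • (1 : Matrix (Fin c.t) (Fin c.t)
        (MvPolynomial (Fin c.J) ℤ))) j l) ≤ b ^ w.length := by
      rw [Matrix.smul_apply, smul_eq_mul, Matrix.one_apply]
      split_ifs
      · rw [mul_one]
        exact (nr_pow _ _).trans (Nat.pow_le_pow_left hbD _)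
      · rw [mul_zero, nr_zero]; exact Nat.zero_le _
    rw [pow_succ]
    have h3 : b ^ w.length * 2 ≤ b ^ w.length * b := Nat.mul_le_mul_left _ hb2
    omega
  have hFd : ∀ q, (c.FF w j l).degreeOf q ≤ b * w.length := by
    intro q
    unfold CompData.FF
    rw [Matrix.sub_apply]
    refine (MvPolynomial.degreeOf_sub_le q _ _).trans (max_le (hb3 j l q) ?_)
    rw [Matrix.smul_apply, smul_eq_mul, Matrix.one_apply]
    split_ifs
    · rw [mul_one]
      refine (MvPolynomial.degreeOf_pow_le q _ _).trans ?_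
      rw [mul_comm b]
      exact Nat.mul_le_mul_left _ (hbdD q)
    · rw [mul_zero, MvPolynomial.degreeOf_zero]
      exact Nat.zero_le _
  have hkK : c.kc K l ≤ K := by
    unfold CompData.kc
    cases hty : c.ty l with
    | none => exact le_rfl
    | some k =>
      have h1 := hbt l k hty
      have h2 : b * 1 ≤ b * (i + 2) := Nat.mul_le_mul_left _ (by omega)
      simp only [Option.getD_some]
      omega
  have hndvd : ¬ (MvPolynomial.C (c.p : ℤ)) ^ (c.kc K l) ∣ c.FF w j l := by
    unfold CompData.kc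
    cases hty : c.ty l with
    | some k =>
      rw [hty] at hnot
      exact hnot
    | none =>
      rw [hty] at hnot
      intro hdv
      apply hnot
      change c.FF w j l = 0
      have hdv' : (MvPolynomial.C (((c.p : ℤ)) ^ K)) ∣ c.FF w j l := by
        rw [map_pow]; exact hdv
      rw [MvPolynomial.C_dvd_iff_dvd_coeff] at hdv'
      ext m
      rw [MvPolynomial.coeff_zero]
      by_contra hne
      have h1 := Int.natAbs_dvd_natAbs.2 (hdv' m)
      have h2 := Nat.le_of_dvd (Int.natAbs_pos.2 hne) h1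
      rw [Int.natAbs_pow, Int.natAbs_natCast] at h2
      have h3 := natAbs_coeff_le (c.FF w j l) m
      have h4 : b ^ (w.length + 1) < c.p ^ K := by
        have e1 : c.p ^ K = (c.p ^ b) ^ (i + 2) := by rw [hK, pow_mul]
        have e2 : b < c.p ^ b := Nat.lt_pow_self c.hp.one_lt
        rw [e1]
        calc b ^ (w.length + 1) ≤ b ^ (i + 2) := Nat.pow_le_pow_right (by omega) (by omega)
          _ < (c.p ^ b) ^ (i + 2) := Nat.pow_lt_pow_left e2 (by omega)
      omega
  obtain ⟨q, hq, G, hG, hGn⟩ := exists_pow_mul _ _ _ hndvd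
  have hC : kron c.J s (c.dd s) (MvPolynomial.C (c.p : ℤ)) = (c.p : EE (c.dd s)) := by
    simp [kron]
  -- divisibility in the group ring
  have h1 := hacc j l
  set κ := kron c.J s (c.dd s) with hκ
  have h2 : (c.p : EE (c.dd s)) ^ (q + 1) ∣ (c.p : EE (c.dd s)) ^ q * (κ c.D ^ K * κ G) := by
    have e : (c.p : EE (c.dd s)) ^ q * (κ c.D ^ K * κ G) = κ c.D ^ K * κ (c.FF w j l) := by
      rw [hG, map_mul, map_pow, hC]
      ring
    rw [e]
    exact (pow_dvd_pow _ hq).trans h1
  have h3 := dvd_of_pow_mul_dvd c.hp.pos q _ h2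
  have h4 : (c.p : EE (c.dd s)) ∣ κ (c.D * G) := by
    apply dvd_of_pow_dvd (c.coprime s) _ (K + 1)
    rw [map_mul, mul_pow, pow_succ, pow_succ]
    have e : κ c.D ^ K * κ c.D * (κ G ^ K * κ G) = (κ c.D ^ K * κ G) * (κ c.D * κ G ^ K) := by
      ring
    rw [e]
    exact h3.mul_right _
  have hp0 : (c.p : ℤ) ≠ 0 := by exact_mod_cast c.hp.ne_zero
  have hprime : Prime (MvPolynomial.C (c.p : ℤ) : MvPolynomial (Fin c.J) ℤ) :=
    (MvPolynomial.prime_C_iff (Fin c.J)).2 (Nat.prime_iff_prime_int.1 c.hp)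
  have hGd : ∀ r, G.degreeOf r ≤ b * w.length := by
    intro r
    have h5 := hFd r
    have hsup : G.support ⊆ (c.FF w j l).support := by
      intro m hm
      rw [MvPolynomial.mem_support_iff] at hm ⊢
      rw [hG, ← map_pow, MvPolynomial.coeff_C_mul]
      exact mul_ne_zero (pow_ne_zero _ hp0) hm
    rw [MvPolynomial.degreeOf_eq_sup] at h5 ⊢
    exact (Finset.sup_mono hsup).trans h5
  have h5 := kron_dvd (p := c.p) (d := c.dd s) (s := s) (by
      unfold CompData.dd
      have := c.hp.pos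
      nlinarith [Nat.zero_le (s ^ c.J)]) (c.D * G) (by
      intro m hm r
      have h6 : m r ≤ (c.D * G).degreeOf r := by
        rw [MvPolynomial.degreeOf_eq_sup]
        exact Finset.le_sup (f := fun m : Fin c.J →₀ ℕ => m r) hm
      have h7 := MvPolynomial.degreeOf_mul_le r c.D G
      have h8 := hbdD r
      have h9 := hGd r
      have h10 : b * w.length ≤ b * i := Nat.mul_le_mul_left _ hw
      have h11 : s = b * i + b + 1 := by rw [hs]; ring
      omega) h4
  rcases hprime.dvd_or_dvd h5 with h6 | h6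
  · exact c.hD h6
  · exact hGn h6

end Pool.Agent.H45R3.MB
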