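import Pool.Agent.H45R3.MB.Tester2

/-!
# The main program: run the testers level by level
-/

namespace Pool.Agent.H45R3.MB

open Pool.Agent.H656R2
open Pool.Agent.H656R2.NPC (TEnc sz bits Cmd Run Runs inp mv mv_runs cp cp_runs clr clr_runs pushL
  pushL_runs eval_mono)
open Function (update)

/-- Five named stacks. -/
def st5 (a b c d e : List Bool) : ℕ → List Bool := fun i =>
  match i with
  | 0 => a
  | 1 => b
  | 2 => c
  | 3 => d
  | 5 => e
  | _ => []

section St

variable (a b c d e x : List Bool)

@[simp] theorem st5_0 : st5 a b c d e 0 = a := rfl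
@[simp] theorem st5_1 : st5 a b c d e 1 = b := rfl
@[simp] theorem st5_2 : st5 a b c d e 2 = c := rfl
@[simp] theorem st5_3 : st5 a b c d e 3 = d := rfl
@[simp] theorem st5_5 : st5 a b c d e 5 = e := rfl

@[simp] theorem upd_0 : update (st5 a b c d e) 0 x = st5 x b c d e := by
  funext i
  match i with
  | 0 => simp
  | 1 | 2 | 3 | 4 | 5 => simp [Function.update_of_ne, st5]
  | n + 6 => simp [Function.update_of_ne, st5]

@[simp] theorem upd_1 : update (st5 a b c d e) 1 x = st5 a x c d e := by
  funext i
  match i with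
  | 1 => simp
  | 0 | 2 | 3 | 4 | 5 => simp [Function.update_of_ne, st5]
  | n + 6 => simp [Function.update_of_ne, st5]

@[simp] theorem upd_2 : update (st5 a b c d e) 2 x = st5 a b x d e := by
  funext i
  match i with
  | 2 => simp
  | 0 | 1 | 3 | 4 | 5 => simp [Function.update_of_ne, st5]
  | n + 6 => simp [Function.update_of_ne, st5]

@[simp] theorem upd_3 : update (st5 a b c d e) 3 x = st5 a b c x e := by
  funext i
  match i with
  | 3 => simp
  | 0 | 1 | 2 | 4 | 5 => simp [Function.update_of_ne, st5]
  | n + 6 => simp [Function.update_of_ne, st5]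

@[simp] theorem upd_5 : update (st5 a b c d e) 5 x = st5 a b c d x := by
  funext i
  match i with
  | 5 => simp
  | 0 | 1 | 2 | 3 | 4 => simp [Function.update_of_ne, st5]
  | n + 6 => simp [Function.update_of_ne, st5]

theorem inp_eq_st5 : (inp a : ℕ → List Bool) = st5 a [] [] [] [] := by
  funext i
  match i with
  | 0 => simp [inp]
  | 1 | 2 | 3 | 4 | 5 => simp [inp, st5]
  | n + 6 => simp [inp, st5]

end St

theorem four_runs {c : Cmd ℕ} {x y : List Bool} {n : ℕ} (h : Runs c (inp x) (inp y) n)
    (w1 w2 k f : List Bool) :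
    Runs (c.map (fun i => 4 * i)) (st5 x w1 w2 k f) (st5 y w1 w2 k f) n := by
  obtain ⟨t, ht, h⟩ := h
  obtain ⟨S', h1, h2, h3⟩ := h.map (f := fun i => 4 * i) (fun a b h => by simpa using h)
    (st5 x w1 w2 k f) (by
      funext i
      match i with
      | 0 => simp [inp]
      | 1 => simp [inp, st5]
      | n + 2 =>
        have : 4 * (n + 2) = (4 * n + 2) + 6 := by ring
        simp [inp, st5, this])
  refine ⟨t, ht, ?_⟩
  have : S' = st5 y w1 w2 k f := by
    funext i
    by_cases hi : ∃ m, 4 * m = i
    · obtain ⟨m, rfl⟩ := hi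
      have : S' (4 * m) = inp y m := congrFun h2 m
      rw [this]
      match m with
      | 0 => simp [inp]
      | 1 => simp [inp, st5]
      | n + 2 =>
        have : 4 * (n + 2) = (4 * n + 2) + 6 := by ring
        simp [inp, st5, this]
    · rw [h3 i (by rintro ⟨m, hm⟩; exact hi ⟨m, hm⟩)]
      match i, hi with
      | 0, hi => exact absurd ⟨0, rfl⟩ hi
      | 1, _ => rfl
      | 2, _ => rfl
      | 3, _ => rfl
      | 4, hi => exact absurd ⟨1, rfl⟩ hi
      | 5, _ => rfl
      | n + 6, _ => simp [st5]
  rw [← this]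
  exact h1

/-- Move one bit from stack `1` to stacks `2` and `0`. -/
def mb1 : Cmd ℕ :=
  Cmd.cases 1 Cmd.skip
    (Cmd.seq (Cmd.pop 1) (Cmd.seq (Cmd.push 2 false) (Cmd.push 0 false)))
    (Cmd.seq (Cmd.pop 1) (Cmd.seq (Cmd.push 2 true) (Cmd.push 0 true)))

theorem mb1_runs (b : Bool) (l a x k f : List Bool) :
    Runs mb1 (st5 a (b :: l) x k f) (st5 (b :: a) l (b :: x) k f) 4 := by
  cases b
  · refine (Runs.casesFalse (l := l) (by simp) ((Runs.pop _ 1).seq ((Runs.push _ 2 false).seq
      (Runs.push _ 0 false)))).conv rfl ?_ le_rfl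
    simp
  · refine (Runs.casesTrue (l := l) (by simp) ((Runs.pop _ 1).seq ((Runs.push _ 2 true).seq
      (Runs.push _ 0 true)))).conv rfl ?_ le_rfl
    simp

/-- Move several bits from stack `1` to stacks `2` and `0`. -/
def mb : ℕ → Cmd ℕ
  | 0 => Cmd.skip
  | n + 1 => Cmd.seq mb1 (mb n)

theorem mb_runs : ∀ (r a l x k f : List Bool),
    Runs (mb r.length) (st5 a (r ++ l) x k f) (st5 (r.reverse ++ a) l (r.reverse ++ x) k f)
      (4 * r.length + 1) := by
  intro r
  induction r with
  | nil => intro a l x k f; exact (Runs.skip _).mono (by simp)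
  | cons b r ih =>
    intro a l x k f
    refine ((mb1_runs b (r ++ l) a x k f).seq (ih (b :: a) l (b :: x) k f)).conv rfl ?_ ?_
    · simp
    · simp; omega

section Loop

variable {I : Type} [Fintype I] [DecidableEq I]

/-- The one-hot code of a letter, with constant size. -/
noncomputable def oh (a : I) : List (Bool × Bool) :=
  (Finset.univ.toList : List I).map fun b => (decide (b = a), !decide (b = a))

theorem sz_oh (a : I) : sz (oh a) = 6 * Fintype.card I + 1 := by
  have key : ∀ L : List I, sz (L.map fun b => (decide (b = a), !decide (b = a))) =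
      6 * L.length + 1 := by
    intro L
    induction L with
    | nil => simp
    | cons b L ih =>
      rw [List.map_cons, NPC.sz_list_cons, ih]
      by_cases h : b = a
      · simp [h]; omega
      · simp [h]; omega
  unfold oh
  rw [key, Finset.length_toList, Finset.card_univ]

theorem oh_injective : Function.Injective (oh : I → List (Bool × Bool)) := by
  intro a b h
  unfold oh at h
  have h1 := List.map_inj_left.1 h a (by simp)
  simpa using congrArg Prod.fst h1

/-- The block of bits of a letter. -/
noncomputable def blk (a : I) : List Bool := bits (oh a)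

theorem blk_length (a : I) : (blk a).length = 6 * Fintype.card I + 1 := sz_oh a

/-- Dispatch on the letter. -/
theorem poly_dispatch {σ : Type} [TEnc σ] (step : I → σ → σ) (h : ∀ a, NPC.Poly (step a)) :
    ∃ F : List (Bool × Bool) × σ → σ, NPC.Poly F ∧ ∀ a s, F (oh a, s) = step a s := by
  have key : ∀ L : List I, ∃ F : List (Bool × Bool) × σ → σ, NPC.Poly F ∧
      ∀ a ∈ L, ∀ s, F (oh a, s) = step a s := by
    intro L
    induction L with
    | nil => exact ⟨fun p => p.2, NPC.Poly.snd NPC.Poly.id, by simp⟩
    | cons b L ih =>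
      obtain ⟨F, hF, hF'⟩ := ih
      refine ⟨fun p => if p.1 = oh b then step b p.2 else F p,
        NPC.Poly.ite (NPC.Poly.decide_eq (NPC.Poly.fst NPC.Poly.id) (NPC.Poly.const _))
          ((h b).comp (NPC.Poly.snd NPC.Poly.id)) hF, ?_⟩
      intro a ha s
      by_cases hab : a = b
      · subst hab; simp
      · have h1 : ¬ oh a = oh b := fun h => hab (oh_injective h)
        simp only [h1, if_false]
        exact hF' a ((List.mem_cons.1 ha).resolve_left hab) s
  obtain ⟨F, hF, hF'⟩ := key Finset.univ.toList
  exact ⟨F, hF, fun a s => hF' a (by simp) s⟩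

theorem bits_pair {α β : Type} [TEnc α] [TEnc β] (a : α) (b : β) :
    bits (a, b) = true :: (bits a ++ bits b) := rfl

/-- The processing of one letter. -/
def letterCmd (ℓ : ℕ) (cS : Cmd ℕ) : Cmd ℕ :=
  Cmd.seq (mb ℓ) (Cmd.seq (Cmd.push 0 true) (cS.map (fun i => 4 * i)))

/-- The word on stack `1`. -/
noncomputable def W1 (w : List I) : List Bool := w.flatMap fun a => (blk a).reverse

theorem W1_eq (w : List I) : (w.reverse.flatMap blk).reverse = W1 w := by
  unfold W1
  induction w with
  | nil => rfl
  | cons a w ih =>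
    rw [List.reverse_cons, List.flatMap_append, List.reverse_append, ih, List.flatMap_cons]
    simp

theorem letter_runs {σ : Type} [TEnc σ] {step : I → σ → σ} {F : List (Bool × Bool) × σ → σ}
    (hF : ∀ a s, F (oh a, s) = step a s) {cS : Cmd ℕ} {pS : Polynomial ℕ}
    (hc : ∀ p, Runs cS (inp (bits p)) (inp (bits (F p))) (pS.eval (bits p).length))
    (a : I) (s : σ) (l x k f : List Bool) :
    Runs (letterCmd (6 * Fintype.card I + 1) cS) (st5 (bits s) ((blk a).reverse ++ l) x k f)
      (st5 (bits (step a s)) l (blk a ++ x) k f)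
      (4 * (6 * Fintype.card I + 1) + 2 +
        pS.eval ((6 * Fintype.card I + 1) + sz s + 1)) := by
  have h1 := mb_runs (blk a).reverse (bits s) l x k f
  rw [List.reverse_reverse, List.length_reverse, blk_length] at h1
  have h2 := (Runs.push (st5 (blk a ++ bits s) l (blk a ++ x) k f) 0 true).conv rfl
    (s₁' := st5 (bits (oh a, s)) l (blk a ++ x) k f) (by simp [bits_pair, blk]) le_rfl
  have h3 := four_runs (hc (oh a, s)) l (blk a ++ x) k f
  rw [hF] at h3
  refine (h1.seq (h2.seq h3)).mono ?_
  have h4 : (bits (oh a, s)).length = (6 * Fintype.card I + 1) + sz s + 1 := by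
    rw [NPC.bits_length, NPC.sz_pair, sz_oh]
  rw [h4]
  omega

theorem pass_runs {σ : Type} [TEnc σ] {step : I → σ → σ} {F : List (Bool × Bool) × σ → σ}
    (hF : ∀ a s, F (oh a, s) = step a s) {cS : Cmd ℕ} {pS : Polynomial ℕ}
    (hc : ∀ p, Runs cS (inp (bits p)) (inp (bits (F p))) (pS.eval (bits p).length)) (B : ℕ) :
    ∀ (w : List I) (s : σ) (x k f : List Bool),
      (∀ u : List I, sz (u.foldl (fun s a => step a s) s) ≤ B) →
      Runs (Cmd.loop 1 (letterCmd (6 * Fintype.card I + 1) cS)) (st5 (bits s) (W1 w) x k f)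
        (st5 (bits (w.foldl (fun s a => step a s) s)) [] (w.reverse.flatMap blk ++ x) k f)
        ((4 * (6 * Fintype.card I + 1) + 3 +
          pS.eval ((6 * Fintype.card I + 1) + B + 1)) * w.length + 1) := by
  intro w
  induction w with
  | nil =>
    intro s x k f _
    exact (Runs.loopNil (by simp [W1])).mono (by simp)
  | cons a w ih =>
    intro s x k f hB
    have h1 := letter_runs hF hc a s (W1 w) x k f
    have h2 := ih (step a s) (blk a ++ x) k f (fun u => hB (a :: u))
    have h3 : W1 (a :: w) = (blk a).reverse ++ W1 w := by simp [W1]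
    have hne : st5 (bits s) (W1 (a :: w)) x k f 1 ≠ [] := by
      rw [st5_1, h3]
      have := blk_length a
      intro h4
      have h5 := congrArg List.length h4
      rw [List.length_append, List.length_reverse, this] at h5
      simp at h5
    rw [← h3] at h1
    refine (Runs.loopCons hne h1 h2).conv rfl ?_ ?_
    · rw [List.reverse_cons, List.flatMap_append]
      simp
    · have h4 : pS.eval ((6 * Fintype.card I + 1) + sz s + 1) ≤
          pS.eval ((6 * Fintype.card I + 1) + B + 1) :=
        eval_mono pS (by have := hB []; simp only [List.foldl_nil] at this; omega)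
      have e5 : ∀ X : ℕ, X * (w.length + 1) = X * w.length + X := fun X => by ring
      rw [List.length_cons, e5]
      omega

/-- The processing of one level. -/
def roundCmd (ℓ : ℕ) (cS cN : Cmd ℕ) : Cmd ℕ :=
  Cmd.seq (Cmd.loop 1 (letterCmd ℓ cS)) (Cmd.seq (mv 2 1) (Cmd.seq (cN.map (fun i => 4 * i))
    (Cmd.seq (Cmd.pop 0) (Cmd.cases 0 Cmd.skip
      (Cmd.seq (clr 3) (Cmd.push 5 true))
      (Cmd.seq (Cmd.pop 0) (Cmd.seq (Cmd.pop 0) (Cmd.pop 0)))))))

/-- The main program. -/
noncomputable def mainCmd (ℓ : ℕ) (cS cN : Cmd ℕ) (s0 : List Bool) : Cmd ℕ :=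
  Cmd.seq (cp 0 1 3) (Cmd.seq (Cmd.push 3 true) (Cmd.seq (pushL 0 s0)
    (Cmd.loop 3 (Cmd.seq (Cmd.pop 3) (roundCmd ℓ cS cN)))))

/-- The cost of one level for a word of length `n`, with states of size at most `B`. -/
noncomputable def rc (ℓ : ℕ) (pS pN : Polynomial ℕ) (n B : ℕ) : ℕ :=
  (4 * ℓ + 3 + pS.eval (ℓ + B + 1)) * n + 4 * (ℓ * n) + pN.eval B + 12

theorem flatMap_length (w : List I) :
    (w.reverse.flatMap blk).length = (6 * Fintype.card I + 1) * w.length := by
  rw [← List.length_reverse, W1_eq]
  unfold W1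
  induction w with
  | nil => simp
  | cons a w ih =>
    rw [List.flatMap_cons, List.length_append, ih, List.length_reverse, blk_length,
      List.length_cons]
    ring

theorem round_runs {σ : Type} [TEnc σ] {step : I → σ → σ} {F : List (Bool × Bool) × σ → σ}
    (hF : ∀ a s, F (oh a, s) = step a s) {cS : Cmd ℕ} {pS : Polynomial ℕ}
    (hc : ∀ p, Runs cS (inp (bits p)) (inp (bits (F p))) (pS.eval (bits p).length)) (B : ℕ)
    {test : σ → Bool} {nx : σ → σ} {cN : Cmd ℕ} {pN : Polynomial ℕ}
    (hN : ∀ s, Runs cN (inp (bits s)) (inp (bits (test s, nx s))) (pN.eval (bits s).length))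
    (w : List I) (s : σ) (k : List Bool)
    (hB : ∀ u : List I, sz (u.foldl (fun s a => step a s) s) ≤ B) :
    (test (w.foldl (fun s a => step a s) s) = true →
      Runs (roundCmd (6 * Fintype.card I + 1) cS cN) (st5 (bits s) (W1 w) [] k [])
        (st5 (bits (nx (w.foldl (fun s a => step a s) s))) (W1 w) [] k [])
        (rc (6 * Fintype.card I + 1) pS pN w.length B)) ∧
    (test (w.foldl (fun s a => step a s) s) = false → ∃ s',
      Runs (roundCmd (6 * Fintype.card I + 1) cS cN) (st5 (bits s) (W1 w) [] k []) s'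
        (rc (6 * Fintype.card I + 1) pS pN w.length B + 2 * k.length) ∧
        s' 3 = [] ∧ s' 5 ≠ []) := by
  set s1 := w.foldl (fun s a => step a s) s with hs1
  have h1 := pass_runs hF hc B w s [] k [] hB
  rw [← hs1, List.append_nil] at h1
  have h2 := mv_runs (i := 2) (j := 1) (by decide) (w.reverse.flatMap blk)
    (st5 (bits s1) [] (w.reverse.flatMap blk) k []) (st5 (bits s1) (W1 w) [] k []) (by simp)
    (by simp [W1_eq])
  rw [flatMap_length] at h2
  have h3 := four_runs (hN s1) (W1 w) [] k []
  have h3' := h3.mono (eval_mono pN (hB w))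
  have h4 := (Runs.pop (st5 (bits (test s1, nx s1)) (W1 w) [] k []) 0).conv rfl
    (s₁' := st5 (bits (test s1) ++ bits (nx s1)) (W1 w) [] k []) (by simp [bits_pair]) le_rfl
  cases ht : test s1 with
  | true =>
    rw [ht] at h4
    have e : bits true = [true, false, false] := rfl
    have h5 : Runs (Cmd.cases 0 Cmd.skip (Cmd.seq (clr 3) (Cmd.push 5 true))
      (Cmd.seq (Cmd.pop 0) (Cmd.seq (Cmd.pop 0) (Cmd.pop 0))))
      (st5 (bits true ++ bits (nx s1)) (W1 w) [] k [])
      (st5 (bits (nx s1)) (W1 w) [] k []) 4 := by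
      rw [e]
      refine (Runs.casesTrue (l := false :: false :: bits (nx s1)) (by simp)
        ((Runs.pop _ 0).seq ((Runs.pop _ 0).seq (Runs.pop _ 0)))).conv rfl ?_ le_rfl
      simp
    rw [ht] at h3'
    refine ⟨fun _ => (h1.seq (h2.seq (h3'.seq (h4.seq h5)))).mono ?_,
      fun h => absurd h (by simp)⟩
    unfold rc
    omega
  | false =>
    rw [ht] at h4
    have e : bits false = [false] := rfl
    have h5 : Runs (Cmd.cases 0 Cmd.skip (Cmd.seq (clr 3) (Cmd.push 5 true))
      (Cmd.seq (Cmd.pop 0) (Cmd.seq (Cmd.pop 0) (Cmd.pop 0))))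
      (st5 (bits false ++ bits (nx s1)) (W1 w) [] k [])
      (st5 (bits false ++ bits (nx s1)) (W1 w) [] [] [true]) (2 * k.length + 3) := by
      have h6 := clr_runs (i := 3) k (st5 (bits false ++ bits (nx s1)) (W1 w) [] k [])
        (st5 (bits false ++ bits (nx s1)) (W1 w) [] [] []) (by simp) (by simp)
      refine (Runs.casesFalse (l := bits (nx s1)) (by rw [e]; simp)
        (h6.seq (Runs.push _ 5 true))).conv rfl ?_ (by omega)
      simp
    rw [ht] at h3'
    refine ⟨fun h => absurd h (by simp),
      fun _ => ⟨_, (h1.seq (h2.seq (h3'.seq (h4.seq h5)))).mono ?_, rfl, by simp⟩⟩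
    unfold rc
    omega

open Classical in
theorem levels_runs {σ : Type} [TEnc σ] {step : I → σ → σ} {F : List (Bool × Bool) × σ → σ}
    (hF : ∀ a s, F (oh a, s) = step a s) {cS : Cmd ℕ} {pS : Polynomial ℕ}
    (hc : ∀ p, Runs cS (inp (bits p)) (inp (bits (F p))) (pS.eval (bits p).length))
    {test : σ → Bool} {nx : σ → σ} {cN : Cmd ℕ} {pN : Polynomial ℕ}
    (hN : ∀ s, Runs cN (inp (bits s)) (inp (bits (test s, nx s))) (pN.eval (bits s).length))
    (w : List I) (S : ℕ → σ) (hS : ∀ i (u : List I), nx (u.foldl (fun s a => step a s) (S i)) =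
      S (i + 1)) (B : ℕ → ℕ) (hB : ∀ i (u : List I), sz (u.foldl (fun s a => step a s) (S i)) ≤ B i) :
    ∀ (k : List Bool) (i : ℕ), ∃ s',
      Runs (Cmd.loop 3 (Cmd.seq (Cmd.pop 3) (roundCmd (6 * Fintype.card I + 1) cS cN)))
        (st5 (bits (S i)) (W1 w) [] k []) s'
        ((∑ j ∈ Finset.range k.length, if ∀ j' < j,
          test (w.foldl (fun s a => step a s) (S (i + j'))) = true then
            rc (6 * Fintype.card I + 1) pS pN w.length (B (i + j)) + 2 else 0) +
          2 * k.length + 2) ∧
      (s' 5 = [] ↔ ∀ j < k.length, test (w.foldl (fun s a => step a s) (S (i + j))) = true) := by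
  intro k
  induction k with
  | nil =>
    intro i
    refine ⟨_, (Runs.loopNil (by simp)).mono (by simp), by simp⟩
  | cons b k ih =>
    intro i
    have h1 := (Runs.pop (st5 (bits (S i)) (W1 w) [] (b :: k) []) 3).conv rfl
      (s₁' := st5 (bits (S i)) (W1 w) [] k []) (by simp) le_rfl
    obtain ⟨h3, h4⟩ := round_runs hF hc (B i) hN w (S i) k (hB i)
    have hsum : (∑ j ∈ Finset.range (b :: k).length, if ∀ j' < j,
          test (w.foldl (fun s a => step a s) (S (i + j'))) = true then
            rc (6 * Fintype.card I + 1) pS pN w.length (B (i + j)) + 2 else 0) =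
        (rc (6 * Fintype.card I + 1) pS pN w.length (B i) + 2) +
        ∑ j ∈ Finset.range k.length, if ∀ j' < j + 1,
          test (w.foldl (fun s a => step a s) (S (i + j'))) = true then
            rc (6 * Fintype.card I + 1) pS pN w.length (B (i + (j + 1))) + 2 else 0 := by
      rw [List.length_cons, Finset.sum_range_succ', add_comm]
      simp
    cases ht : test (w.foldl (fun s a => step a s) (S i)) with
    | true =>
      have h2 := h3 ht
      rw [hS] at h2
      obtain ⟨s2, h5, h6⟩ := ih (i + 1)
      refine ⟨s2, (Runs.loopCons (by simp) (h1.seq h2) h5).mono ?_, ?_⟩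
      · rw [hsum]
        have e2 : ∀ j, (∀ j' < j, test (w.foldl (fun s a => step a s) (S (i + 1 + j'))) = true) ↔
            ∀ j' < j + 1, test (w.foldl (fun s a => step a s) (S (i + j'))) = true := by
          intro j
          constructor
          · intro h j' hj'
            cases j' with
            | zero => exact ht
            | succ j' =>
              have := h j' (by omega)
              rwa [show i + 1 + j' = i + (j' + 1) by ring] at this
          · intro h j' hj'
            rw [show i + 1 + j' = i + (j' + 1) by ring]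
            exact h _ (by omega)
        have e3 : (∑ j ∈ Finset.range k.length, if ∀ j' < j,
          test (w.foldl (fun s a => step a s) (S (i + 1 + j'))) = true then
            rc (6 * Fintype.card I + 1) pS pN w.length (B (i + 1 + j)) + 2 else 0) =
          ∑ j ∈ Finset.range k.length, if ∀ j' < j + 1,
          test (w.foldl (fun s a => step a s) (S (i + j'))) = true then
            rc (6 * Fintype.card I + 1) pS pN w.length (B (i + (j + 1))) + 2 else 0 := by
          refine Finset.sum_congr rfl fun j _ => ?_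
          simp only [e2]
          rw [show i + 1 + j = i + (j + 1) by ring]
        rw [e3, List.length_cons]
        omega
      · rw [h6, List.length_cons]
        constructor
        · intro h j hj
          cases j with
          | zero => exact ht
          | succ j =>
            have := h j (by omega)
            rwa [show i + 1 + j = i + (j + 1) by ring] at this
        · intro h j hj
          rw [show i + 1 + j = i + (j + 1) by ring]
          exact h _ (by omega)
    | false =>
      obtain ⟨s1, h2, e1, e2⟩ := h4 ht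
      refine ⟨s1, (Runs.loopCons (by simp) (h1.seq h2) (Runs.loopNil e1)).mono ?_, ?_⟩
      · rw [hsum, List.length_cons]
        omega
      · constructor
        · intro h; exact absurd h e2
        · intro h
          have := h 0 (by simp)
          rw [add_zero, ht] at this
          exact absurd this (by simp)

open Classical in
/-- The main program. -/
theorem main_prog {acc : ℕ → List I → Prop} (hT : Tester acc) :
    ∃ (c : Cmd ℕ) (Q : Polynomial ℕ), ∀ w : List I, ∃ s',
      Runs c (inp (w.reverse.flatMap blk)) s' ((w.length + 1) * (Q.eval 0 +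
        ∑ j ∈ Finset.range ((6 * Fintype.card I + 1) * w.length + 1),
          if ∀ j' < j, acc j' w then Q.eval j else 0)) ∧
      (s' 5 = [] ↔ ∀ j < (6 * Fintype.card I + 1) * w.length + 1, acc j w) := by
  obtain ⟨σ, iσ, init, step, test, q, h1, h2, h3, h4, h5⟩ := hT
  set ℓ := 6 * Fintype.card I + 1 with hℓ
  let step' : I → List Unit × σ → List Unit × σ := fun a s => (s.1, step a s.2)
  let nx : List Unit × σ → List Unit × σ := fun s => (() :: s.1, init (() :: s.1))
  let test' : List Unit × σ → Bool := fun s => test s.2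
  have hstep' : ∀ a, NPC.Poly (step' a) := fun a =>
    NPC.Poly.pair (NPC.Poly.fst NPC.Poly.id) ((h2 a).comp (NPC.Poly.snd NPC.Poly.id))
  obtain ⟨F, hFp, hF⟩ := poly_dispatch step' hstep'
  obtain ⟨cS, pS, hcS⟩ := hFp
  have hnx : NPC.Poly (fun s : List Unit × σ => (test' s, nx s)) := by
    have hl : NPC.Poly (fun s : List Unit × σ => () :: s.1) :=
      NPC.Poly.cons (NPC.Poly.const ()) (NPC.Poly.fst NPC.Poly.id)
    exact NPC.Poly.pair (h3.comp (NPC.Poly.snd NPC.Poly.id)) (NPC.Poly.pair hl (h1.comp hl))
  obtain ⟨cN, pN, hcN⟩ := hnx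
  have hfold : ∀ (w : List I) (l : List Unit) (s : σ),
      w.foldl (fun s a => step' a s) (l, s) = (l, w.foldl (fun s a => step a s) s) := by
    intro w
    induction w with
    | nil => intro l s; rfl
    | cons a w ih => intro l s; exact ih _ _
  let S : ℕ → List Unit × σ := fun i => (List.replicate i (), init (List.replicate i ()))
  let BP : Polynomial ℕ := Polynomial.C 2 * Polynomial.X + q + Polynomial.C 2
  let Q : Polynomial ℕ := pS.comp (Polynomial.C ℓ + BP + 1) + pN.comp BP +
    Polynomial.C (8 * ℓ + 30 + (bits (S 0)).length)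
  refine ⟨mainCmd ℓ cS cN (bits (S 0)), Q, fun w => ?_⟩
  have hB : ∀ i (u : List I), sz (u.foldl (fun s a => step' a s) (S i)) ≤ BP.eval i := by
    intro i u
    rw [hfold, NPC.sz_pair]
    have e1 : sz (List.replicate i ()) ≤ 2 * i + 1 := by
      have := NPC.sz_le_length_mul (List.replicate i ()) 1 (fun a _ => by simp)
      rw [List.length_replicate] at this
      omega
    have e2 := h4 (List.replicate i ()) u
    rw [List.length_replicate] at e2
    simp only [BP, Polynomial.eval_add, Polynomial.eval_mul, Polynomial.eval_C,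
      Polynomial.eval_X]
    omega
  have hS : ∀ i (u : List I), nx (u.foldl (fun s a => step' a s) (S i)) = S (i + 1) := by
    intro i u
    rw [hfold]
    rfl
  have hacc : ∀ i, acc i w ↔ test' (w.foldl (fun s a => step' a s) (S i)) = true := by
    intro i
    have := h5 (List.replicate i ()) w
    rw [List.length_replicate] at this
    rw [this, hfold]
  -- the program
  have r1 := cp_runs (i := 0) (j := 1) (k := 3) (by decide) (by decide) (by decide)
    (w.reverse.flatMap blk) (st5 (w.reverse.flatMap blk) [] [] [] [])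
    (st5 [] (W1 w) [] (W1 w) []) (by simp) (by simp [W1_eq])
  have r2 := (Runs.push (st5 [] (W1 w) [] (W1 w) []) 3 true).conv rfl
    (s₁' := st5 [] (W1 w) [] (true :: W1 w) []) (by simp) le_rfl
  have r3 := pushL_runs (i := 0) (bits (S 0)) (st5 [] (W1 w) [] (true :: W1 w) [])
    (st5 (bits (S 0)) (W1 w) [] (true :: W1 w) []) (by simp)
  obtain ⟨s', r4, r5⟩ := levels_runs hF hcS (test := test') (nx := nx) hcN w S hS
    (fun i => BP.eval i) hB (true :: W1 w) 0
  have hlen : (true :: W1 w).length = ℓ * w.length + 1 := by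
    rw [List.length_cons, ← W1_eq, List.length_reverse, flatMap_length]
  rw [flatMap_length, ← hℓ] at r1
  rw [hlen] at r4 r5
  rw [← hℓ] at r4
  refine ⟨s', ?_, ?_⟩
  · rw [inp_eq_st5]
    refine (r1.seq (r2.seq (r3.seq r4))).mono ?_
    simp only [zero_add, ← hacc]
    have hQ0 : 8 * ℓ + 30 + (bits (S 0)).length ≤ Q.eval 0 := by
      simp only [Q, Polynomial.eval_add, Polynomial.eval_C]
      omega
    have hQ : ∀ j, rc ℓ pS pN w.length (BP.eval j) + 2 ≤ (w.length + 1) * Q.eval j := by
      intro j
      have e : Q.eval j = pS.eval (ℓ + BP.eval j + 1) + pN.eval (BP.eval j) +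
          (8 * ℓ + 30 + (bits (S 0)).length) := by
        simp only [Q, Polynomial.eval_add, Polynomial.eval_C, Polynomial.eval_comp,
          Polynomial.eval_one]
      rw [e]
      unfold rc
      nlinarith [Nat.zero_le (w.length * pN.eval (BP.eval j)),
        Nat.zero_le (w.length * (bits (S 0)).length), Nat.zero_le (ℓ * w.length),
        Nat.zero_le (pS.eval (ℓ + BP.eval j + 1))]
    have hsum : (∑ j ∈ Finset.range (ℓ * w.length + 1), if ∀ j' < j, acc j' w then
        rc ℓ pS pN w.length (BP.eval j) + 2 else 0) ≤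
        (w.length + 1) * ∑ j ∈ Finset.range (ℓ * w.length + 1),
          if ∀ j' < j, acc j' w then Q.eval j else 0 := by
      rw [Finset.mul_sum]
      refine Finset.sum_le_sum fun j _ => ?_
      split_ifs
      · exact hQ j
      · exact Nat.zero_le _
    have hbase : 5 * (ℓ * w.length) + 1 + 1 + ((bits (S 0)).length + 1) +
        (2 * (ℓ * w.length + 1) + 2) ≤ (w.length + 1) * Q.eval 0 := by
      refine le_trans ?_ (Nat.mul_le_mul_left _ hQ0)
      nlinarith [Nat.zero_le (w.length * (bits (S 0)).length), Nat.zero_le (ℓ * w.length)]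
    have e6 := mul_add (w.length + 1) (Q.eval 0) (∑ j ∈ Finset.range (ℓ * w.length + 1),
          if ∀ j' < j, acc j' w then Q.eval j else 0)
    rw [e6]
    omega
  · rw [r5]
    simp only [zero_add, ← hacc]

end Loop

end Pool.Agent.H45R3.MB
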