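import Mathlib

/-!
# Coordinates on finite modules over a local principal ideal domain
-/

namespace Pool.Agent.H45R3.MB

open Submodule

/-- Triviality of a coordinate of type `τ`: equal to zero if `τ = none`, divisible by `ϖ ^ k` if
`τ = some k`. -/
def Tr {O : Type*} [CommRing O] (ϖ : O) : Option ℕ → O → Prop
  | none, u => u = 0
  | some k, u => ϖ ^ k ∣ u

theorem smith_aux {O : Type} [CommRing O] [IsDomain O] [IsPrincipalIdealRing O] [IsLocalRing O]
    (ϖ : O) (hϖ : IsLocalRing.maximalIdeal O = Ideal.span {ϖ}) (V : Type) [AddCommGroup V]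
    [Module O V] [Module.Finite O V] :
    ∃ (L : Type) (_ : Fintype L) (v : L → V) (ty : L → Option ℕ), (∀ x, ∃ u : L → O,
      x = ∑ l, u l • v l) ∧ (∀ u : L → O, ∑ l, u l • v l = 0 ↔ ∀ l, Tr ϖ (ty l) (u l)) ∧
      ∀ l, ty l ≠ none → ϖ ≠ 0 := by
  classical
  obtain ⟨n, ι, _, p, irr, e, ⟨φ⟩⟩ := Module.equiv_free_prod_directSum (R := O) (M := V)
  let ψ : V ≃ₗ[O] (Fin n → O) × (∀ j, O ⧸ (Submodule.span O {p j ^ e j})) :=
    φ.trans ((Finsupp.linearEquivFunOnFinite O O (Fin n)).prodCongr
      (DirectSum.linearEquivFunOnFintype O ι (fun j => O ⧸ (Submodule.span O {p j ^ e j}))))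
  let v : Fin n ⊕ ι → V := fun l => match l with
    | Sum.inl i => ψ.symm (Pi.single i 1, 0)
    | Sum.inr j => ψ.symm (0, Pi.single j (Submodule.Quotient.mk 1))
  have hsum : ∀ u : Fin n ⊕ ι → O, ψ (∑ l, u l • v l) =
      (fun i => u (Sum.inl i), fun j => Submodule.Quotient.mk (u (Sum.inr j))) := by
    intro u
    rw [Fintype.sum_sum_type, map_add, map_sum, map_sum]
    have h1 : ∀ i, ψ (u (Sum.inl i) • v (Sum.inl i)) = (Pi.single i (u (Sum.inl i)), 0) := by
      intro i
      rw [map_smul]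
      simp only [v, LinearEquiv.apply_symm_apply, Prod.smul_mk, smul_zero]
      congr 1
      rw [← Pi.single_smul, smul_eq_mul, mul_one]
    have h2 : ∀ j, ψ (u (Sum.inr j) • v (Sum.inr j)) =
        (0, Pi.single j (Submodule.Quotient.mk (u (Sum.inr j)))) := by
      intro j
      rw [map_smul]
      simp only [v, LinearEquiv.apply_symm_apply, Prod.smul_mk, smul_zero]
      congr 1
      rw [← Pi.single_smul, ← Submodule.Quotient.mk_smul, smul_eq_mul, mul_one]
    simp_rw [h1, h2]
    refine Prod.ext ?_ ?_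
    · rw [Prod.fst_add, Prod.fst_sum, Prod.fst_sum]
      simp only [Finset.sum_const_zero, add_zero]
      exact Finset.univ_sum_single (fun i => u (Sum.inl i))
    · rw [Prod.snd_add, Prod.snd_sum, Prod.snd_sum]
      simp only [Finset.sum_const_zero, zero_add]
      exact Finset.univ_sum_single (fun j => (Submodule.Quotient.mk (u (Sum.inr j)) :
        O ⧸ (Submodule.span O {p j ^ e j})))
  have hass : ∀ j, Associated (p j) ϖ := by
    intro j
    have h1 : (Ideal.span {p j}).IsMaximal := PrincipalIdealRing.isMaximal_of_irreducible (irr j)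
    have h2 := IsLocalRing.eq_maximalIdeal h1
    rw [hϖ] at h2
    exact Ideal.span_singleton_eq_span_singleton.1 h2
  refine ⟨Fin n ⊕ ι, inferInstance, v, fun l => match l with
    | Sum.inl _ => none
    | Sum.inr j => some (e j), ?_, ?_, ?_⟩
  · intro x
    have h3 : ∀ j, ∃ y : O, Submodule.Quotient.mk y = (ψ x).2 j := fun j =>
      Submodule.Quotient.mk_surjective _ _
    choose y hy using h3
    refine ⟨fun l => match l with
      | Sum.inl i => (ψ x).1 i
      | Sum.inr j => y j, ?_⟩
    apply ψ.injective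
    rw [hsum]
    refine Prod.ext ?_ ?_
    · rfl
    · funext j
      exact (hy j).symm
  · intro u
    rw [← ψ.map_eq_zero_iff, hsum, Prod.ext_iff]
    constructor
    · rintro ⟨h1, h2⟩ l
      rcases l with i | j
      · exact congrFun h1 i
      · have h3 := congrFun h2 j
        simp only [Prod.snd_zero, Pi.zero_apply, Submodule.Quotient.mk_eq_zero] at h3
        rw [Submodule.mem_span_singleton] at h3
        obtain ⟨c, hc⟩ := h3
        change ϖ ^ e j ∣ u (Sum.inr j)
        refine ((hass j).pow_pow.symm.dvd).trans ⟨c, ?_⟩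
        rw [← hc, smul_eq_mul, mul_comm]
    · intro h
      refine ⟨?_, ?_⟩
      · funext i
        exact h (Sum.inl i)
      · funext j
        simp only [Prod.snd_zero, Pi.zero_apply, Submodule.Quotient.mk_eq_zero]
        rw [Submodule.mem_span_singleton]
        have h3 : ϖ ^ e j ∣ u (Sum.inr j) := h (Sum.inr j)
        obtain ⟨c, hc⟩ := ((hass j).pow_pow.dvd).trans h3
        exact ⟨c, by rw [hc, smul_eq_mul, mul_comm]⟩
  · intro l hl
    rcases l with i | j
    · exact absurd rfl hl
    · intro h0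
      have h1 := hass j
      rw [h0] at h1
      exact (irr j).ne_zero ((associated_zero_iff_eq_zero _).1 h1)

theorem smith {O : Type} [CommRing O] [IsDomain O] [IsPrincipalIdealRing O] [IsLocalRing O]
    (ϖ : O) (hϖ : IsLocalRing.maximalIdeal O = Ideal.span {ϖ}) (V : Type) [AddCommGroup V]
    [Module O V] [Module.Finite O V] :
    ∃ (t : ℕ) (v : Fin t → V) (ty : Fin t → Option ℕ), (∀ x, ∃ u : Fin t → O,
      x = ∑ l, u l • v l) ∧ (∀ u : Fin t → O, ∑ l, u l • v l = 0 ↔ ∀ l, Tr ϖ (ty l) (u l)) ∧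
      ∀ l, ty l ≠ none → ϖ ≠ 0 := by
  obtain ⟨L, _, v, ty, h1, h2, h3⟩ := smith_aux ϖ hϖ V
  let ε := Fintype.equivFin L
  refine ⟨Fintype.card L, v ∘ ε.symm, ty ∘ ε.symm, ?_, ?_, fun l => h3 _⟩
  · intro x
    obtain ⟨u, hu⟩ := h1 x
    refine ⟨u ∘ ε.symm, ?_⟩
    rw [hu]
    exact (Equiv.sum_comp ε.symm (fun l => u l • v l)).symm
  · intro u
    have h4 := h2 (u ∘ ε)
    have h5 : ∑ l, (u ∘ ε) l • v l = ∑ l, u l • (v ∘ ε.symm) l := by
      rw [← Equiv.sum_comp ε.symm (fun l => (u ∘ ε) l • v l)]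
      simp
    rw [← h5, h4]
    constructor
    · intro h l
      have := h (ε.symm l)
      simpa using this
    · intro h l
      have := h (ε l)
      simpa using this

end Pool.Agent.H45R3.MB
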