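import Pool.Agent.H45R3.MB.MainLoop

/-!
# From structured programs to Mathlib's multi-stack machines reading letters
-/

namespace Pool.Agent.H45R3.MB

open Pool.Agent.H656R2
open Pool.Agent.H656R2.NPC (Cmd Run Runs inp)
open Turing
open Function (update)

/-- A multi-stack machine decides `P` with running time at most `time`. -/
def Dec2 {I : Type} (P : List I → Prop) (time : List I → ℕ) : Prop :=
  ∃ (K : Type) (_ : DecidableEq K) (_ : Fintype K)
    (Γ : K → Type) (_ : ∀ k, Fintype (Γ k))
    (Λ : Type) (_ : Inhabited Λ) (_ : Fintype Λ)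
    (σ : Type) (_ : Inhabited σ) (_ : Fintype σ)
    (M : Λ → TM2.Stmt Γ Λ σ) (k0 : K) (enc : I → Γ k0)
    (acc : σ → Bool) (T : List I → ℕ),
    Function.Injective enc ∧
    (∀ w : List I,
      (∃ c : TM2.Cfg Γ Λ σ,
        (fun d : Option (TM2.Cfg Γ Λ σ) => d.bind (TM2.step M))^[T w]
            (some (TM2.init k0 (w.map enc) : TM2.Cfg Γ Λ σ)) = some c ∧
          c.l = none ∧ (acc c.var = true ↔ P w)) ∧
      (∀ t < T w, ∀ c : TM2.Cfg Γ Λ σ,
        (fun d : Option (TM2.Cfg Γ Λ σ) => d.bind (TM2.step M))^[t]
            (some (TM2.init k0 (w.map enc) : TM2.Cfg Γ Λ σ)) = some c → c.l ≠ none)) ∧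
    ∀ w, T w ≤ time w

section NotBefore

variable {K : Type} [DecidableEq K] {Γ : K → Type} {Λ σ : Type}

theorem iterate_none (M : Λ → TM2.Stmt Γ Λ σ) (n : ℕ) :
    (fun d : Option (TM2.Cfg Γ Λ σ) => d.bind (TM2.step M))^[n] none = none := by
  induction n with
  | zero => rfl
  | succ n ih => rw [Function.iterate_succ_apply]; exact ih

theorem not_halted_before (M : Λ → TM2.Stmt Γ Λ σ) {a c' : TM2.Cfg Γ Λ σ} {T : ℕ}
    (h : (fun d : Option (TM2.Cfg Γ Λ σ) => d.bind (TM2.step M))^[T] (some a) = some c') :
    ∀ t < T, ∀ c : TM2.Cfg Γ Λ σ,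
      (fun d : Option (TM2.Cfg Γ Λ σ) => d.bind (TM2.step M))^[t] (some a) = some c →
      c.l ≠ none := by
  intro t ht c hc hl
  obtain ⟨d, rfl⟩ : ∃ d, T = (d + 1) + t := ⟨T - t - 1, by omega⟩
  rw [Function.iterate_add_apply, hc, Function.iterate_succ_apply] at h
  have h1 : (some c : Option (TM2.Cfg Γ Λ σ)).bind (TM2.step M) = none := by
    obtain ⟨l, v, S⟩ := c
    simp only at hl
    subst hl
    rfl
  rw [h1, iterate_none] at h
  exact absurd h (by simp)

end NotBefore

section Compile

variable {I : Type} {B : ℕ}

/-- The stack alphabets: letters on the input stack, bits on the others. -/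
abbrev Gam (I : Type) (B : ℕ) (k : Option (Fin (B + 1))) : Type :=
  Option.rec I (fun _ => Bool) k

/-- Statements. -/
abbrev Stm' (I : Type) (B : ℕ) (L : Type) : Type :=
  TM2.Stmt (Gam I B) L (Option Bool × Option I)

/-- The code of a program. -/
def code' {L : Type} : (c : Cmd (Fin (B + 1))) → (c.Lbl → L) → L → c.Lbl → Stm' I B L
  | Cmd.skip, _, exit, _ => TM2.Stmt.goto fun _ => exit
  | Cmd.push k b, _, exit, _ =>
    TM2.Stmt.push (Γ := Gam I B) (some k) (fun _ => b) (TM2.Stmt.goto fun _ => exit)
  | Cmd.pop k, _, exit, _ =>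
    TM2.Stmt.pop (Γ := Gam I B) (some k) (fun v _ => v) (TM2.Stmt.goto fun _ => exit)
  | Cmd.seq c d, emb, exit, l =>
    Sum.rec (fun l => code' c (fun x => emb (Sum.inl x)) (emb (Sum.inr d.entry)) l)
      (fun l => code' d (fun x => emb (Sum.inr x)) exit l) l
  | Cmd.cases k c₀ cf ct, emb, exit, l =>
    Option.rec (TM2.Stmt.peek (Γ := Gam I B) (some k) (fun v a => (a, v.2))
        (TM2.Stmt.goto fun v => match v.1 with
          | none => emb (some (Sum.inl c₀.entry))
          | some false => emb (some (Sum.inr (Sum.inl cf.entry)))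
          | some true => emb (some (Sum.inr (Sum.inr ct.entry)))))
      (fun l => Sum.rec (fun l => code' c₀ (fun x => emb (some (Sum.inl x))) exit l)
        (fun l => Sum.rec (fun l => code' cf (fun x => emb (some (Sum.inr (Sum.inl x)))) exit l)
          (fun l => code' ct (fun x => emb (some (Sum.inr (Sum.inr x)))) exit l) l) l) l
  | Cmd.loop k c, emb, exit, l =>
    Option.rec (TM2.Stmt.peek (Γ := Gam I B) (some k) (fun v a => (a, v.2))
        (TM2.Stmt.goto fun v => match v.1 with
          | none => exit
          | some _ => emb (some c.entry)))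
      (fun l => code' c (fun x => emb (some x)) (emb none) l) l

/-- The stacks. -/
def stk (u : List I) (s : Fin (B + 1) → List Bool) : ∀ k, List (Gam I B k)
  | none => u
  | some j => s j

theorem stk_update (u : List I) (s : Fin (B + 1) → List Bool) (k : Fin (B + 1)) (v : List Bool) :
    update (stk u s) (some k) v = stk u (update s k v) := by
  funext j
  cases j with
  | none => rw [Function.update_of_ne (by simp)]; rfl
  | some j =>
    by_cases h : j = k
    · subst h
      rw [Function.update_self]
      change v = update s j v j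
      rw [Function.update_self]
    · rw [Function.update_of_ne (by simpa using h)]
      change s j = update s k v j
      rw [Function.update_of_ne h]

theorem stk_update_none (u : List I) (s : Fin (B + 1) → List Bool) (u' : List I) :
    update (stk u s) none u' = stk u' s := by
  funext j
  cases j with
  | none => rw [Function.update_self]; rfl
  | some j => rw [Function.update_of_ne (by simp)]; rfl

/-- `n` machine steps. -/
def Steps' {L : Type} (M : L → Stm' I B L) (n : ℕ)
    (a b : TM2.Cfg (Gam I B) L (Option Bool × Option I)) : Prop :=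
  (fun d : Option (TM2.Cfg (Gam I B) L (Option Bool × Option I)) => d.bind (TM2.step M))^[n]
    (some a) = some b

theorem Steps'.trans {L : Type} {M : L → Stm' I B L} {m n : ℕ} {a b c} (h₁ : Steps' M m a b)
    (h₂ : Steps' M n b c) : Steps' M (m + n) a c := by
  unfold Steps' at *
  rw [add_comm m n, Function.iterate_add_apply, h₁, h₂]

theorem Steps'.one {L : Type} {M : L → Stm' I B L} {a b} (h : TM2.step M a = some b) :
    Steps' M 1 a b := by
  unfold Steps'
  simpa using h

theorem code'_correct {c : Cmd (Fin (B + 1))} {s s' : Fin (B + 1) → List Bool} {t : ℕ}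
    (h : Run c s s' t) : ∀ {L : Type} (M : L → Stm' I B L) (emb : c.Lbl → L) (exit : L),
      (∀ l, M (emb l) = code' c emb exit l) →
      ∀ v u, ∃ v', Steps' M t ⟨some (emb c.entry), v, stk u s⟩ ⟨some exit, v', stk u s'⟩ := by
  induction h with
  | skip s =>
    intro L M emb exit hM v u
    refine ⟨v, Steps'.one ?_⟩
    simp [TM2.step, hM, code']
  | push s k b =>
    intro L M emb exit hM v u
    refine ⟨v, Steps'.one ?_⟩
    simp only [TM2.step, hM, code', TM2.stepAux]
    rw [← stk_update]
    rfl
  | pop s k =>
    intro L M emb exit hM v u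
    refine ⟨v, Steps'.one ?_⟩
    simp only [TM2.step, hM, code', TM2.stepAux]
    rw [← stk_update]
    rfl
  | @seq c d s s' s'' t t' _ _ ih₁ ih₂ =>
    intro L M emb exit hM v u
    obtain ⟨v₁, h₁⟩ := ih₁ M (fun x => emb (Sum.inl x)) (emb (Sum.inr d.entry))
      (fun l => hM (Sum.inl l)) v u
    obtain ⟨v₂, h₂⟩ := ih₂ M (fun x => emb (Sum.inr x)) exit (fun l => hM (Sum.inr l)) v₁ u
    exact ⟨v₂, h₁.trans h₂⟩
  | @casesNil k c₀ cf ct s s' t hk _ ih =>
    intro L M emb exit hM v u
    obtain ⟨v₁, h₁⟩ := ih M (fun x => emb (some (Sum.inl x))) exit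
      (fun l => hM (some (Sum.inl l))) (none, v.2) u
    refine ⟨v₁, ?_⟩
    rw [add_comm]
    refine Steps'.trans (Steps'.one ?_) h₁
    have h2 : M (emb none) = _ := hM none
    have h3 : (stk u s (some k)).head? = (none : Option Bool) := by
      change (s k).head? = none
      rw [hk]; rfl
    simp only [TM2.step, Cmd.entry, h2, code', TM2.stepAux, h3]
  | @casesFalse k c₀ cf ct s s' t l hk _ ih =>
    intro L M emb exit hM v u
    obtain ⟨v₁, h₁⟩ := ih M (fun x => emb (some (Sum.inr (Sum.inl x)))) exit
      (fun l => hM (some (Sum.inr (Sum.inl l)))) (some false, v.2) u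
    refine ⟨v₁, ?_⟩
    rw [add_comm]
    refine Steps'.trans (Steps'.one ?_) h₁
    have h2 : M (emb none) = _ := hM none
    have h3 : (stk u s (some k)).head? = (some false : Option Bool) := by
      change (s k).head? = some false
      rw [hk]; rfl
    simp only [TM2.step, Cmd.entry, h2, code', TM2.stepAux, h3]
  | @casesTrue k c₀ cf ct s s' t l hk _ ih =>
    intro L M emb exit hM v u
    obtain ⟨v₁, h₁⟩ := ih M (fun x => emb (some (Sum.inr (Sum.inr x)))) exit
      (fun l => hM (some (Sum.inr (Sum.inr l)))) (some true, v.2) u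
    refine ⟨v₁, ?_⟩
    rw [add_comm]
    refine Steps'.trans (Steps'.one ?_) h₁
    have h2 : M (emb none) = _ := hM none
    have h3 : (stk u s (some k)).head? = (some true : Option Bool) := by
      change (s k).head? = some true
      rw [hk]; rfl
    simp only [TM2.step, Cmd.entry, h2, code', TM2.stepAux, h3]
  | @loopNil k c s hk =>
    intro L M emb exit hM v u
    refine ⟨(none, v.2), Steps'.one ?_⟩
    have h2 : M (emb none) = _ := hM none
    have h3 : (stk u s (some k)).head? = (none : Option Bool) := by
      change (s k).head? = none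
      rw [hk]; rfl
    simp only [TM2.step, Cmd.entry, h2, code', TM2.stepAux, h3]
  | @loopCons k c s s' s'' t t' hk _ _ ih₁ ih₂ =>
    intro L M emb exit hM v u
    obtain ⟨b, l, hl⟩ := List.exists_cons_of_ne_nil hk
    obtain ⟨v₁, h₁⟩ := ih₁ M (fun x => emb (some x)) (emb none)
      (fun l => hM (some l)) (some b, v.2) u
    obtain ⟨v₂, h₂⟩ := ih₂ M emb exit hM v₁ u
    refine ⟨v₂, ?_⟩
    have e : t + t' + 1 = 1 + (t + t') := by ring
    rw [e]
    refine Steps'.trans (Steps'.one ?_) (h₁.trans h₂)
    have h2 : M (emb none) = _ := hM none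
    have h3 : (stk u s (some k)).head? = (some b : Option Bool) := by
      change (s k).head? = some b
      rw [hl]; rfl
    simp only [TM2.step, Cmd.entry, h2, code', TM2.stepAux, h3]

/-- Push the bits `0, …, j - 1` of the block of the current letter. -/
def pushN {L : Type} (blkv : Option I → List Bool) : ℕ → Stm' I B L → Stm' I B L
  | 0, q => q
  | j + 1, q => TM2.Stmt.push (Γ := Gam I B) (some 0) (fun v => (blkv v.2).getD j false)
      (pushN blkv j q)

theorem pushN_aux {L : Type} (blkv : Option I → List Bool) (q : Stm' I B L)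
    (v : Option Bool × Option I) : ∀ (j : ℕ) (u : List I) (s : Fin (B + 1) → List Bool),
    j ≤ (blkv v.2).length →
    TM2.stepAux (pushN blkv j q) v (stk u s) =
      TM2.stepAux q v (stk u (update s 0 ((blkv v.2).take j ++ s 0))) := by
  intro j
  induction j with
  | zero => intro u s _; simp [pushN]
  | succ j ih =>
    intro u s hj
    have h1 : TM2.stepAux (pushN blkv (j + 1) q) v (stk u s) =
        TM2.stepAux (pushN blkv j q) v (stk u (update s 0 ((blkv v.2).getD j false :: s 0))) := by
      rw [← stk_update]
      rfl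
    rw [h1, ih _ _ (by omega)]
    congr 2
    rw [Function.update_idem]
    congr 1
    rw [Function.update_self, List.getD_eq_getElem _ _ (by omega),
      List.take_succ_eq_append_getElem (show j < (blkv v.2).length by omega), List.append_assoc]
    rfl

/-- The machine. -/
def mach (blkv : Option I → List Bool) (ℓ : ℕ) (c : Cmd (Fin (B + 1))) (ans : Fin (B + 1)) :
    Option (Option c.Lbl) → Stm' I B (Option (Option c.Lbl))
  | none => TM2.Stmt.pop (Γ := Gam I B) none (fun v a => (v.1, a))
      (TM2.Stmt.branch (fun v => v.2.isSome) (pushN blkv ℓ (TM2.Stmt.goto fun _ => none))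
        (TM2.Stmt.goto fun _ => some (some c.entry)))
  | some none => TM2.Stmt.peek (Γ := Gam I B) (some ans) (fun v a => (a, v.2)) TM2.Stmt.halt
  | some (some l) => code' c (fun x => some (some x)) (some none) l

theorem read_phase (blk : I → List Bool) (ℓ : ℕ) (hblk : ∀ a, (blk a).length = ℓ)
    (c : Cmd (Fin (B + 1))) (ans : Fin (B + 1)) :
    ∀ (w : List I) (v : Option Bool × Option I) (s : Fin (B + 1) → List Bool), ∃ v',
      Steps' (mach (fun o => (o.map blk).getD []) ℓ c ans) (w.length + 1)
        ⟨some none, v, stk w s⟩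
        ⟨some (some (some c.entry)), v', stk [] (update s 0 (w.reverse.flatMap blk ++ s 0))⟩ := by
  intro w
  induction w with
  | nil =>
    intro v s
    refine ⟨(v.1, none), Steps'.one ?_⟩
    simp only [List.reverse_nil, List.flatMap_nil, List.nil_append, Function.update_eq_self]
    change some (TM2.stepAux (mach _ ℓ c ans none) v (stk [] s)) = _
    simp only [mach, TM2.stepAux]
    have h1 : (stk ([] : List I) s none).head? = (none : Option I) := rfl
    have h2 : update (stk ([] : List I) s) none (stk ([] : List I) s none).tail = stk [] s :=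
      stk_update_none _ _ _
    rw [h1, h2]
    rfl
  | cons a w ih =>
    intro v s
    obtain ⟨v', hv'⟩ := ih (v.1, some a) (update s 0 (blk a ++ s 0))
    refine ⟨v', ?_⟩
    have e : (a :: w).length + 1 = 1 + (w.length + 1) := by simp; omega
    rw [e]
    have h3 : update (update s 0 (blk a ++ s 0)) 0
        (w.reverse.flatMap blk ++ update s 0 (blk a ++ s 0) 0) =
        update s 0 ((a :: w).reverse.flatMap blk ++ s 0) := by
      rw [Function.update_idem, Function.update_self, List.reverse_cons, List.flatMap_append]
      simp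
    rw [h3] at hv'
    refine Steps'.trans (Steps'.one ?_) hv'
    change some (TM2.stepAux (mach _ ℓ c ans none) v (stk (a :: w) s)) = _
    have h1 : (stk (a :: w) s none).head? = (some a : Option I) := rfl
    have h2 : update (stk (a :: w) s) none (stk (a :: w) s none).tail = stk w s :=
      stk_update_none _ _ _
    simp only [mach, TM2.stepAux]
    rw [h1, h2]
    simp only [Option.isSome_some, cond_true]
    rw [pushN_aux _ _ _ _ _ _ (by simp [hblk])]
    simp only [TM2.stepAux, Option.map_some, Option.getD_some]
    rw [List.take_of_length_le (by rw [hblk])]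

end Compile

theorem dec2_of_cmd {I : Type} [Fintype I] (P : List I → Prop) (blk : I → List Bool) (ℓ : ℕ)
    (hblk : ∀ a, (blk a).length = ℓ) (c : Cmd ℕ) (ans : ℕ) (time : List I → ℕ)
    (hc : ∀ w : List I, ∃ s', Runs c (inp (w.reverse.flatMap blk)) s' (time w) ∧
      (s' ans = [] ↔ P w)) : Dec2 P (fun w => w.length + 2 + time w) := by
  classical
  set B := max c.bd ans with hB
  have hcB : c.bd ≤ B + 1 := by omega
  have hans : ans < B + 1 := by omega
  let c' : Cmd (Fin (B + 1)) := c.map (Fin.ofNat (B + 1))
  choose s' hs' using hc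
  choose t ht hrun using fun w => (hs' w).1
  let M := mach (I := I) (fun o => (o.map blk).getD []) ℓ c' ⟨ans, hans⟩
  have key : ∀ w : List I, ∃ v' : Option Bool × Option I,
      Steps' M (w.length + 1 + t w + 1) ⟨some none, (none, none), stk w (fun _ => [])⟩
        ⟨none, v', stk [] (fun i : Fin (B + 1) => s' w i)⟩ ∧ (v'.1 = none ↔ P w) := by
    intro w
    obtain ⟨v1, h1⟩ := read_phase blk ℓ hblk c' ⟨ans, hans⟩ w (none, none)
      (fun _ : Fin (B + 1) => [])
    have h2 : update (fun _ : Fin (B + 1) => ([] : List Bool)) 0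
        (w.reverse.flatMap blk ++ []) = fun i : Fin (B + 1) => inp (w.reverse.flatMap blk) (i : ℕ) := by
      funext i
      rw [List.append_nil]
      by_cases hi : i = 0
      · subst hi; simp [inp]
      · have : (i : ℕ) ≠ 0 := fun h => hi (Fin.ext h)
        simp [inp, hi, this]
    rw [h2] at h1
    obtain ⟨v2, h3⟩ := code'_correct ((hrun w).restrict (n := B) hcB) M (fun x => some (some x))
      (some none) (fun l => rfl) v1 ([] : List I)
    refine ⟨((s' w ans).head?, v2.2), (h1.trans h3).trans (Steps'.one ?_), ?_⟩
    · rfl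
    · rw [← (hs' w).2]
      simp
  refine ⟨Option (Fin (B + 1)), inferInstance, inferInstance, Gam I B, fun k => by
      cases k with
      | none => exact inferInstanceAs (Fintype I)
      | some k => exact inferInstanceAs (Fintype Bool),
    Option (Option c'.Lbl), ⟨none⟩, inferInstance, Option Bool × Option I, ⟨(none, none)⟩,
    inferInstance, M, none, fun a => a, fun v => v.1.isNone, fun w => w.length + 1 + t w + 1,
    fun a b h => h, fun w => ?_, fun w => ?_⟩
  · obtain ⟨v', h1, h2⟩ := key w
    let iΛ : Inhabited (Option (Option c'.Lbl)) := ⟨none⟩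
    let iσ : Inhabited (Option Bool × Option I) := ⟨(none, none)⟩
    have hinit : (TM2.init (Γ := Gam I B) (Λ := Option (Option c'.Lbl))
        (σ := Option Bool × Option I) none (w.map fun a => a)) =
        ⟨some none, (none, none), stk w (fun _ => [])⟩ := by
      unfold TM2.init
      congr 1
      funext k
      cases k with
      | none => rw [Function.update_self]; exact List.map_id w
      | some k => rw [Function.update_of_ne (by simp)]; rfl
    have h3 : (fun d : Option (TM2.Cfg (Gam I B) (Option (Option c'.Lbl))
        (Option Bool × Option I)) => d.bind (TM2.step M))^[w.length + 1 + t w + 1]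
          (some (TM2.init (Γ := Gam I B) (Λ := Option (Option c'.Lbl))
            (σ := Option Bool × Option I) none (w.map fun a => a))) =
        some ⟨none, v', stk [] (fun i : Fin (B + 1) => s' w i)⟩ := by
      rw [hinit]
      exact h1
    refine ⟨⟨_, h3, rfl, ?_⟩, not_halted_before M h3⟩
    rw [← h2]
    simp
  · have := ht w
    simp only
    omega

end Pool.Agent.H45R3.MB
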