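import Pool.Agent.H45R3.MB.Vec

/-!
# Polynomial-time testers for the finite-level tests
-/

namespace Pool.Agent.H45R3.MB

open Pool.Agent.H656R2
open Pool.Agent.H656R2.NPC (TEnc sz sz_nat_le length_lt_sz UPoly eval_mono)
open AddMonoidAlgebra (single)

/-- A family of tests on words, indexed by levels, decided by machines reading the word letter by
letter with a state of size polynomial in the level only. -/
def Tester {I : Type} (acc : ℕ → List I → Prop) : Prop :=
  ∃ (σ : Type) (_ : TEnc σ) (init : List Unit → σ) (step : I → σ → σ) (test : σ → Bool)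
    (q : Polynomial ℕ), NPC.Poly init ∧ (∀ a, NPC.Poly (step a)) ∧ NPC.Poly test ∧
    (∀ (l : List Unit) (w : List I),
      sz (w.foldl (fun s a => step a s) (init l)) ≤ q.eval l.length) ∧
    ∀ (l : List Unit) (w : List I), acc l.length w ↔
      test (w.foldl (fun s a => step a s) (init l)) = true

theorem Tester.true' {I : Type} : Tester (fun _ (_ : List I) => True) := by
  refine ⟨Unit, inferInstance, fun _ => (), fun _ _ => (), fun _ => true, 1,
    NPC.Poly.const _, fun _ => NPC.Poly.const _, NPC.Poly.const _, ?_, ?_⟩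
  · intro l w; simp
  · intro l w; simp

theorem Tester.and {I : Type} {acc acc' : ℕ → List I → Prop} (h : Tester acc)
    (h' : Tester acc') : Tester (fun i w => acc i w ∧ acc' i w) := by
  obtain ⟨σ, iσ, init, step, test, q, h1, h2, h3, h4, h5⟩ := h
  obtain ⟨σ', iσ', init', step', test', q', h1', h2', h3', h4', h5'⟩ := h'
  have hfold : ∀ (w : List I) (s : σ) (s' : σ'),
      w.foldl (fun (s : σ × σ') a => (step a s.1, step' a s.2)) (s, s') =
      (w.foldl (fun s a => step a s) s, w.foldl (fun s a => step' a s) s') := by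
    intro w
    induction w with
    | nil => intro s s'; rfl
    | cons a w ih => intro s s'; exact ih _ _
  refine ⟨σ × σ', inferInstance, fun l => (init l, init' l),
    fun a s => (step a s.1, step' a s.2), fun s => test s.1 && test' s.2, q + q' + 1,
    NPC.Poly.pair h1 h1', fun a => NPC.Poly.pair ((h2 a).comp (NPC.Poly.fst NPC.Poly.id))
      ((h2' a).comp (NPC.Poly.snd NPC.Poly.id)),
    NPC.Poly.and (h3.comp (NPC.Poly.fst NPC.Poly.id)) (h3'.comp (NPC.Poly.snd NPC.Poly.id)),
    ?_, ?_⟩
  · intro l w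
    rw [hfold, NPC.sz_pair, Polynomial.eval_add, Polynomial.eval_add, Polynomial.eval_one]
    have := h4 l w
    have := h4' l w
    omega
  · intro l w
    rw [hfold]
    change (acc l.length w ∧ acc' l.length w) ↔ (test _ && test' _) = true
    rw [h5, h5', Bool.and_eq_true]

theorem Tester.list {I ι : Type} (cs : List ι) (acc : ι → ℕ → List I → Prop)
    (h : ∀ c ∈ cs, Tester (acc c)) : Tester (fun i w => ∀ c ∈ cs, acc c i w) := by
  induction cs with
  | nil =>
    obtain ⟨σ, iσ, init, step, test, q, h1, h2, h3, h4, h5⟩ := Tester.true' (I := I)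
    refine ⟨σ, iσ, init, step, test, q, h1, h2, h3, h4, ?_⟩
    intro l w
    rw [← h5]
    simp
  | cons c cs ih =>
    obtain ⟨σ, iσ, init, step, test, q, h1, h2, h3, h4, h5⟩ :=
      (h c (by simp)).and (ih fun c hc => h c (by simp [hc]))
    refine ⟨σ, iσ, init, step, test, q, h1, h2, h3, h4, ?_⟩
    intro l w
    rw [← h5]
    simp

section Lin

variable {J N : ℕ}

theorem poly_entry {α : Type} [TEnc α] (Y : Fin N → Fin N → MvPolynomial (Fin J) ℤ) (o : Fin N)
    {s d : α → ℕ} {q : α → ℕ} {U : α → List (List ℕ)} {g : α → ℕ}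
    (hs : UPoly s) (hd : UPoly d) (hq : NPC.Poly q) (hU : NPC.Poly U) (hg : NPC.Poly g) :
    NPC.Poly (fun a => entry Y (s a) (d a) (q a) (U a) o (g a)) := by
  unfold entry
  refine NPC.Poly.mod ?_ hq
  refine poly_sumFixed _ _ fun o' _ => ?_
  refine poly_sumFixed _ _ fun m _ => ?_
  refine NPC.Poly.mul (poly_cf _ hq) ?_
  have hk : UPoly (fun a => kexp (s a) m) := by
    have := UPoly.eval hs (∑ j : Fin J, Polynomial.C (m j) * Polynomial.X ^ (j : ℕ))
    refine NPC.Poly.congr this fun a => ?_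
    simp [kexp, Polynomial.eval_finsetSum]
  exact NPC.Poly.getD (NPC.Poly.getD hU (NPC.Poly.const _) (NPC.Poly.const _))
    (NPC.Poly.mod (NPC.Poly.add hg (NPC.Poly.sub hd.toPoly
      (NPC.Poly.mod hk.toPoly hd.toPoly))) hd.toPoly) (NPC.Poly.const 0)

theorem poly_vstep {α : Type} [TEnc α] (Y : Fin N → Fin N → MvPolynomial (Fin J) ℤ)
    {s d : α → ℕ} {q : α → ℕ} {U : α → List (List ℕ)}
    (hs : UPoly s) (hd : UPoly d) (hq : NPC.Poly q) (hU : NPC.Poly U) :
    NPC.Poly (fun a => vstep Y (s a) (d a) (q a) (U a)) := by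
  unfold vstep
  refine poly_mapFixed _ _ fun o _ => ?_
  refine NPC.Poly.map (F := fun a g => entry Y (s a) (d a) (q a) (U a) o g) hd.range ?_
  exact poly_entry Y o (hs.comp (NPC.Poly.fst NPC.Poly.id)) (hd.comp (NPC.Poly.fst NPC.Poly.id))
    (hq.comp (NPC.Poly.fst NPC.Poly.id)) (hU.comp (NPC.Poly.fst NPC.Poly.id))
    (NPC.Poly.snd NPC.Poly.id)

/-- The vector state is in normal form. -/
def Small (N d q : ℕ) (U : List (List ℕ)) : Prop :=
  U.length = N ∧ ∀ l ∈ U, l.length = d ∧ ∀ x ∈ l, x < q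

theorem vstep_small (Y : Fin N → Fin N → MvPolynomial (Fin J) ℤ) (s d q : ℕ) (hq : 0 < q)
    (U : List (List ℕ)) : Small N d q (vstep Y s d q U) := by
  refine ⟨by simp [vstep], fun l hl => ?_⟩
  unfold vstep at hl
  rw [List.mem_map] at hl
  obtain ⟨o, _, rfl⟩ := hl
  refine ⟨by simp, fun x hx => ?_⟩
  rw [List.mem_map] at hx
  obtain ⟨g, _, rfl⟩ := hx
  exact Nat.mod_lt _ hq

theorem Small.sz_le {N d q : ℕ} {U : List (List ℕ)} (h : Small N d q U) :
    sz U ≤ N * (d * (4 * q.size + 2) + 2) + 1 := by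
  have h1 : ∀ l ∈ U, sz l ≤ d * (4 * q.size + 2) + 1 := by
    intro l hl
    obtain ⟨h2, h3⟩ := h.2 l hl
    have h4 := NPC.sz_le_length_mul l (4 * q.size + 1) (by
      intro x hx
      have h5 := sz_nat_le x
      have h6 := Nat.size_le_size (h3 x hx).le
      omega)
    rw [h2] at h4
    exact h4
  have h2 := NPC.sz_le_length_mul U _ h1
  rw [h.1] at h2
  exact h2

end Lin

/-! ### The tester of a component -/

/-- The index set of the state vector: a square matrix and a scalar. -/
abbrev Om (t : ℕ) : Type := (Fin t × Fin t) ⊕ Unit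

/-- The matrix of a letter on the state vector. -/
noncomputable def ZZ {t J : ℕ} (X : Matrix (Fin t) (Fin t) (MvPolynomial (Fin J) ℤ))
    (D : MvPolynomial (Fin J) ℤ) : Om t → Om t → MvPolynomial (Fin J) ℤ
  | Sum.inl p, Sum.inl p' => if p.1 = p'.1 then X p.2 p'.2 else 0
  | Sum.inr _, Sum.inr _ => D
  | _, _ => 0

/-- The state vector made of a matrix and a scalar. -/
def vec {t d : ℕ} (M : Matrix (Fin t) (Fin t) (EE d)) (x : EE d) : Om t → EE d
  | Sum.inl p => M p.1 p.2
  | Sum.inr _ => x

theorem vec_step {t J d s : ℕ} (X : Matrix (Fin t) (Fin t) (MvPolynomial (Fin J) ℤ))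
    (D : MvPolynomial (Fin J) ℤ) (M : Matrix (Fin t) (Fin t) (EE d)) (x : EE d) (ω : Om t) :
    ∑ ω', vec M x ω' * kron J s d (ZZ X D ω' ω) =
      vec (M * X.map (kron J s d)) (x * kron J s d D) ω := by
  rw [Fintype.sum_sum_type]
  rcases ω with ⟨j, l⟩ | u
  · simp only [vec, ZZ, map_zero, mul_zero, Finset.sum_const_zero, add_zero]
    rw [Fintype.sum_prod_type, Finset.sum_eq_single j]
    · rw [Matrix.mul_apply]
      refine Finset.sum_congr rfl fun l' _ => ?_
      simp
    · intro j' _ hj'
      simp [hj']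
    · simp
  · simp only [vec, ZZ, map_zero, mul_zero, Finset.sum_const_zero, zero_add]
    simp

/-- The enumeration of the index set. -/
noncomputable def omE (t : ℕ) : Om t ≃ Fin (Fintype.card (Om t)) := Fintype.equivFin _

/-- The matrix of a letter, on enumerated indices. -/
noncomputable def YY {t J : ℕ} (X : Matrix (Fin t) (Fin t) (MvPolynomial (Fin J) ℤ))
    (D : MvPolynomial (Fin J) ℤ) (o' o : Fin (Fintype.card (Om t))) : MvPolynomial (Fin J) ℤ :=
  ZZ X D ((omE t).symm o') ((omE t).symm o)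

/-- The list of lists represents the matrix and the scalar. -/
def RepM {t : ℕ} (d q : ℕ) (U : List (List ℕ)) (M : Matrix (Fin t) (Fin t) (EE d)) (x : EE d) :
    Prop :=
  Rep d q U (fun o => vec M x ((omE t).symm o))

theorem repM_step {t J d q s : ℕ} [NeZero d] (hq : 0 < q)
    (X : Matrix (Fin t) (Fin t) (MvPolynomial (Fin J) ℤ))
    (D : MvPolynomial (Fin J) ℤ) {U : List (List ℕ)} {M : Matrix (Fin t) (Fin t) (EE d)} {x : EE d}
    (h : RepM d q U M x) :
    RepM d q (vstep (YY X D) s d q U) (M * X.map (kron J s d)) (x * kron J s d D) := by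
  have h1 := rep_step (s := s) hq (YY X D) h
  have h2 : (fun o => ∑ o', vec M x ((omE t).symm o') * kron J s d (YY X D o' o)) =
      fun o => vec (M * X.map (kron J s d)) (x * kron J s d D) ((omE t).symm o) := by
    funext o
    rw [← vec_step]
    exact Equiv.sum_comp (omE t).symm
      (fun ω' => vec M x ω' * kron J s d (ZZ X D ω' ((omE t).symm o)))
  unfold RepM
  rw [← h2]
  exact h1

/-- The initial vector. -/
noncomputable def U0 (t d : ℕ) : List (List ℕ) :=
  (List.finRange (Fintype.card (Om t))).map fun o => (List.range d).map fun g =>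
    if g = 0 then (match (omE t).symm o with
      | Sum.inl p => if p.1 = p.2 then 1 else 0
      | Sum.inr _ => 1) else 0

theorem U0_rep (t d q : ℕ) [NeZero d] :
    RepM d q (U0 t d) (1 : Matrix (Fin t) (Fin t) (EE d)) 1 := by
  intro o g hg
  unfold U0
  rw [getD_finRange_map, getD_range_map _ _ _ hg]
  have h0 : ((g : ℕ) : ZMod d) = 0 ↔ g = 0 := by
    rw [ZMod.natCast_eq_zero_iff]
    constructor
    · intro h
      by_contra hne
      have := Nat.le_of_dvd (Nat.pos_of_ne_zero hne) h
      omega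
    · rintro rfl; exact dvd_zero _
  have h1 : (1 : EE d).coeff ((g : ℕ) : ZMod d) = if g = 0 then 1 else 0 := by
    rw [AddMonoidAlgebra.one_def, AddMonoidAlgebra.coeff_single, Finsupp.single_apply]
    by_cases hg0 : g = 0
    · rw [if_pos hg0, if_pos (h0.2 hg0).symm]
    · rw [if_neg hg0, if_neg (fun h => hg0 (h0.1 h.symm))]
  rcases hω : (omE t).symm o with ⟨j, l⟩ | u
  · simp only [hω, vec]
    rw [Matrix.one_apply]
    by_cases hjl : j = l
    · rw [if_pos hjl, if_pos hjl, h1]
      split_ifs <;> simp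
    · rw [if_neg hjl, if_neg hjl]
      simp
  · simp only [hω, vec]
    rw [h1]
    split_ifs <;> simp

theorem U0_small (t d q : ℕ) (hq : 1 < q) : Small (Fintype.card (Om t)) d q (U0 t d) := by
  refine ⟨by simp [U0], fun l hl => ?_⟩
  unfold U0 at hl
  rw [List.mem_map] at hl
  obtain ⟨o, _, rfl⟩ := hl
  refine ⟨by simp, fun x hx => ?_⟩
  rw [List.mem_map] at hx
  obtain ⟨g, _, rfl⟩ := hx
  split_ifs
  · split
    · split_ifs <;> omega
    · exact hq
  · omega

theorem poly_U0 {α : Type} [TEnc α] (t : ℕ) {d : α → ℕ} (hd : UPoly d) :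
    NPC.Poly (fun a => U0 t (d a)) := by
  unfold U0
  refine poly_mapFixed _ _ fun o _ => ?_
  exact NPC.Poly.map (F := fun a g => if g = 0 then (match (omE t).symm o with
      | Sum.inl p => if p.1 = p.2 then 1 else 0
      | Sum.inr _ => 1) else 0) hd.range
    (NPC.Poly.ite (NPC.Poly.decide_eq (NPC.Poly.snd NPC.Poly.id) (NPC.Poly.const 0))
      (NPC.Poly.const _) (NPC.Poly.const 0))

end Pool.Agent.H45R3.MB
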