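import Pool.Agent.H45R3.MB.Tester

/-!
# The tester of a component
-/

namespace Pool.Agent.H45R3.MB

open Pool.Agent.H656R2
open Pool.Agent.H656R2.NPC (TEnc sz sz_nat_le length_lt_sz UPoly eval_mono)
open AddMonoidAlgebra (single)

namespace CompData

variable {I : Type} (c : CompData I) (b : ℕ)

/-- The scale as a polynomial in the level. -/
noncomputable def ps : Polynomial ℕ := Polynomial.C b * (Polynomial.X + 1) + 1
/-- The exponent as a polynomial in the level. -/
noncomputable def pK : Polynomial ℕ := Polynomial.C b * (Polynomial.X + Polynomial.C 2)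
/-- The order of the cyclic group as a polynomial in the level. -/
noncomputable def pd : Polynomial ℕ := Polynomial.C c.p * ps b ^ c.J + 1

theorem ps_eval (i : ℕ) : (ps b).eval i = b * (i + 1) + 1 := by simp [ps]
theorem pK_eval (i : ℕ) : (pK b).eval i = b * (i + 2) := by simp [pK]
theorem pd_eval (i : ℕ) : (c.pd b).eval i = c.dd (b * (i + 1) + 1) := by
  simp [pd, ps_eval, dd]

/-- The modulus. -/
noncomputable def qq (i : ℕ) : ℕ := c.p ^ (pK b).eval i

/-- A bound for the size of the states. -/
noncomputable def bdP : Polynomial ℕ :=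
  Polynomial.C (Fintype.card (Om c.t)) * (c.pd b * (Polynomial.C 4 * (pK b *
    Polynomial.C c.p.size + 1) + Polynomial.C 2) + Polynomial.C 2) + 1

theorem small_le {i : ℕ} {U : List (List ℕ)}
    (h : Small (Fintype.card (Om c.t)) ((c.pd b).eval i) (c.qq b i) U) :
    sz U ≤ (c.bdP b).eval i := by
  refine h.sz_le.trans ?_
  unfold bdP
  simp only [Polynomial.eval_add, Polynomial.eval_mul, Polynomial.eval_C, Polynomial.eval_one]
  have h1 : (c.qq b i).size ≤ (pK b).eval i * c.p.size + 1 := size_pow_le _ _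
  have h2 : 4 * (c.qq b i).size + 2 ≤ 4 * ((pK b).eval i * c.p.size + 1) + 2 := by omega
  have h3 := Nat.mul_le_mul_left ((c.pd b).eval i) h2
  have h4 := Nat.mul_le_mul_left (Fintype.card (Om c.t)) (Nat.add_le_add_right h3 2)
  omega

/-- One step for a matrix and a scalar. -/
noncomputable def lstep (X : Matrix (Fin c.t) (Fin c.t) (MvPolynomial (Fin c.J) ℤ)) (i : ℕ)
    (U : List (List ℕ)) : List (List ℕ) :=
  vstep (YY X c.D) ((ps b).eval i) ((c.pd b).eval i) (c.qq b i) U

theorem poly_lstep {α : Type} [TEnc α]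
    (X : Matrix (Fin c.t) (Fin c.t) (MvPolynomial (Fin c.J) ℤ))
    {l : α → List Unit} {U : α → List (List ℕ)} (hl : NPC.Poly l) (hU : NPC.Poly U) :
    NPC.Poly (fun a => c.lstep b X (l a).length (U a)) := by
  unfold lstep
  have hu : UPoly (fun a => (l a).length) := UPoly.length hl
  exact poly_vstep _ (hu.eval _) (hu.eval _) (poly_pow c.p (hu.eval _)) hU

theorem qq_gt (hb : 1 ≤ b) (i : ℕ) : 1 < c.qq b i := by
  unfold qq
  apply Nat.one_lt_pow _ c.hp.one_lt
  rw [pK_eval]
  have : 0 < b * (i + 2) := by positivity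
  omega

/-- The initial state. -/
noncomputable def ini (i : ℕ) : List (List ℕ) :=
  (c.lstep b (c.D • 1) i)^[(pK b).eval i] (U0 c.t ((c.pd b).eval i))

theorem ini_small (hb : 1 ≤ b) (i k : ℕ) :
    Small (Fintype.card (Om c.t)) ((c.pd b).eval i) (c.qq b i)
      ((c.lstep b (c.D • 1) i)^[k] (U0 c.t ((c.pd b).eval i))) := by
  have hq := c.qq_gt b hb i
  cases k with
  | zero => exact U0_small _ _ _ hq
  | succ k =>
    rw [Function.iterate_succ_apply']
    exact vstep_small _ _ _ _ (by omega) _

theorem poly_ini (hb : 1 ≤ b) : NPC.Poly (fun l : List Unit => c.ini b l.length) := by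
  unfold ini
  have hu : UPoly (fun l : List Unit => l.length) := UPoly.length NPC.Poly.id
  have h1 := NPC.Poly.iterLen (l := fun l : List Unit => List.replicate ((pK b).eval l.length) ())
    (s := fun l => U0 c.t ((c.pd b).eval l.length))
    (F := fun l U => c.lstep b (c.D • 1) l.length U) (hu.eval _) (poly_U0 c.t (hu.eval _))
    (c.poly_lstep b (c.D • 1) (NPC.Poly.fst NPC.Poly.id) (NPC.Poly.snd NPC.Poly.id))
    (c.bdP b) (by
      intro l k _
      refine (c.small_le b (c.ini_small b hb l.length k)).trans (eval_mono _ ?_)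
      exact (length_lt_sz l).le)
  refine h1.congr fun l => ?_
  rw [List.length_replicate]

/-- The test on states. -/
noncomputable def tst (i : ℕ) (U : List (List ℕ)) : Bool :=
  (List.finRange c.t).all fun j => (List.finRange c.t).all fun l =>
    (List.range ((c.pd b).eval i)).all fun g =>
      decide ((U.getD (omE c.t (Sum.inl (j, l)) : ℕ) []).getD g 0 % c.p ^ (c.kc ((pK b).eval i) l) =
        if j = l then (U.getD (omE c.t (Sum.inr ()) : ℕ) []).getD g 0 %
          c.p ^ (c.kc ((pK b).eval i) l) else 0)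

theorem poly_kc {α : Type} [TEnc α] {n : α → ℕ} (hn : UPoly n) (l : Fin c.t) :
    NPC.Poly (fun a => c.p ^ (c.kc (n a) l)) := by
  unfold kc
  cases c.ty l with
  | none => exact poly_pow c.p hn
  | some k =>
    have h := NPC.Poly.const (α := α) (c.p ^ k)
    exact h

theorem poly_tst {α : Type} [TEnc α] {l : α → List Unit} {U : α → List (List ℕ)}
    (hl : NPC.Poly l) (hU : NPC.Poly U) : NPC.Poly (fun a => c.tst b (l a).length (U a)) := by
  unfold tst
  have hu : UPoly (fun a => (l a).length) := UPoly.length hl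
  refine poly_allFixed _ _ fun j _ => poly_allFixed _ _ fun m _ => ?_
  refine NPC.Poly.all (p := fun (a : α) (g : ℕ) =>
      decide (((U a).getD (omE c.t (Sum.inl (j, m)) : ℕ) []).getD g 0 %
        c.p ^ (c.kc ((pK b).eval (l a).length) m) =
        if j = m then ((U a).getD (omE c.t (Sum.inr ()) : ℕ) []).getD g 0 %
          c.p ^ (c.kc ((pK b).eval (l a).length) m) else 0)) ((hu.eval _).range) ?_
  have hf1 : NPC.Poly (fun a : α × ℕ => a.1) := NPC.Poly.fst NPC.Poly.id
  have hP : NPC.Poly (fun a : α × ℕ => c.p ^ (c.kc ((pK b).eval (l a.1).length) m)) :=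
    c.poly_kc ((hu.eval (pK b)).comp hf1) m
  have hU' : NPC.Poly (fun a : α × ℕ => U a.1) := hU.comp hf1
  have hg : NPC.Poly (fun a : α × ℕ => a.2) := NPC.Poly.snd NPC.Poly.id
  refine NPC.Poly.decide_eq (NPC.Poly.mod (NPC.Poly.getD (NPC.Poly.getD hU' (NPC.Poly.const _)
    (NPC.Poly.const _)) hg (NPC.Poly.const 0)) hP) ?_
  by_cases hjm : j = m
  · simp only [hjm, if_true]
    exact NPC.Poly.mod (NPC.Poly.getD (NPC.Poly.getD hU' (NPC.Poly.const _)
      (NPC.Poly.const _)) hg (NPC.Poly.const 0)) hP
  · simp only [hjm, if_false]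
    exact NPC.Poly.const 0

theorem kc_dvd (hbt : ∀ l k, c.ty l = some k → k ≤ b) (i : ℕ) (l : Fin c.t) :
    c.p ^ (c.kc ((pK b).eval i) l) ∣ c.qq b i := by
  unfold qq
  apply pow_dvd_pow
  unfold kc
  cases hty : c.ty l with
  | none => exact le_rfl
  | some k =>
    have h1 := hbt l k hty
    have h2 : b * 1 ≤ b * (i + 2) := Nat.mul_le_mul_left _ (by omega)
    rw [pK_eval]
    simp only [Option.getD_some]
    omega

theorem tst_iff (hbt : ∀ l k, c.ty l = some k → k ≤ b) (i : ℕ) (w : List I)
    (U : List (List ℕ)) (h : RepM (c.dd (b * (i + 1) + 1)) (c.qq b i) U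
      (kron c.J (b * (i + 1) + 1) (c.dd (b * (i + 1) + 1)) c.D ^ (b * (i + 2)) •
        (w.map c.X).prod.map (kron c.J (b * (i + 1) + 1) (c.dd (b * (i + 1) + 1))))
      (kron c.J (b * (i + 1) + 1) (c.dd (b * (i + 1) + 1)) c.D ^ (b * (i + 2) + w.length))) :
    c.tst b i U = true ↔ c.acc (b * (i + 1) + 1) (b * (i + 2)) w := by
  unfold tst acc
  rw [pd_eval, pK_eval]
  simp only [List.all_eq_true, List.mem_finRange, true_implies, List.mem_range, decide_eq_true_eq]
  refine forall_congr' fun j => forall_congr' fun l => ?_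
  set s := b * (i + 1) + 1 with hs
  set κ := kron c.J s (c.dd s) with hκ
  set P := c.p ^ (c.kc (b * (i + 2)) l) with hP
  have hPq : P ∣ c.qq b i := by
    have := c.kc_dvd b hbt i l
    rwa [pK_eval] at this
  have hcast : ((c.p : EE (c.dd s)) ^ (c.kc (b * (i + 2)) l)) = ((P : ℕ) : EE (c.dd s)) := by
    rw [hP]; push_cast; rfl
  rw [hcast, natCast_dvd_iff]
  -- the coefficient
  have h1 : ∀ g < c.dd s, (((U.getD (omE c.t (Sum.inl (j, l)) : ℕ) []).getD g 0 : ℕ) : ℤ) ≡
      (κ c.D ^ (b * (i + 2)) * κ ((w.map c.X).prod j l)).coeff (g : ZMod (c.dd s)) [ZMOD P] := by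
    intro g hg
    have h2 := h (omE c.t (Sum.inl (j, l))) g hg
    simp only [Equiv.symm_apply_apply, vec, Matrix.smul_apply, Matrix.map_apply,
      smul_eq_mul] at h2
    exact h2.of_dvd (by exact_mod_cast hPq)
  have h2 : ∀ g < c.dd s, (((U.getD (omE c.t (Sum.inr ()) : ℕ) []).getD g 0 : ℕ) : ℤ) ≡
      (κ c.D ^ (b * (i + 2) + w.length)).coeff (g : ZMod (c.dd s)) [ZMOD P] := by
    intro g hg
    have h2 := h (omE c.t (Sum.inr ())) g hg
    simp only [Equiv.symm_apply_apply, vec] at h2
    exact h2.of_dvd (by exact_mod_cast hPq)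
  have h3 : κ c.D ^ (b * (i + 2)) * κ (c.FF w j l) =
      κ c.D ^ (b * (i + 2)) * κ ((w.map c.X).prod j l) -
        (if j = l then κ c.D ^ (b * (i + 2) + w.length) else 0) := by
    unfold FF
    rw [Matrix.sub_apply, Matrix.smul_apply, Matrix.one_apply, map_sub, mul_sub]
    congr 1
    split_ifs
    · rw [smul_eq_mul, mul_one, map_pow, ← pow_add]
    · rw [smul_eq_mul, mul_zero, map_zero, mul_zero]
  rw [h3]
  have key : ∀ g < c.dd s, ((U.getD (omE c.t (Sum.inl (j, l)) : ℕ) []).getD g 0 % P =
        if j = l then (U.getD (omE c.t (Sum.inr ()) : ℕ) []).getD g 0 % P else 0) ↔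
      (P : ℤ) ∣ (κ c.D ^ (b * (i + 2)) * κ ((w.map c.X).prod j l) -
        (if j = l then κ c.D ^ (b * (i + 2) + w.length) else 0)).coeff (g : ZMod (c.dd s)) := by
    intro g hg
    have e1 := h1 g hg
    have e2 := h2 g hg
    by_cases hjl : j = l
    · rw [if_pos hjl, if_pos hjl, AddMonoidAlgebra.coeff_sub, Finsupp.sub_apply,
        ← Int.modEq_iff_dvd]
      constructor
      · intro e3
        have e4 : (((U.getD (omE c.t (Sum.inl (j, l)) : ℕ) []).getD g 0 : ℕ) : ℤ) ≡
          (((U.getD (omE c.t (Sum.inr ()) : ℕ) []).getD g 0 : ℕ) : ℤ) [ZMOD P] :=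
          (Int.natCast_modEq_iff).2 e3
        exact (e2.symm.trans (e4.symm.trans e1))
      · intro e3
        exact (Int.natCast_modEq_iff).1 (e1.trans (e3.symm.trans e2.symm))
    · rw [if_neg hjl, if_neg hjl, sub_zero]
      rw [← Nat.dvd_iff_mod_eq_zero, ← Int.natCast_dvd_natCast]
      exact e1.dvd_iff
  constructor
  · intro h4 g
    have h5 := (key g.val (ZMod.val_lt g)).1 (h4 _ (ZMod.val_lt g))
    rwa [ZMod.natCast_zmod_val] at h5
  · intro h4 g hg
    exact (key g hg).2 (h4 _)

theorem tester (hb : 1 ≤ b) (hbt : ∀ l k, c.ty l = some k → k ≤ b) :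
    Tester (fun i w => c.acc (b * (i + 1) + 1) (b * (i + 2)) w) := by
  classical
  have hfst : ∀ (w : List I) (l : List Unit) (U : List (List ℕ)),
      w.foldl (fun (s : List Unit × List (List ℕ)) a => (s.1, c.lstep b (c.X a) s.1.length s.2))
        (l, U) = (l, w.foldl (fun U a => c.lstep b (c.X a) l.length U) U) := by
    intro w
    induction w with
    | nil => intro l U; rfl
    | cons a w ih => intro l U; exact ih _ _
  refine ⟨List Unit × List (List ℕ), inferInstance, fun l => (l, c.ini b l.length),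
    fun a s => (s.1, c.lstep b (c.X a) s.1.length s.2), fun s => c.tst b s.1.length s.2,
    Polynomial.C 2 * Polynomial.X + c.bdP b + Polynomial.C 2,
    NPC.Poly.pair NPC.Poly.id (c.poly_ini b hb), ?_, ?_, ?_, ?_⟩
  · intro a
    exact NPC.Poly.pair (NPC.Poly.fst NPC.Poly.id) (c.poly_lstep b (c.X a)
      (NPC.Poly.fst NPC.Poly.id) (NPC.Poly.snd NPC.Poly.id))
  · exact c.poly_tst b (NPC.Poly.fst NPC.Poly.id) (NPC.Poly.snd NPC.Poly.id)
  · intro l w
    rw [hfst, NPC.sz_pair]
    have hq := c.qq_gt b hb l.length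
    have h1 : sz l ≤ 2 * l.length + 1 := by
      have := NPC.sz_le_length_mul l 1 (fun a _ => by simp)
      omega
    have h2 : sz (w.foldl (fun U a => c.lstep b (c.X a) l.length U) (c.ini b l.length)) ≤
        (c.bdP b).eval l.length := by
      apply c.small_le b
      have : ∀ (w : List I) (U : List (List ℕ)),
          Small (Fintype.card (Om c.t)) ((c.pd b).eval l.length) (c.qq b l.length) U →
          Small (Fintype.card (Om c.t)) ((c.pd b).eval l.length) (c.qq b l.length)
            (w.foldl (fun U a => c.lstep b (c.X a) l.length U) U) := by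
        intro w
        induction w with
        | nil => intro U hU; exact hU
        | cons a w ih =>
          intro U _
          exact ih _ (vstep_small _ _ _ _ (by omega) _)
      exact this w _ (c.ini_small b hb l.length _)
    simp only [Polynomial.eval_add, Polynomial.eval_mul, Polynomial.eval_C, Polynomial.eval_X]
    omega
  · intro l w
    rw [hfst]
    change _ ↔ c.tst b l.length _ = true
    set i := l.length with hi
    have hq := c.qq_gt b hb i
    rw [c.tst_iff b hbt i w]
    set s := b * (i + 1) + 1 with hs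
    set κ := kron c.J s (c.dd s) with hκ
    have hls : ∀ X U, c.lstep b X i U = vstep (YY X c.D) s (c.dd s) (c.qq b i) U := by
      intro X U
      unfold lstep
      rw [ps_eval, pd_eval]
    -- the initial vector
    have h0 : ∀ k, RepM (c.dd s) (c.qq b i) ((c.lstep b (c.D • 1) i)^[k] (U0 c.t (c.dd s)))
        (κ c.D ^ k • (1 : Matrix (Fin c.t) (Fin c.t) (EE (c.dd s)))) (κ c.D ^ k) := by
      intro k
      induction k with
      | zero =>
        rw [pow_zero, one_smul]
        exact U0_rep _ _ _
      | succ k ih =>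
        rw [Function.iterate_succ_apply']
        have h1 := repM_step (s := s) (J := c.J) (by omega) (c.D • 1) c.D ih
        rw [hls]
        have e1 : (κ c.D ^ k • (1 : Matrix (Fin c.t) (Fin c.t) (EE (c.dd s)))) *
            (c.D • (1 : Matrix (Fin c.t) (Fin c.t) (MvPolynomial (Fin c.J) ℤ))).map
              (kron c.J s (c.dd s)) = κ c.D ^ (k + 1) • 1 := by
          have e2 : (c.D • (1 : Matrix (Fin c.t) (Fin c.t) (MvPolynomial (Fin c.J) ℤ))).map
              (kron c.J s (c.dd s)) = κ c.D • 1 := by
            ext x y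
            rw [Matrix.map_apply, Matrix.smul_apply, Matrix.smul_apply, smul_eq_mul, map_mul,
              Matrix.one_apply, Matrix.one_apply, smul_eq_mul]
            split_ifs <;> simp [hκ]
          rw [e2, Matrix.smul_mul, one_mul, smul_smul, pow_succ]
        rw [e1, ← pow_succ] at h1
        exact h1
    have h1 : ∀ (w : List I) (U : List (List ℕ)) (M : Matrix (Fin c.t) (Fin c.t) (EE (c.dd s)))
        (x : EE (c.dd s)), RepM (c.dd s) (c.qq b i) U M x →
        RepM (c.dd s) (c.qq b i) (w.foldl (fun U a => c.lstep b (c.X a) i U) U)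
          (M * (w.map c.X).prod.map κ) (x * κ c.D ^ w.length) := by
      intro w
      induction w with
      | nil =>
        intro U M x h
        rw [List.map_nil, List.prod_nil, Matrix.map_one κ (map_zero κ) (map_one κ), mul_one,
          List.length_nil, pow_zero, mul_one]
        exact h
      | cons a w ih =>
        intro U M x h
        have h2 := repM_step (s := s) (J := c.J) (by omega) (c.X a) c.D h
        have h3 := ih (c.lstep b (c.X a) i U) _ _ (by
          rw [hls]
          exact h2)
        rw [List.map_cons, List.prod_cons, Matrix.map_mul, ← mul_assoc, List.length_cons,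
          pow_succ' (κ c.D) w.length, ← mul_assoc]
        exact h3
    have h2 := h1 w _ _ _ (h0 (b * (i + 2)))
    rw [Matrix.smul_mul, one_mul, ← pow_add] at h2
    unfold ini
    rw [pK_eval, pd_eval]
    exact h2

end CompData

end Pool.Agent.H45R3.MB
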