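import Pool.Agent.H45R3.MB.Level2
import Pool.Agent.H656R2.NPC.Num

/-!
# A linear machine over the group ring of a cyclic group, in polynomial time
-/

namespace Pool.Agent.H45R3.MB

open Pool.Agent.H656R2
open Pool.Agent.H656R2.NPC (TEnc sz sz_nat_le length_lt_sz UPoly)
open AddMonoidAlgebra (single)

/-! ### More closure properties -/

section PolyExtra

variable {α β γ : Type} [TEnc α] [TEnc β]

theorem poly_sumFixed {γ : Type} (L : List γ) (F : γ → α → ℕ) (h : ∀ c ∈ L, NPC.Poly (F c)) :
    NPC.Poly (fun a => (L.map fun c => F c a).sum) := by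
  induction L with
  | nil => exact (NPC.Poly.const 0).congr fun _ => rfl
  | cons c L ih =>
    refine (NPC.Poly.add (h c (by simp)) (ih fun c hc => h c (by simp [hc]))).congr fun a => ?_
    simp

theorem poly_mapFixed {γ : Type} (L : List γ) (F : γ → α → β) (h : ∀ c ∈ L, NPC.Poly (F c)) :
    NPC.Poly (fun a => L.map fun c => F c a) := by
  induction L with
  | nil => exact (NPC.Poly.const []).congr fun _ => rfl
  | cons c L ih =>
    exact (NPC.Poly.cons (h c (by simp)) (ih fun c hc => h c (by simp [hc]))).congr fun a => by simp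

theorem poly_allFixed {γ : Type} (L : List γ) (F : γ → α → Bool) (h : ∀ c ∈ L, NPC.Poly (F c)) :
    NPC.Poly (fun a => L.all fun c => F c a) := by
  induction L with
  | nil => exact (NPC.Poly.const true).congr fun _ => rfl
  | cons c L ih =>
    exact (NPC.Poly.and (h c (by simp)) (ih fun c hc => h c (by simp [hc]))).congr fun a => by simp

theorem size_pow_le (p k : ℕ) : (p ^ k).size ≤ k * p.size + 1 := by
  apply Nat.size_le.2
  rcases Nat.eq_zero_or_pos k with h | h
  · subst h; simp
  · calc p ^ k < (2 ^ p.size) ^ k := Nat.pow_lt_pow_left (Nat.lt_size_self p) h.ne'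
      _ = 2 ^ (k * p.size) := by rw [← pow_mul, mul_comm]
      _ ≤ _ := Nat.pow_le_pow_right (by norm_num) (by omega)

theorem poly_pow (p : ℕ) {n : α → ℕ} (hn : UPoly n) : NPC.Poly (fun a => p ^ n a) := by
  obtain ⟨r, hr⟩ := hn.sz_le
  have key : ∀ k x : ℕ, (fun y => y * p)^[k] x = x * p ^ k := by
    intro k
    induction k with
    | zero => intro x; simp
    | succ k ih => intro x; rw [Function.iterate_succ_apply, ih, pow_succ]; ring
  refine (NPC.Poly.iterLen (l := fun a => List.replicate (n a) ()) (s := fun _ => 1)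
    (F := fun _ y => y * p) hn (NPC.Poly.const 1) (NPC.Poly.mul (NPC.Poly.snd NPC.Poly.id) (NPC.Poly.const p))
    (Polynomial.C (4 * p.size) * r + Polynomial.C 10) ?_).congr fun a => ?_
  · intro a k hk
    rw [key, one_mul]
    have h1 := sz_nat_le (p ^ k)
    have h2 := size_pow_le p k
    have h3 := hr a
    have h4 := length_lt_sz (List.replicate (n a) ())
    have h5 : k ≤ r.eval (sz a) := by omega
    have h6 : k * p.size ≤ r.eval (sz a) * p.size := Nat.mul_le_mul_right _ h5
    simp only [Polynomial.eval_add, Polynomial.eval_mul, Polynomial.eval_C]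
    nlinarith
  · rw [key, List.length_replicate, one_mul]

end PolyExtra

/-! ### The linear machine -/

/-- The coefficient `z`, as a natural number modulo `q`. -/
def cf (z : ℤ) (q : ℕ) : ℕ := if 0 ≤ z then z.natAbs else z.natAbs * (q - 1)

theorem cf_spec (z : ℤ) (q : ℕ) (hq : 0 < q) : ((cf z q : ℕ) : ℤ) ≡ z [ZMOD q] := by
  unfold cf
  split_ifs with h
  · rw [Int.natAbs_of_nonneg h]
  · push Not at h
    push_cast [Nat.cast_sub (show 1 ≤ q from hq)]
    rw [abs_of_neg h]
    apply Int.ModEq.symm
    rw [Int.modEq_iff_dvd]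
    exact ⟨-z, by ring⟩

theorem poly_cf {α : Type} [TEnc α] (z : ℤ) {q : α → ℕ} (hq : NPC.Poly q) :
    NPC.Poly (fun a => cf z (q a)) := by
  unfold cf
  split_ifs
  · exact NPC.Poly.const _
  · exact NPC.Poly.mul (NPC.Poly.const _) (NPC.Poly.sub hq (NPC.Poly.const 1))

section Machine

variable {J N : ℕ}

/-- One entry of the product of a vector with a matrix. -/
noncomputable def entry (Y : Fin N → Fin N → MvPolynomial (Fin J) ℤ) (s d q : ℕ) (U : List (List ℕ))
    (o : Fin N) (g : ℕ) : ℕ :=
  (((List.finRange N).map fun o' => ((Y o' o).support.toList.map fun m =>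
    cf ((Y o' o).coeff m) q *
      ((U.getD (o' : ℕ) []).getD ((g + (d - kexp s m % d)) % d) 0)).sum).sum) % q

/-- The product of a vector with a matrix. -/
noncomputable def vstep (Y : Fin N → Fin N → MvPolynomial (Fin J) ℤ) (s d q : ℕ)
    (U : List (List ℕ)) : List (List ℕ) :=
  (List.finRange N).map fun o => (List.range d).map (entry Y s d q U o)

/-- The list of lists represents the vector, modulo `q`. -/
def Rep (d q : ℕ) (U : List (List ℕ)) (u : Fin N → EE d) : Prop :=
  ∀ (o : Fin N) (g : ℕ), g < d →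
    (((U.getD (o : ℕ) []).getD g 0 : ℕ) : ℤ) ≡ (u o).coeff (g : ZMod d) [ZMOD q]

theorem getD_finRange_map {β : Type*} (F : Fin N → β) (o : Fin N) (b : β) :
    ((List.finRange N).map F).getD (o : ℕ) b = F o := by
  rw [List.getD_eq_getElem _ _ (by simp)]
  simp

theorem getD_range_map {β : Type*} (F : ℕ → β) (d g : ℕ) (hg : g < d) (b : β) :
    ((List.range d).map F).getD g b = F g := by
  rw [List.getD_eq_getElem _ _ (by simpa using hg)]
  simp

theorem modEq_sum_list {γ : Type*} (L : List γ) (f g : γ → ℤ) (q : ℤ)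
    (h : ∀ c ∈ L, f c ≡ g c [ZMOD q]) : (L.map f).sum ≡ (L.map g).sum [ZMOD q] := by
  induction L with
  | nil => exact Int.ModEq.refl _
  | cons c L ih =>
    simp only [List.map_cons, List.sum_cons]
    exact (h c (by simp)).add (ih fun c hc => h c (by simp [hc]))

theorem rep_step {d q s : ℕ} [NeZero d] (hq : 0 < q)
    (Y : Fin N → Fin N → MvPolynomial (Fin J) ℤ) {U : List (List ℕ)} {u : Fin N → EE d}
    (h : Rep d q U u) :
    Rep d q (vstep Y s d q U) (fun o => ∑ o', u o' * kron J s d (Y o' o)) := by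
  intro o g hg
  unfold vstep
  rw [getD_finRange_map, getD_range_map _ _ _ hg]
  unfold entry
  have hd : 0 < d := Nat.pos_of_ne_zero (NeZero.ne d)
  have e1 : ∀ x : ℕ, ((x % q : ℕ) : ℤ) ≡ (x : ℤ) [ZMOD q] := fun x => by
    push_cast
    exact Int.mod_modEq _ _
  refine (e1 _).trans ?_
  rw [AddMonoidAlgebra.coeff_sum, Finsupp.finsetSum_apply]
  rw [Nat.cast_list_sum, List.map_map]
  have e2 : ∑ o', (u o' * kron J s d (Y o' o)).coeff (g : ZMod d) =
      ((List.finRange N).map fun o' => (u o' * kron J s d (Y o' o)).coeff (g : ZMod d)).sum := by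
    rw [← List.ofFn_eq_map, List.sum_ofFn]
  rw [e2]
  apply modEq_sum_list
  intro o' _
  simp only [Function.comp_apply]
  rw [Nat.cast_list_sum, List.map_map]
  have e3 : (u o' * kron J s d (Y o' o)).coeff (g : ZMod d) =
      ((Y o' o).support.toList.map fun m =>
        (Y o' o).coeff m * (u o').coeff ((g : ZMod d) - ((kexp s m : ℕ) : ZMod d))).sum := by
    conv_lhs => rw [(Y o' o).as_sum, map_sum, Finset.mul_sum]
    rw [AddMonoidAlgebra.coeff_sum, Finsupp.finsetSum_apply, ← Finset.sum_map_toList]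
    congr 1
    refine List.map_congr_left fun m _ => ?_
    rw [kron_monomial, AddMonoidAlgebra.coeff_mul_single_apply, mul_comm, sub_eq_add_neg]
  rw [e3]
  apply modEq_sum_list
  intro m _
  simp only [Function.comp_apply]
  push_cast
  refine (cf_spec _ q hq).mul ?_
  have h1 := h o' ((g + (d - kexp s m % d)) % d) (Nat.mod_lt _ hd)
  refine h1.trans ?_
  have e4 : ((((g + (d - kexp s m % d)) % d : ℕ)) : ZMod d) =
      (g : ZMod d) - ((kexp s m : ℕ) : ZMod d) := by
    rw [ZMod.natCast_mod]
    have h2 : kexp s m % d ≤ d := (Nat.mod_lt _ hd).le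
    push_cast [Nat.cast_sub h2]
    rw [ZMod.natCast_self]
    have h3 : ((kexp s m % d : ℕ) : ZMod d) = (kexp s m : ZMod d) := ZMod.natCast_mod _ _
    rw [h3]
    ring
  rw [e4]

end Machine

end Pool.Agent.H45R3.MB
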